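import Pool.Agent.Exo.Rich

/-!
# From good vertices to a good partition
-/

open Finset Fintype Filter

namespace Pool.Agent.Exo

open SimpleGraph Pool.Agent.Helper49.Copies

theorem Cls_dg_add_mg {V : Type} (G : SimpleGraph V) (S : Finset V) (x : V) :
    dg G S x + mg G S x = #S := by
  classical
  unfold dg mg
  exact Finset.card_filter_add_card_filter_not _

theorem Cls_mg_mono {V : Type} (G : SimpleGraph V) {S T : Finset V} (h : S ⊆ T) (x : V) :
    mg G S x ≤ mg G T x := by
  classical
  unfold mg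
  exact card_le_card (filter_subset_filter _ h)

theorem Cls_mg_le {V : Type} (G : SimpleGraph V) (S : Finset V) (x : V) : mg G S x ≤ #S := by
  classical
  unfold mg
  exact card_filter_le _ _

theorem Cls_dg_le {V : Type} (G : SimpleGraph V) (S : Finset V) (x : V) : dg G S x ≤ #S := by
  classical
  unfold dg
  exact card_filter_le _ _

theorem Cls_mg_disj {V : Type} [DecidableEq V] (G : SimpleGraph V) {S T U : Finset V}
    (hS : S ⊆ U) (hT : T ⊆ U) (hd : Disjoint S T) (x : V) :
    mg G S x + mg G T x ≤ mg G U x := by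
  classical
  unfold mg
  rw [← card_union_of_disjoint (disjoint_filter_filter hd), ← filter_union]
  exact card_le_card (filter_subset_filter _ (union_subset hS hT))

theorem Cls_mg_union {V : Type} [DecidableEq V] (G : SimpleGraph V) (S T : Finset V) (x : V) :
    mg G (S ∪ T) x ≤ mg G S x + mg G T x := by
  classical
  unfold mg
  rw [filter_union]
  exact card_union_le _ _

theorem good_of_classes {V W : Type} [Fintype V] [Fintype W] [DecidableEq V] (L : SimpleGraph W)
    (G : SimpleGraph V) (r : ℕ) (hr : 2 ≤ r) (hnc : ¬ L.Colorable r) (hS : StarType L r)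
    (D : Finset V) (hD : IsCore L G D) (Gd : Finset V) (j : V → Fin r)
    (hin : ∀ w ∈ Gd, dg G {x ∈ Gd | j x = j w} w ≤ card W) (s : ℝ) (hs : card W ≤ s)
    (hDs : #D ≤ s) (hGd : (#(univ \ Gd) : ℝ) ≤ s)
    (hdeg : ∀ x, (1 - 1 / (r : ℝ)) * card V - s ≤ dg G univ x) (C : ℝ)
    (hC : C = r * card W * (2 * r + 2) + 4 * r + 4) (hbig : C * s < card V / r) :
    ∃ j' : V → Fin r, (∀ x l, l ≠ j' x → (mg G (cls j' l) x : ℝ) ≤ C * s) ∧
      ∀ l, (card V : ℝ) / r - C * s ≤ #(cls j' l) := by
  classical
  set n : ℝ := (card V : ℝ) with hn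
  set m := card W with hm
  have hs0 : (0 : ℝ) ≤ s := le_trans (Nat.cast_nonneg _) hs
  have hrR : (2 : ℝ) ≤ r := by exact_mod_cast hr
  have hr1 : 1 ≤ r := by omega
  have hr0 : (r : ℝ) ≠ 0 := by positivity
  set Vc : Fin r → Finset V := fun i => {w ∈ Gd | j w = i} with hVc
  have hmemVc : ∀ i w, w ∈ Vc i ↔ w ∈ Gd ∧ j w = i := by
    intro i w
    rw [hVc, mem_filter]
  have hdisj : ∀ i l, i ≠ l → Disjoint (Vc i) (Vc l) := by
    intro i l hil
    rw [Finset.disjoint_left]
    intro w hw hw'
    rw [hmemVc] at hw hw'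
    exact hil (hw.2.symm.trans hw'.2)
  have hinVc : ∀ i, ∀ w ∈ Vc i, (dg G (Vc i) w : ℝ) ≤ m := by
    intro i w hw
    rw [hmemVc] at hw
    have h := hin w hw.1
    rw [hw.2] at h
    exact_mod_cast h
  have hsumVc : ∑ i, #(Vc i) = #Gd :=
    (card_eq_sum_card_fiberwise (fun _ _ => by simp)).symm
  have hGdcard : (n : ℝ) - s ≤ #Gd := by
    have h1 : #(univ \ Gd) + #Gd = card V := by
      rw [Finset.card_sdiff_add_card_eq_card (subset_univ _), Finset.card_univ]
    have h2 : (#(univ \ Gd) : ℝ) + #Gd = n := by rw [hn]; exact_mod_cast h1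
    linarith
  have hn0 : 0 ≤ n := Nat.cast_nonneg _
  have hcomp : ∀ (x : V) (S : Finset V), (dg G S x : ℝ) + mg G S x = #S := by
    intro x S
    exact_mod_cast Cls_dg_add_mg G S x
  have hmguniv : ∀ x, (mg G univ x : ℝ) ≤ n / r + s := by
    intro x
    have h1 := hcomp x univ
    have h2 := hdeg x
    have h4 : (1 - 1 / (r : ℝ)) * n = n - n / r := by ring
    rw [h4] at h2
    rw [Finset.card_univ] at h1
    linarith
  -- upper bound for the classes
  have hVcup : ∀ i, (#(Vc i) : ℝ) ≤ n / r + 2 * s := by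
    intro i
    rcases (Vc i).eq_empty_or_nonempty with h | ⟨w, hw⟩
    · rw [h]
      simp only [Finset.card_empty, Nat.cast_zero]
      positivity
    · have h1 := hcomp w (Vc i)
      have h2 := hinVc i w hw
      have h3 : (mg G (Vc i) w : ℝ) ≤ mg G univ w := by
        exact_mod_cast Cls_mg_mono G (subset_univ _) w
      have h4 := hmguniv w
      linarith
  -- lower bound for the classes
  have hVclow : ∀ i, n / r - (2 * r - 1) * s ≤ #(Vc i) := by
    intro i
    have h1 : #(Vc i) + ∑ l ∈ univ.erase i, #(Vc l) = #Gd := by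
      rw [Finset.add_sum_erase univ (fun l => #(Vc l)) (mem_univ i), hsumVc]
    have h2 : ((∑ l ∈ univ.erase i, #(Vc l) : ℕ) : ℝ) ≤ (r - 1) * (n / r + 2 * s) := by
      push_cast
      have h3 : #(univ.erase i) = r - 1 := by
        rw [card_erase_of_mem (mem_univ _), Finset.card_univ, Fintype.card_fin]
      calc ∑ l ∈ univ.erase i, (#(Vc l) : ℝ) ≤ #(univ.erase i) • (n / r + 2 * s) :=
            Finset.sum_le_card_nsmul _ _ _ (fun l _ => hVcup l)
        _ = (r - 1) * (n / r + 2 * s) := by
            rw [h3, nsmul_eq_mul, Nat.cast_sub hr1]; simp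
    have h3 : (#(Vc i) : ℝ) + ((∑ l ∈ univ.erase i, #(Vc l) : ℕ) : ℝ) = #Gd := by
      exact_mod_cast h1
    have h4 : ((r : ℝ) - 1) * (n / r + 2 * s) = n - n / r + 2 * (r - 1) * s := by
      field_simp
    rw [h4] at h2
    linarith
  -- missing neighbours of good vertices
  have hmissR : ∀ i l, i ≠ l → ∀ w ∈ Vc i, (mg G (Vc l) w : ℝ) ≤ (2 * r + 1) * s := by
    intro i l hil w hw
    have h1 : (mg G (Vc i) w : ℝ) + mg G (Vc l) w ≤ mg G univ w := by
      exact_mod_cast Cls_mg_disj G (subset_univ _) (subset_univ _) (hdisj i l hil) w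
    have h2 := hmguniv w
    have h3 := hcomp w (Vc i)
    have h4 := hinVc i w hw
    have h5 := hVclow i
    linarith
  set M : ℕ := ⌊(2 * (r : ℝ) + 2) * s⌋₊ with hM
  have hMle : (M : ℝ) ≤ (2 * r + 2) * s := Nat.floor_le (by positivity)
  set Λ : ℕ := r * m * M + m with hΛ
  have hΛle : (Λ : ℝ) ≤ (r * m * (2 * r + 2) + 1) * s := by
    rw [hΛ]
    push_cast
    have h1 : (r : ℝ) * m * M ≤ r * m * ((2 * r + 2) * s) :=
      mul_le_mul_of_nonneg_left hMle (by positivity)
    linarith
  -- every vertex has a class with few neighbours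
  have hclass : ∀ x : V, ∃ i, (dg G (Vc i) x : ℝ) ≤ (r * m * (2 * r + 2) + 2) * s := by
    intro x
    have hex : ∃ i, #{y ∈ Vc i \ D | G.Adj x y} < Λ := by
      by_contra hcon
      push Not at hcon
      obtain ⟨A, hA1, hA2, hA3⟩ := greedy_multipartite G r m M
        (fun i => {y ∈ Vc i \ D | G.Adj x y}) hcon (by
          intro i l hil w hw
          rw [mem_filter, Finset.mem_sdiff] at hw
          apply Nat.le_floor
          have h1 := hmissR i l hil w hw.1.1
          have h2 : #{y ∈ ({y ∈ Vc l \ D | G.Adj x y} : Finset V) | ¬ G.Adj w y} ≤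
              mg G (Vc l) w := by
            unfold mg
            apply card_le_card
            intro y hy
            rw [mem_filter, mem_filter, Finset.mem_sdiff] at hy
            rw [mem_filter]
            exact ⟨hy.1.1.1, hy.2⟩
          have h3 : (#{y ∈ ({y ∈ Vc l \ D | G.Adj x y} : Finset V) | ¬ G.Adj w y} : ℝ) ≤
              mg G (Vc l) w := by exact_mod_cast h2
          linarith)
      obtain ⟨f, z, i, hfz⟩ := rich_copy L G r hr hnc hS A hA3 (fun i => (hA2 i).ge) x (by
        intro i a ha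
        have := hA1 i ha
        rw [mem_filter] at this
        exact this.2)
      have h1 := hA1 i hfz
      rw [mem_filter, Finset.mem_sdiff] at h1
      exact h1.1.2 (hD f z)
    obtain ⟨i, hi⟩ := hex
    refine ⟨i, ?_⟩
    have h1 : dg G (Vc i) x ≤ #{y ∈ Vc i \ D | G.Adj x y} + #D := by
      unfold dg
      refine le_trans (card_le_card ?_) (card_union_le _ _)
      intro y hy
      rw [mem_filter] at hy
      rw [mem_union, mem_filter, Finset.mem_sdiff]
      by_cases hyD : y ∈ D
      · exact Or.inr hyD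
      · exact Or.inl ⟨⟨hy.1, hyD⟩, hy.2⟩
    have h2 : dg G (Vc i) x ≤ Λ + #D := by omega
    have h3 : (dg G (Vc i) x : ℝ) ≤ Λ + #D := by exact_mod_cast h2
    linarith
  choose j' hj' using hclass
  have hmiss : ∀ x : V, ∀ l, l ≠ j' x →
      (mg G (Vc l) x : ℝ) ≤ (r * m * (2 * r + 2) + 2 + 2 * r) * s := by
    intro x l hl
    have h1 : dg G univ x ≤ #(univ \ Gd) + ∑ i, dg G (Vc i) x := by
      have h2 : ({y ∈ (univ : Finset V) | G.Adj x y} : Finset V) ⊆ (univ \ Gd) ∪
          univ.biUnion (fun i => {y ∈ Vc i | G.Adj x y}) := by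
        intro y hy
        rw [mem_filter] at hy
        rw [mem_union]
        by_cases hyG : y ∈ Gd
        · right
          rw [mem_biUnion]
          exact ⟨j y, mem_univ _, by
            rw [mem_filter, hmemVc]; exact ⟨⟨hyG, rfl⟩, hy.2⟩⟩
        · left
          rw [Finset.mem_sdiff]
          exact ⟨mem_univ _, hyG⟩
      unfold dg
      refine (card_le_card h2).trans ((card_union_le _ _).trans
        (Nat.add_le_add_left card_biUnion_le _))
    rw [← Finset.add_sum_erase _ _ (mem_univ (j' x)), ← Finset.add_sum_erase _ _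
      (mem_erase.mpr ⟨hl, mem_univ _⟩)] at h1
    have h3 : ((∑ i ∈ (univ.erase (j' x)).erase l, dg G (Vc i) x : ℕ) : ℝ) +
        (n / r + 2 * s) ≤ (r - 1) * (n / r + 2 * s) := by
      have h5 : #((univ.erase (j' x)).erase l) + 2 = r := by
        rw [card_erase_of_mem (mem_erase.mpr ⟨hl, mem_univ _⟩), card_erase_of_mem (mem_univ _),
          Finset.card_univ, Fintype.card_fin]
        omega
      have h6 : ((∑ i ∈ (univ.erase (j' x)).erase l, dg G (Vc i) x : ℕ) : ℝ) ≤
          #((univ.erase (j' x)).erase l) • (n / r + 2 * s) := by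
        push_cast
        apply Finset.sum_le_card_nsmul
        intro i _
        refine le_trans ?_ (hVcup i)
        exact_mod_cast Cls_dg_le G (Vc i) x
      rw [nsmul_eq_mul] at h6
      have h7 : ((#((univ.erase (j' x)).erase l) : ℕ) : ℝ) = r - 2 := by
        have : ((#((univ.erase (j' x)).erase l) + 2 : ℕ) : ℝ) = r := by exact_mod_cast h5
        push_cast at this
        linarith
      rw [h7] at h6
      linarith
    have h1' : (dg G univ x : ℝ) ≤ #(univ \ Gd) + (dg G (Vc (j' x)) x +
        (dg G (Vc l) x +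
        ((∑ i ∈ (univ.erase (j' x)).erase l, dg G (Vc i) x : ℕ) : ℝ))) := by
      exact_mod_cast h1
    have h4' := hcomp x (Vc l)
    have h5 := hj' x
    have h6 := hVcup l
    have h7 := hdeg x
    have h8 : (1 - 1 / (r : ℝ)) * n = n - n / r := by ring
    have h9 : ((r : ℝ) - 1) * (n / r + 2 * s) = n - n / r + 2 * (r - 1) * s := by field_simp
    rw [h8] at h7
    rw [h9] at h3
    linarith
  have hjj : ∀ y ∈ Gd, j' y = j y := by
    intro y hy
    by_contra hne
    have h1 := hmissR (j y) (j' y) (fun h => hne h.symm) y ((hmemVc _ _).mpr ⟨hy, rfl⟩)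
    have h2 := hj' y
    have h3 := hcomp y (Vc (j' y))
    have h4 := hVclow (j' y)
    rw [hC] at hbig
    linarith
  have hsub1 : ∀ l, cls j' l ⊆ Vc l ∪ (univ \ Gd) := by
    intro l y hy
    unfold cls at hy
    rw [mem_filter] at hy
    rw [mem_union, hmemVc, Finset.mem_sdiff]
    by_cases hyG : y ∈ Gd
    · left
      exact ⟨hyG, (hjj y hyG).symm.trans hy.2⟩
    · right
      exact ⟨mem_univ _, hyG⟩
  have hsub2 : ∀ l, Vc l ⊆ cls j' l := by
    intro l y hy
    rw [hmemVc] at hy
    unfold cls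
    rw [mem_filter]
    exact ⟨mem_univ _, (hjj y hy.1).trans hy.2⟩
  refine ⟨j', ?_, ?_⟩
  · intro x l hl
    have h1 := (Cls_mg_mono G (hsub1 l) x).trans (Cls_mg_union G _ _ x)
    have h2 := h1.trans (Nat.add_le_add_left (Cls_mg_le G (univ \ Gd) x) _)
    have h3 : (mg G (cls j' l) x : ℝ) ≤ mg G (Vc l) x + #(univ \ Gd) := by exact_mod_cast h2
    have h4 := hmiss x l hl
    have h5 : (0 : ℝ) ≤ r * s := by positivity
    rw [hC]
    linarith
  · intro l
    have h1 : (#(Vc l) : ℝ) ≤ #(cls j' l) := by exact_mod_cast card_le_card (hsub2 l)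
    have h2 := hVclow l
    have h5 : (0 : ℝ) ≤ r * s := by positivity
    have h6 : (0 : ℝ) ≤ r * m * (2 * r + 2) * s := by positivity
    rw [hC]
    linarith

end Pool.Agent.Exo
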