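import Pool.Agent.Exo.Tur

/-!
# Few copies when all of them lie in a small set
-/

open Finset Fintype Filter

namespace Pool.Agent.Exo

open SimpleGraph Pool.Agent.Helper49.Copies

theorem minCopies_le_of_core {W : Type} [Fintype W] (L : SimpleGraph W) {n : ℕ}
    (G : SimpleGraph (Fin n)) (P : Finset (Fin n)) (hP : IsCore L G P)
    (hG : 2 * (extremalNumber n L + 1) ≤ pr G) : minCopies n L ≤ #P ^ card W := by
  classical
  have h1 : extremalNumber n L + 1 ≤ #G.edgeFinset := by
    have h2 := pr_eq G
    omega
  obtain ⟨s, hs, hsc⟩ := Finset.exists_subset_card_eq h1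
  set G' : SimpleGraph (Fin n) := SimpleGraph.fromEdgeSet (s : Set (Sym2 (Fin n))) with hG'def
  have hsub : ∀ e ∈ s, e ∈ G.edgeSet := by
    intro e he
    exact SimpleGraph.mem_edgeFinset.mp (hs he)
  have hle : G' ≤ G := by
    intro a b hab
    rw [hG'def, SimpleGraph.fromEdgeSet_adj] at hab
    exact hsub _ (by simpa using hab.1)
  have hedge : G'.edgeSet = (s : Set (Sym2 (Fin n))) := by
    rw [hG'def, SimpleGraph.edgeSet_fromEdgeSet]
    ext e
    constructor
    · rintro ⟨h, -⟩
      exact h
    · intro h
      exact ⟨h, fun hd => SimpleGraph.not_isDiag_of_mem_edgeSet G (hsub e h) hd⟩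
  have hcard : #G'.edgeFinset = extremalNumber n L + 1 := by
    rw [← hsc]
    congr 1
    ext e
    rw [SimpleGraph.mem_edgeFinset, hedge, Finset.mem_coe]
  have hcount : G'.copyCount L ≤ #P ^ card W := by
    have hin : ∀ f : Copy L G', ∀ w, f w ∈ P := by
      intro f w
      exact hP ((Copy.ofLE G' G hle).comp f) w
    have h := copyCount_le_of_injective (ι := W → P) G' (fun f w => ⟨f w, hin f w⟩) (by
      intro f₁ f₂ h
      ext w : 1
      have := congrFun h w
      exact congrArg Subtype.val this)
    rw [Fintype.card_fun, Fintype.card_coe] at h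
    exact h
  have hsInf : minCopies n L ≤ G'.copyCount L := by
    unfold minCopies
    apply Nat.sInf_le
    exact ⟨G', card_edgeFinset_inst _ _ _ _ hcard, rfl⟩
  exact hsInf.trans hcount

end Pool.Agent.Exo
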