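import Pool.Agent.Helper49.CopiesSimonovits

/-!
# Configurations

A configuration is a finite graph `H` together with a map `c` of its vertices to `r` classes. Its
host is the infinite graph obtained by adding infinitely many vertices to each class, a new vertex
being joined to all vertices (old and new) of the other classes.
-/

open Finset Fintype Filter

namespace Pool.Agent.Exo

open SimpleGraph Pool.Agent.Helper49.Copies

/-- Number of edges of the Turan graph with `n` vertices and `r` classes. -/
def tur (r n : ℕ) : ℕ := #(turanGraph n r).edgeFinset

open Classical in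
/-- The number of ordered pairs of adjacent vertices (twice the number of edges). -/
noncomputable def pr {V : Type} [Fintype V] (G : SimpleGraph V) : ℕ :=
  #{p : V × V | G.Adj p.1 p.2}

open Classical in
/-- The number of ordered pairs of adjacent vertices in the same class. -/
noncomputable def inn {V : Type} [Fintype V] {r : ℕ} (G : SimpleGraph V) (j : V → Fin r) : ℕ :=
  #{p : V × V | G.Adj p.1 p.2 ∧ j p.1 = j p.2}

open Classical in
/-- The number of ordered pairs of non-adjacent vertices in different classes. -/
noncomputable def mis {V : Type} [Fintype V] {r : ℕ} (G : SimpleGraph V) (j : V → Fin r) : ℕ :=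
  #{p : V × V | ¬ G.Adj p.1 p.2 ∧ j p.1 ≠ j p.2}

open Classical in
/-- The number of neighbours of `x` in `S`. -/
noncomputable def dg {V : Type} (G : SimpleGraph V) (S : Finset V) (x : V) : ℕ :=
  #{y ∈ S | G.Adj x y}

open Classical in
/-- The number of non-neighbours of `x` in `S`. -/
noncomputable def mg {V : Type} (G : SimpleGraph V) (S : Finset V) (x : V) : ℕ :=
  #{y ∈ S | ¬ G.Adj x y}

/-- The class `i` of a map `j`. -/
def cls {V : Type} [Fintype V] {r : ℕ} (j : V → Fin r) (i : Fin r) : Finset V := {x | j x = i}

/-- All copies of `L` in `G` lie in `D`. -/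
def IsCore {V W : Type} (L : SimpleGraph W) (G : SimpleGraph V) (D : Finset V) : Prop :=
  ∀ (f : Copy L G) (w : W), f w ∈ D

/-- The host graph of the configuration `(H, c)`: infinitely many new vertices in every class; a
new vertex is joined to all old and new vertices of the other classes. -/
def host {r h : ℕ} (H : SimpleGraph (Fin h)) (c : Fin h → Fin r) :
    SimpleGraph (Fin h ⊕ (Fin r × ℕ)) where
  Adj x y := match x, y with
    | Sum.inl a, Sum.inl b => H.Adj a b
    | Sum.inl a, Sum.inr p => c a ≠ p.1
    | Sum.inr p, Sum.inl b => p.1 ≠ c b
    | Sum.inr p, Sum.inr q => p.1 ≠ q.1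
  symm := by
    constructor
    rintro (a | p) (b | q) h
    · exact (show H.Adj a b from h).symm
    · exact Ne.symm h
    · exact Ne.symm h
    · exact Ne.symm h
  loopless := by
    constructor
    rintro (a | p) h
    · exact (show H.Adj a a from h).ne rfl
    · exact h rfl

/-- Twice the excess of a configuration: ordered adjacent pairs inside a class minus ordered
non-adjacent pairs in different classes. -/
noncomputable def excess {r h : ℕ} (H : SimpleGraph (Fin h)) (c : Fin h → Fin r) : ℤ :=
  (inn H c : ℤ) - mis H c

/-- Every copy of `L` in the host of `(H, c)` uses only old vertices. -/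
def OutFree {W : Type} {r h : ℕ} (L : SimpleGraph W) (H : SimpleGraph (Fin h))
    (c : Fin h → Fin r) : Prop :=
  ∀ (f : Copy L (host H c)) (w : W), ∃ a, f w = Sum.inl a

/-- Some configuration all of whose copies of `L` are old has a larger excess than all
configurations without copies of `L`. -/
def Gap {W : Type} (L : SimpleGraph W) (r : ℕ) : Prop :=
  ∃ (h : ℕ) (H : SimpleGraph (Fin h)) (c : Fin h → Fin r), OutFree L H c ∧
    ∀ (h' : ℕ) (H' : SimpleGraph (Fin h')) (c' : Fin h' → Fin r),
      L.Free (host H' c') → excess H' c' < excess H c

/-- `L` becomes `r`-colourable after deleting a vertex. -/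
def StarType {W : Type} (L : SimpleGraph W) (r : ℕ) : Prop :=
  ∃ (v : W) (g : W → Fin r), ∀ a b, L.Adj a b → a ≠ v → b ≠ v → g a ≠ g b

/-- There is a map of the vertices to `r` classes such that the edges inside the classes form a
matching in one class. -/
def MatchType {W : Type} (L : SimpleGraph W) (r : ℕ) : Prop :=
  ∃ (i₀ : Fin r) (g : W → Fin r), ∀ a b, L.Adj a b → g a = g b →
    g a = i₀ ∧ ∀ b', L.Adj a b' → g a = g b' → b' = b

end Pool.Agent.Exo
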