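import Pool.Agent.Exo.Defs

/-!
# Embedding with prescribed images
-/

open Finset Fintype Filter

namespace Pool.Agent.Exo

open SimpleGraph Pool.Agent.Helper49.Copies

/-- Embedding: the vertices of `X` have prescribed images, the others go to the class given
by `g`. -/
theorem emb {V W : Type} [Fintype W] [DecidableEq V] (L : SimpleGraph W) (G : SimpleGraph V)
    (r : ℕ) (g : W → Fin r) (X : Set W) (φ : W → V) (A : Fin r → Finset V)
    (hφ : ∀ x ∈ X, ∀ y ∈ X, φ x = φ y → x = y)
    (hφA : ∀ x ∈ X, ∀ i, φ x ∉ A i)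
    (hXX : ∀ x ∈ X, ∀ y ∈ X, L.Adj x y → G.Adj (φ x) (φ y))
    (hXA : ∀ x ∈ X, ∀ y, y ∉ X → L.Adj x y → ∀ a ∈ A (g y), G.Adj (φ x) a)
    (hAA : ∀ i l, i ≠ l → ∀ a ∈ A i, ∀ b ∈ A l, G.Adj a b)
    (hg : ∀ x, x ∉ X → ∀ y, y ∉ X → L.Adj x y → g x ≠ g y)
    (hcard : ∀ i, card W ≤ #(A i)) :
    ∃ f : Copy L G, (∀ x ∈ X, f x = φ x) ∧ ∀ y, y ∉ X → f y ∈ A (g y) := by
  classical
  have hex : ∀ i, ∃ e : W → V, Function.Injective e ∧ ∀ x, e x ∈ A i := by
    intro i
    have h1 : Fintype.card W ≤ Fintype.card (A i) := by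
      rw [Fintype.card_coe]
      exact hcard i
    obtain ⟨e⟩ := Function.Embedding.nonempty_of_card_le h1
    exact ⟨fun x => (e x).1, fun x y hxy => e.injective (Subtype.ext hxy), fun x => (e x).2⟩
  choose e he1 he2 using hex
  let f : W → V := fun x => if x ∈ X then φ x else e (g x) x
  have fX : ∀ x, x ∈ X → f x = φ x := fun x hx => if_pos hx
  have fN : ∀ x, x ∉ X → f x = e (g x) x := fun x hx => if_neg hx
  have fA : ∀ x, x ∉ X → f x ∈ A (g x) := by
    intro x hx
    rw [fN x hx]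
    exact he2 _ _
  have hinj : Function.Injective f := by
    intro x y hxy
    by_cases hx : x ∈ X
    · by_cases hy : y ∈ X
      · rw [fX x hx, fX y hy] at hxy
        exact hφ x hx y hy hxy
      · exfalso
        rw [fX x hx] at hxy
        exact hφA x hx (g y) (hxy ▸ fA y hy)
    · by_cases hy : y ∈ X
      · exfalso
        rw [fX y hy] at hxy
        exact hφA y hy (g x) (hxy ▸ fA x hx)
      · by_cases hxy2 : g x = g y
        · rw [fN x hx, fN y hy, hxy2] at hxy
          exact he1 _ hxy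
        · exfalso
          have h1 := hAA _ _ hxy2 _ (fA x hx) _ (fA y hy)
          rw [hxy] at h1
          exact h1.ne rfl
  have hadj : ∀ x y, L.Adj x y → G.Adj (f x) (f y) := by
    intro x y hxy
    by_cases hx : x ∈ X
    · by_cases hy : y ∈ X
      · rw [fX x hx, fX y hy]
        exact hXX x hx y hy hxy
      · rw [fX x hx]
        exact hXA x hx y hy hxy _ (fA y hy)
    · by_cases hy : y ∈ X
      · rw [fX y hy]
        exact (hXA y hy x hx hxy.symm _ (fA x hx)).symm
      · exact hAA _ _ (hg x hx y hy hxy) _ (fA x hx) _ (fA y hy)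
  refine ⟨⟨⟨f, fun {x y} hxy => hadj x y hxy⟩, hinj⟩, ?_, ?_⟩
  · intro x hx
    exact fX x hx
  · intro y hy
    exact fA y hy

end Pool.Agent.Exo
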