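import Pool.Agent.Exo.Defs

/-!
# An explicit connected graph with 24 vertices
-/

open Finset Fintype Filter

namespace Pool.Agent.Exo.Ex

open SimpleGraph Pool.Agent.Helper49.Copies

/-- The adjacency rows of `L24`: vertex `b` is adjacent to `a` iff bit `b` of row `a` is 1. -/
def rows : List ℕ :=
  [4280322, 9478145, 4476936, 9478148, 2424864, 13238288, 2424960, 4857920, 2425344, 688384,
    22528, 656384, 9221, 4234, 33797, 16906, 131409, 68256, 524628, 264864, 2097162, 1048912,
    8388773, 4194346]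

/-- Adjacency in `L24`. -/
def adjB (a b : Fin 24) : Bool := (rows.getD a 0).testBit b

theorem adjB_symm : ∀ a b : Fin 24, adjB a b = true → adjB b a = true := by decide +kernel

theorem adjB_irrefl : ∀ a : Fin 24, adjB a a = false := by decide +kernel

/-- The graph `L24`: 24 vertices, 52 edges. -/
def L24 : SimpleGraph (Fin 24) where
  Adj a b := adjB a b = true
  symm := ⟨adjB_symm⟩
  loopless := ⟨fun a h => by rw [adjB_irrefl a] at h; exact absurd h (by simp)⟩

instance : DecidableRel L24.Adj := fun a b => inferInstanceAs (Decidable (adjB a b = true))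

/-- The map for the star type: the inner edges are `22-5` and `22-7`. -/
def gs : Fin 24 → Fin 2 :=
  ![1, 0, 1, 0, 1, 0, 1, 0, 1, 0, 1, 0, 0, 1, 0, 1, 0, 1, 0, 1, 1, 0, 0, 1]

/-- The map for the matching type: seven inner edges, all in the class 0. -/
def gm : Fin 24 → Fin 2 :=
  ![0, 1, 0, 1, 1, 0, 1, 0, 1, 0, 0, 0, 1, 0, 1, 0, 0, 1, 0, 1, 0, 0, 1, 0]

/-- The map for the perfect type: six inner edges `2k - (2k+1)` in every class. -/
def gT : Fin 24 → Fin 2 := fun a => if (a : ℕ) < 12 then 0 else 1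

theorem gs_spec : ∀ a b : Fin 24, L24.Adj a b → a ≠ 22 → b ≠ 22 → gs a ≠ gs b := by
  decide +kernel

theorem gs_star : ∀ b : Fin 24, L24.Adj 22 b → gs b = gs 22 → b = 5 ∨ b = 7 := by
  decide +kernel

theorem gm_spec : ∀ a b : Fin 24, L24.Adj a b → gm a = gm b → gm a = 0 ∧
    ∀ b', L24.Adj a b' → gm a = gm b' → b' = b := by
  decide +kernel

theorem gT_spec : ∀ a b : Fin 24, L24.Adj a b → gT a = gT b → (a : ℕ) / 2 = (b : ℕ) / 2 := by
  decide +kernel

theorem starType : StarType L24 2 := ⟨22, gs, gs_spec⟩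

theorem matchType : MatchType L24 2 := ⟨0, gm, gm_spec⟩

end Pool.Agent.Exo.Ex
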