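import Pool.Agent.Exo.Ex

/-!
# The graph `L24` is connected and 3-chromatic
-/

open Finset Fintype Filter

namespace Pool.Agent.Exo.Ex

open SimpleGraph Pool.Agent.Helper49.Copies

/-- The parent map of a spanning tree of `L24` with root 22. -/
private def exConnPar : Fin 24 → Fin 24 :=
  ![22, 0, 22, 2, 5, 22, 7, 22, 16, 17, 12, 17, 0, 7, 0, 1, 0, 5, 2, 5, 1, 4, 22, 22]

private theorem exConnPar_adj : ∀ a : Fin 24, a = exConnPar a ∨ L24.Adj a (exConnPar a) := by
  decide +kernel

private theorem exConnPar_iter : ∀ a : Fin 24,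
    exConnPar (exConnPar (exConnPar (exConnPar (exConnPar a)))) = 22 := by
  decide +kernel

private theorem exConnPar_reach (a : Fin 24) : L24.Reachable a (exConnPar a) := by
  rcases exConnPar_adj a with h | h
  · rw [← h]
  · exact h.reachable

private theorem exConnReach (a : Fin 24) : L24.Reachable a 22 := by
  have h := (((exConnPar_reach a).trans (exConnPar_reach _)).trans (exConnPar_reach _)).trans
    (exConnPar_reach _) |>.trans (exConnPar_reach _)
  rwa [exConnPar_iter a] at h

theorem L24_connected : L24.Connected :=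
  { preconnected := fun a b => (exConnReach a).trans (exConnReach b).symm
    nonempty := ⟨0⟩ }

private theorem exConnAdj : L24.Adj 22 0 ∧ L24.Adj 0 16 ∧ L24.Adj 16 17 ∧ L24.Adj 17 5 ∧
    L24.Adj 5 22 := by
  decide +kernel

private theorem exConnFive : ∀ a b c d e : Fin 2, a ≠ b → b ≠ c → c ≠ d → d ≠ e → e = a := by
  decide

theorem L24_not_two : ¬ L24.Colorable 2 := by
  rintro ⟨C⟩
  obtain ⟨h1, h2, h3, h4, h5⟩ := exConnAdj
  exact C.valid h5 (exConnFive _ _ _ _ _ (C.valid h1) (C.valid h2) (C.valid h3) (C.valid h4))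

/-- A proper 3-colouring of `L24`. -/
private def exConnCol : Fin 24 → Fin 3 := fun a => if a = 22 then 2 else (gs a).castSucc

private theorem exConnCol_valid : ∀ a b : Fin 24, L24.Adj a b → exConnCol a ≠ exConnCol b := by
  decide +kernel

theorem L24_three : L24.Colorable 3 :=
  ⟨Coloring.mk exConnCol (fun {a b} h => exConnCol_valid a b h)⟩

end Pool.Agent.Exo.Ex
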