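import Pool.Agent.Exo.Ex
import Pool.Agent.Exo.Emb

/-!
# Three ways to find `L24` in the host of a configuration
-/

open Finset Fintype Filter

namespace Pool.Agent.Exo.Ex

open SimpleGraph Pool.Agent.Helper49.Copies

/-- Embedding into a host: the vertices of `X` go to old vertices, the others to new ones. -/
theorem exEmb_host {h : ℕ} (H : SimpleGraph (Fin h)) (c : Fin h → Fin 2)
    (hfree : L24.Free (host H c)) (X : Fin 24 → Bool) (g : Fin 24 → Fin 2) (φ : Fin 24 → Fin h)
    (hφ : ∀ a b, X a = true → X b = true → φ a = φ b → a = b)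
    (hc : ∀ a, X a = true → c (φ a) = g a)
    (hXX : ∀ a b, X a = true → X b = true → L24.Adj a b → H.Adj (φ a) (φ b))
    (hg : ∀ a b, X b = false → L24.Adj a b → g a ≠ g b) : False := by
  apply hfree
  let f : Fin 24 → Fin h ⊕ (Fin 2 × ℕ) := fun a =>
    if X a = true then Sum.inl (φ a) else Sum.inr (g a, (a : ℕ))
  have fX : ∀ a, X a = true → f a = Sum.inl (φ a) := fun a ha => if_pos ha
  have fN : ∀ a, X a = false → f a = Sum.inr (g a, (a : ℕ)) := fun a ha =>
    if_neg (by rw [ha]; exact Bool.false_ne_true)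
  have hinj : Function.Injective f := by
    intro a b hab
    rcases Bool.eq_false_or_eq_true (X a) with ha | ha <;>
      rcases Bool.eq_false_or_eq_true (X b) with hb | hb
    · rw [fX a ha, fX b hb] at hab
      exact hφ a b ha hb (Sum.inl.inj hab)
    · rw [fX a ha, fN b hb] at hab
      exact absurd hab (by simp)
    · rw [fN a ha, fX b hb] at hab
      exact absurd hab (by simp)
    · rw [fN a ha, fN b hb] at hab
      exact Fin.ext (Prod.mk.inj (Sum.inr.inj hab)).2
  have hadj : ∀ a b, L24.Adj a b → (host H c).Adj (f a) (f b) := by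
    intro a b hab
    rcases Bool.eq_false_or_eq_true (X a) with ha | ha <;>
      rcases Bool.eq_false_or_eq_true (X b) with hb | hb
    · rw [fX a ha, fX b hb]
      exact hXX a b ha hb hab
    · rw [fX a ha, fN b hb]
      show c (φ a) ≠ g b
      rw [hc a ha]
      exact hg a b hb hab
    · rw [fN a ha, fX b hb]
      show g a ≠ c (φ b)
      rw [hc b hb]
      exact (hg b a ha hab.symm).symm
    · rw [fN a ha, fN b hb]
      exact hg a b hb hab
  exact ⟨⟨⟨f, fun {x y} hxy => hadj x y hxy⟩, hinj⟩⟩

theorem exEmb_add_ne : ∀ (i x y : Fin 2), x ≠ y → x + i ≠ y + i := by decide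

/-- The prescribed vertices for `no_cherry`. -/
def exEmb_X1 : Fin 24 → Bool := fun a => a == 22 || a == 5 || a == 7

theorem exEmb_X1_gs : ∀ a, exEmb_X1 a = true → gs a = 0 := by decide +kernel

theorem exEmb_X1_adj : ∀ a b, exEmb_X1 b = false → L24.Adj a b → gs a ≠ gs b := by
  decide +kernel

theorem exEmb_X1_inner : ∀ a b, exEmb_X1 a = true → exEmb_X1 b = true → L24.Adj a b →
    (a = 22 ∧ (b = 5 ∨ b = 7)) ∨ (b = 22 ∧ (a = 5 ∨ a = 7)) := by
  decide +kernel

theorem exEmb_X1_cases : ∀ a, exEmb_X1 a = true → a = 22 ∨ a = 5 ∨ a = 7 := by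
  decide +kernel

theorem no_cherry {h : ℕ} (H : SimpleGraph (Fin h)) (c : Fin h → Fin 2)
    (hfree : L24.Free (host H c)) (x y z : Fin h) (hxy : H.Adj x y) (hxz : H.Adj x z)
    (cy : c y = c x) (cz : c z = c x) : y = z := by
  by_contra hyz
  let φ : Fin 24 → Fin h := fun a => if a = 22 then x else if a = 5 then y else z
  have p22 : φ 22 = x := if_pos rfl
  have p5 : φ 5 = y := by
    show (if (5 : Fin 24) = 22 then x else if (5 : Fin 24) = 5 then y else z) = y
    rw [if_neg (by decide), if_pos rfl]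
  have p7 : φ 7 = z := by
    show (if (7 : Fin 24) = 22 then x else if (7 : Fin 24) = 5 then y else z) = z
    rw [if_neg (by decide), if_neg (by decide)]
  have nxy : x ≠ y := hxy.ne
  have nxz : x ≠ z := hxz.ne
  refine exEmb_host H c hfree exEmb_X1 (fun a => gs a + c x) φ ?_ ?_ ?_ ?_
  · intro a b ha hb hab
    rcases exEmb_X1_cases a ha with rfl | rfl | rfl <;>
      rcases exEmb_X1_cases b hb with rfl | rfl | rfl <;>
      simp only [p22, p5, p7] at hab <;>
      first
        | rfl
        | exact absurd hab nxy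
        | exact absurd hab nxz
        | exact absurd hab nxy.symm
        | exact absurd hab nxz.symm
        | exact absurd hab hyz
        | exact absurd hab.symm hyz
  · intro a ha
    show c (φ a) = gs a + c x
    rw [exEmb_X1_gs a ha, zero_add]
    rcases exEmb_X1_cases a ha with rfl | rfl | rfl
    · rw [p22]
    · rw [p5, cy]
    · rw [p7, cz]
  · intro a b ha hb hab
    rcases exEmb_X1_inner a b ha hb hab with ⟨rfl, rfl | rfl⟩ | ⟨rfl, rfl | rfl⟩
    · rw [p22, p5]; exact hxy
    · rw [p22, p7]; exact hxz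
    · rw [p22, p5]; exact hxy.symm
    · rw [p22, p7]; exact hxz.symm
  · intro a b hb hab
    exact exEmb_add_ne _ _ _ (exEmb_X1_adj a b hb hab)

/-- The prescribed vertices for `no_seven`. -/
def exEmb_X2 : Fin 24 → Bool :=
  ![true, false, true, false, false, true, false, true, false, true, true, true,
    false, true, false, true, true, false, true, false, true, true, false, true]

/-- The number of the inner edge of `gm` which contains the vertex. -/
def exEmb_k2 : Fin 24 → Fin 7 :=
  ![0, 0, 1, 0, 0, 2, 0, 3, 0, 4, 5, 5, 0, 3, 0, 4, 0, 0, 1, 0, 6, 6, 0, 2]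

/-- The side of the vertex in the inner edge of `gm`. -/
def exEmb_s2 : Fin 24 → Bool :=
  ![false, false, false, false, false, false, false, false, false, false, false, true,
    false, true, false, true, true, false, true, false, false, true, false, true]

theorem exEmb_X2_inj : ∀ a b, exEmb_X2 a = true → exEmb_X2 b = true →
    exEmb_k2 a = exEmb_k2 b → exEmb_s2 a = exEmb_s2 b → a = b := by
  decide +kernel

theorem exEmb_X2_gm : ∀ a, exEmb_X2 a = true → gm a = 0 := by decide +kernel

theorem exEmb_X2_adj : ∀ a b, exEmb_X2 b = false → L24.Adj a b → gm a ≠ gm b := by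
  decide +kernel

theorem exEmb_X2_inner : ∀ a b, exEmb_X2 a = true → exEmb_X2 b = true → L24.Adj a b →
    exEmb_k2 a = exEmb_k2 b ∧ exEmb_s2 a = !(exEmb_s2 b) := by
  decide +kernel

theorem no_seven {h : ℕ} (H : SimpleGraph (Fin h)) (c : Fin h → Fin 2)
    (hfree : L24.Free (host H c)) (i : Fin 2) (p q : Fin 7 → Fin h)
    (hpq : ∀ k, H.Adj (p k) (q k)) (hc : ∀ k, c (p k) = i ∧ c (q k) = i)
    (hp : Function.Injective p) (hq : Function.Injective q) (hne : ∀ k l, p k ≠ q l) :
    False := by
  refine exEmb_host H c hfree exEmb_X2 (fun a => gm a + i)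
    (fun a => bif exEmb_s2 a then q (exEmb_k2 a) else p (exEmb_k2 a)) ?_ ?_ ?_ ?_
  · intro a b ha hb hab
    refine exEmb_X2_inj a b ha hb ?_ ?_
    · rcases Bool.eq_false_or_eq_true (exEmb_s2 a) with sa | sa <;>
        rcases Bool.eq_false_or_eq_true (exEmb_s2 b) with sb | sb <;>
        simp only [sa, sb, cond_true, cond_false] at hab
      · exact hq hab
      · exact absurd hab.symm (hne _ _)
      · exact absurd hab (hne _ _)
      · exact hp hab
    · rcases Bool.eq_false_or_eq_true (exEmb_s2 a) with sa | sa <;>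
        rcases Bool.eq_false_or_eq_true (exEmb_s2 b) with sb | sb <;>
        simp only [sa, sb, cond_true, cond_false] at hab
      · rw [sa, sb]
      · exact absurd hab.symm (hne _ _)
      · exact absurd hab (hne _ _)
      · rw [sa, sb]
  · intro a ha
    show c (bif exEmb_s2 a then q (exEmb_k2 a) else p (exEmb_k2 a)) = gm a + i
    rw [exEmb_X2_gm a ha, zero_add]
    rcases Bool.eq_false_or_eq_true (exEmb_s2 a) with sa | sa <;> rw [sa]
    · exact (hc _).2
    · exact (hc _).1
  · intro a b ha hb hab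
    obtain ⟨h1, h2⟩ := exEmb_X2_inner a b ha hb hab
    show H.Adj (bif exEmb_s2 a then q (exEmb_k2 a) else p (exEmb_k2 a))
      (bif exEmb_s2 b then q (exEmb_k2 b) else p (exEmb_k2 b))
    rw [h1, h2]
    rcases Bool.eq_false_or_eq_true (exEmb_s2 b) with sb | sb <;> rw [sb]
    · exact hpq _
    · exact (hpq _).symm
  · intro a b hb hab
    exact exEmb_add_ne _ _ _ (exEmb_X2_adj a b hb hab)

/-- The number of the inner edge of `gT` which contains the vertex. -/
def exEmb_k3 (a : Fin 24) : Fin 6 := ⟨((a : ℕ) / 2) % 6, Nat.mod_lt _ (by norm_num)⟩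

/-- The side of the vertex in the inner edge of `gT`. -/
def exEmb_s3 (a : Fin 24) : Bool := (a : ℕ) % 2 == 1

theorem exEmb_X3_inj : ∀ a b, gT a = gT b →
    exEmb_k3 a = exEmb_k3 b → exEmb_s3 a = exEmb_s3 b → a = b := by
  decide +kernel

theorem exEmb_X3_inner : ∀ a b, L24.Adj a b → gT a = gT b →
    exEmb_k3 a = exEmb_k3 b ∧ exEmb_s3 a = !(exEmb_s3 b) := by
  decide +kernel

theorem no_perfect {h : ℕ} (H : SimpleGraph (Fin h)) (c : Fin h → Fin 2)
    (hfree : L24.Free (host H c)) (p q : Fin 2 → Fin 6 → Fin h)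
    (hpq : ∀ i k, H.Adj (p i k) (q i k)) (hc : ∀ i k, c (p i k) = i ∧ c (q i k) = i)
    (hp : ∀ i, Function.Injective (p i)) (hq : ∀ i, Function.Injective (q i))
    (hne : ∀ i k l, p i k ≠ q i l) (hmis : ∀ x y, c x ≠ c y → H.Adj x y) : False := by
  let φ : Fin 24 → Fin h := fun a =>
    bif exEmb_s3 a then q (gT a) (exEmb_k3 a) else p (gT a) (exEmb_k3 a)
  have hφ : ∀ a, φ a = bif exEmb_s3 a then q (gT a) (exEmb_k3 a) else p (gT a) (exEmb_k3 a) :=
    fun a => rfl
  have hcφ : ∀ a, c (φ a) = gT a := by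
    intro a
    rw [hφ]
    rcases Bool.eq_false_or_eq_true (exEmb_s3 a) with sa | sa <;> rw [sa]
    · exact (hc _ _).2
    · exact (hc _ _).1
  refine exEmb_host H c hfree (fun _ => true) gT φ ?_ ?_ ?_ ?_
  · intro a b _ _ hab
    have hg : gT a = gT b := by rw [← hcφ a, ← hcφ b, hab]
    rw [hφ, hφ, hg] at hab
    refine exEmb_X3_inj a b hg ?_ ?_
    · rcases Bool.eq_false_or_eq_true (exEmb_s3 a) with sa | sa <;>
        rcases Bool.eq_false_or_eq_true (exEmb_s3 b) with sb | sb <;>
        simp only [sa, sb, cond_true, cond_false] at hab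
      · exact hq _ hab
      · exact absurd hab.symm (hne _ _ _)
      · exact absurd hab (hne _ _ _)
      · exact hp _ hab
    · rcases Bool.eq_false_or_eq_true (exEmb_s3 a) with sa | sa <;>
        rcases Bool.eq_false_or_eq_true (exEmb_s3 b) with sb | sb <;>
        simp only [sa, sb, cond_true, cond_false] at hab
      · rw [sa, sb]
      · exact absurd hab.symm (hne _ _ _)
      · exact absurd hab (hne _ _ _)
      · rw [sa, sb]
  · intro a _
    exact hcφ a
  · intro a b _ _ hab
    by_cases hg : gT a = gT b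
    · obtain ⟨h1, h2⟩ := exEmb_X3_inner a b hab hg
      rw [hφ, hφ, hg, h1, h2]
      rcases Bool.eq_false_or_eq_true (exEmb_s3 b) with sb | sb <;> rw [sb]
      · exact hpq _ _
      · exact (hpq _ _).symm
    · apply hmis
      rw [hcφ, hcφ]
      exact hg
  · intro a b hb _
    exact absurd hb (by simp)

end Pool.Agent.Exo.Ex
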