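import Pool.Agent.Exo.ExEmb

/-!
# Configurations without `L24` have excess at most 22
-/

open Finset Fintype Filter

namespace Pool.Agent.Exo.Ex

open SimpleGraph Pool.Agent.Helper49.Copies

open Classical in
/-- the inner edges of class `i`, ordered increasingly -/
private noncomputable def exFreeE {h : ℕ} (H : SimpleGraph (Fin h)) (c : Fin h → Fin 2)
    (i : Fin 2) : Finset (Fin h × Fin h) :=
  {p | H.Adj p.1 p.2 ∧ c p.1 = i ∧ c p.2 = i ∧ p.1 < p.2}

private theorem exFree_mem {h : ℕ} {H : SimpleGraph (Fin h)} {c : Fin h → Fin 2} {i : Fin 2}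
    {p : Fin h × Fin h} :
    p ∈ exFreeE H c i ↔ H.Adj p.1 p.2 ∧ c p.1 = i ∧ c p.2 = i ∧ p.1 < p.2 := by
  simp [exFreeE]

private theorem exFree_fst {h : ℕ} {H : SimpleGraph (Fin h)} {c : Fin h → Fin 2}
    (hfree : L24.Free (host H c)) {i : Fin 2} {p q : Fin h × Fin h}
    (hp : p ∈ exFreeE H c i) (hq : q ∈ exFreeE H c i) (e : p.1 = q.1) : p = q := by
  rw [exFree_mem] at hp hq
  refine Prod.ext e ?_
  exact no_cherry H c hfree p.1 p.2 q.2 hp.1 (e ▸ hq.1) (hp.2.2.1.trans hp.2.1.symm)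
    (hq.2.2.1.trans hp.2.1.symm)

private theorem exFree_snd {h : ℕ} {H : SimpleGraph (Fin h)} {c : Fin h → Fin 2}
    (hfree : L24.Free (host H c)) {i : Fin 2} {p q : Fin h × Fin h}
    (hp : p ∈ exFreeE H c i) (hq : q ∈ exFreeE H c i) (e : p.2 = q.2) : p = q := by
  rw [exFree_mem] at hp hq
  refine Prod.ext ?_ e
  exact no_cherry H c hfree p.2 p.1 q.1 hp.1.symm (e ▸ hq.1.symm) (hp.2.1.trans hp.2.2.1.symm)
    (hq.2.1.trans hp.2.2.1.symm)

private theorem exFree_ne {h : ℕ} {H : SimpleGraph (Fin h)} {c : Fin h → Fin 2}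
    (hfree : L24.Free (host H c)) {i : Fin 2} {p q : Fin h × Fin h}
    (hp : p ∈ exFreeE H c i) (hq : q ∈ exFreeE H c i) : p.1 ≠ q.2 := by
  intro e
  rw [exFree_mem] at hp hq
  have h1 : p.2 = q.1 := no_cherry H c hfree p.1 p.2 q.1 hp.1 (e ▸ hq.1.symm)
    (hp.2.2.1.trans hp.2.1.symm) (hq.2.1.trans hp.2.1.symm)
  have h2 := hp.2.2.2
  have h3 := hq.2.2.2
  rw [← h1, ← e] at h3
  exact absurd (h2.trans h3) (lt_irrefl _)

private theorem exFree_enum {α : Type} (s : Finset α) (m : ℕ) (hs : m ≤ #s) :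
    ∃ e : Fin m → α, Function.Injective e ∧ ∀ k, e k ∈ s := by
  obtain ⟨t, hts, ht⟩ := Finset.exists_subset_card_eq hs
  refine ⟨fun k => ((t.equivFinOfCardEq ht).symm k : α), ?_, ?_⟩
  · intro a b hab
    exact (t.equivFinOfCardEq ht).symm.injective (Subtype.ext hab)
  · intro k
    exact hts ((t.equivFinOfCardEq ht).symm k).2

private theorem exFree_card_le {h : ℕ} (H : SimpleGraph (Fin h)) (c : Fin h → Fin 2)
    (hfree : L24.Free (host H c)) (i : Fin 2) : #(exFreeE H c i) ≤ 6 := by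
  by_contra hc
  push Not at hc
  obtain ⟨e, he, hmem⟩ := exFree_enum (exFreeE H c i) 7 hc
  refine no_seven H c hfree i (fun k => (e k).1) (fun k => (e k).2) ?_ ?_ ?_ ?_ ?_
  · intro k
    exact (exFree_mem.1 (hmem k)).1
  · intro k
    exact ⟨(exFree_mem.1 (hmem k)).2.1, (exFree_mem.1 (hmem k)).2.2.1⟩
  · intro a b hab
    exact he (exFree_fst hfree (hmem a) (hmem b) hab)
  · intro a b hab
    exact he (exFree_snd hfree (hmem a) (hmem b) hab)
  · intro k l
    exact exFree_ne hfree (hmem k) (hmem l)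

private theorem exFree_inn_le {h : ℕ} (H : SimpleGraph (Fin h)) (c : Fin h → Fin 2) :
    inn H c ≤ 2 * (#(exFreeE H c 0) + #(exFreeE H c 1)) := by
  classical
  have hsub : ({p : Fin h × Fin h | H.Adj p.1 p.2 ∧ c p.1 = c p.2} : Finset _) ⊆
      (exFreeE H c 0 ∪ exFreeE H c 1) ∪ (exFreeE H c 0 ∪ exFreeE H c 1).image Prod.swap := by
    rintro ⟨x, y⟩ hp
    simp only [Finset.mem_filter, Finset.mem_univ, true_and] at hp
    obtain ⟨hadj, hcc⟩ := hp
    have hne : x ≠ y := hadj.ne
    rcases lt_or_gt_of_ne hne with hlt | hgt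
    · apply Finset.mem_union_left
      rw [Finset.mem_union, exFree_mem, exFree_mem]
      have : c x = 0 ∨ c x = 1 := by
        generalize c x = z
        fin_cases z <;> simp
      rcases this with h0 | h1
      · left; exact ⟨hadj, h0, hcc ▸ h0, hlt⟩
      · right; exact ⟨hadj, h1, hcc ▸ h1, hlt⟩
    · apply Finset.mem_union_right
      rw [Finset.mem_image]
      refine ⟨(y, x), ?_, rfl⟩
      rw [Finset.mem_union, exFree_mem, exFree_mem]
      have : c x = 0 ∨ c x = 1 := by
        generalize c x = z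
        fin_cases z <;> simp
      rcases this with h0 | h1
      · left; exact ⟨hadj.symm, hcc ▸ h0, h0, hgt⟩
      · right; exact ⟨hadj.symm, hcc ▸ h1, h1, hgt⟩
  have h1 : inn H c ≤ #((exFreeE H c 0 ∪ exFreeE H c 1) ∪
      (exFreeE H c 0 ∪ exFreeE H c 1).image Prod.swap) := by
    refine le_trans (le_of_eq ?_) (Finset.card_le_card hsub)
    unfold inn
    congr
  have h2 := Finset.card_union_le (exFreeE H c 0 ∪ exFreeE H c 1)
    ((exFreeE H c 0 ∪ exFreeE H c 1).image Prod.swap)
  have h3 : #((exFreeE H c 0 ∪ exFreeE H c 1).image Prod.swap) ≤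
    #(exFreeE H c 0 ∪ exFreeE H c 1) := Finset.card_image_le
  have h4 := Finset.card_union_le (exFreeE H c 0) (exFreeE H c 1)
  omega

theorem free_excess {h : ℕ} (H : SimpleGraph (Fin h)) (c : Fin h → Fin 2)
    (hfree : L24.Free (host H c)) : excess H c < 24 := by
  by_contra hge
  have h0 := exFree_card_le H c hfree 0
  have h1 := exFree_card_le H c hfree 1
  have hinn := exFree_inn_le H c
  have hex : excess H c = (inn H c : ℤ) - mis H c := rfl
  have hm : mis H c = 0 := by omega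
  have hE0 : #(exFreeE H c 0) = 6 := by omega
  have hE1 : #(exFreeE H c 1) = 6 := by omega
  have hE : ∀ i, 6 ≤ #(exFreeE H c i) := by
    intro i
    fin_cases i
    · exact hE0.ge
    · exact hE1.ge
  choose e he hmem using fun i => exFree_enum (exFreeE H c i) 6 (hE i)
  refine no_perfect H c hfree (fun i k => (e i k).1) (fun i k => (e i k).2) ?_ ?_ ?_ ?_ ?_ ?_
  · intro i k
    exact (exFree_mem.1 (hmem i k)).1
  · intro i k
    exact ⟨(exFree_mem.1 (hmem i k)).2.1, (exFree_mem.1 (hmem i k)).2.2.1⟩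
  · intro i a b hab
    exact he i (exFree_fst hfree (hmem i a) (hmem i b) hab)
  · intro i a b hab
    exact he i (exFree_snd hfree (hmem i a) (hmem i b) hab)
  · intro i k l
    exact exFree_ne hfree (hmem i k) (hmem i l)
  · intro x y hxy
    by_contra hadj
    unfold mis at hm
    rw [Finset.card_eq_zero] at hm
    have : (x, y) ∈ (∅ : Finset (Fin h × Fin h)) := by
      rw [← hm]
      simp only [Finset.mem_filter, Finset.mem_univ, true_and]
      exact ⟨hadj, hxy⟩
    exact absurd this (Finset.notMem_empty _)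

end Pool.Agent.Exo.Ex
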