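import Pool.Agent.Exo.Ex

/-!
# The maps of `L24` to two classes whose inner edges form small matchings
-/

open Finset Fintype Filter

namespace Pool.Agent.Exo.Ex

open SimpleGraph Pool.Agent.Helper49.Copies

/-- The candidate maps: one value for each complete bipartite block and one for the vertex 22. -/
def ExKeyCand (r z y w t : Fin 2) : Fin 24 → Fin 2 :=
  ![r, 1 - z, r, 1 - z, y, w, y, w, y, w, r, w, 1 - r, z, 1 - r, z, 1 - y, 1 - w, 1 - y, 1 - w, z,
    1 - y, t, z]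

/-- The list of vertices. -/
def ExKeyV : List (Fin 24) := List.finRange 24

/-- Inner edge. -/
def ExKeyI (g : Fin 24 → Fin 2) (a b : Fin 24) : Bool := adjB a b && (g a == g b)

/-- Some vertex is on two inner edges. -/
def ExKeyBad (g : Fin 24 → Fin 2) : Bool :=
  ExKeyV.any fun a => ExKeyV.any fun b => ExKeyI g a b && ExKeyV.any fun b' =>
    (b != b') && ExKeyI g a b'

/-- The number of vertices of class `i` on inner edges. -/
def ExKeyCnt (g : Fin 24 → Fin 2) (i : Fin 2) : ℕ :=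
  (ExKeyV.filter fun a => (g a == i) && ExKeyV.any fun b => ExKeyI g a b).length

/-- All vertices are on inner edges. -/
def ExKeyAll (g : Fin 24 → Fin 2) : Bool :=
  ExKeyV.all fun a => ExKeyV.any fun b => ExKeyI g a b

theorem ExKey_check : ∀ r z y w t : Fin 2, (ExKeyBad (ExKeyCand r z y w t) = true ∨
    ∃ i : Fin 2, 12 < ExKeyCnt (ExKeyCand r z y w t) i) ∨
    ExKeyAll (ExKeyCand r z y w t) = true := by
  decide +kernel

theorem ExKeyI_iff (g : Fin 24 → Fin 2) (a b : Fin 24) :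
    ExKeyI g a b = true ↔ L24.Adj a b ∧ g a = g b := by
  unfold ExKeyI
  rw [Bool.and_eq_true, beq_iff_eq]
  rfl

theorem ExKey_mem (a : Fin 24) : a ∈ ExKeyV := List.mem_finRange a

theorem ExKeyCnt_eq (g : Fin 24 → Fin 2) (i : Fin 2) :
    ExKeyCnt g i = #{a | g a = i ∧ ∃ b, L24.Adj a b ∧ g a = g b} := by
  unfold ExKeyCnt
  have hnd : (ExKeyV.filter fun a => (g a == i) && ExKeyV.any fun b => ExKeyI g a b).Nodup :=
    (List.nodup_finRange 24).filter _
  rw [← List.toFinset_card_of_nodup hnd]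
  congr 1
  ext a
  simp only [List.mem_toFinset, List.mem_filter, Bool.and_eq_true, beq_iff_eq, List.any_eq_true,
    ExKeyI_iff, ExKey_mem, true_and, Finset.mem_filter, Finset.mem_univ]

theorem ExKey_bits : ∀ x1 x2 x3 y1 y2 : Fin 2,
    ((¬ (x1 = y1 ∧ x1 = y2) ∧ ¬ (x2 = y1 ∧ x2 = y2) ∧ ¬ (x3 = y1 ∧ x3 = y2)) ∧
      (¬ (y1 = x1 ∧ y1 = x2) ∧ ¬ (y1 = x1 ∧ y1 = x3) ∧ ¬ (y1 = x2 ∧ y1 = x3)) ∧
      (¬ (y2 = x1 ∧ y2 = x2) ∧ ¬ (y2 = x1 ∧ y2 = x3) ∧ ¬ (y2 = x2 ∧ y2 = x3))) →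
    (x2 = x1 ∧ x3 = x1 ∧ y1 = 1 - x1 ∧ y2 = 1 - x1) := by
  have hx : ∀ x : Fin 2, x = 0 ∨ x = 1 := by decide
  have h01 : (0 : Fin 2) ≠ 1 := by decide
  have h10 : (1 : Fin 2) ≠ 0 := by decide
  have s0 : (1 : Fin 2) - 0 = 1 := by decide
  have s1 : (1 : Fin 2) - 1 = 0 := by decide
  intro x1 x2 x3 y1 y2 h
  rcases hx x1 with rfl | rfl <;> rcases hx x2 with rfl | rfl <;> rcases hx x3 with rfl | rfl <;>
    rcases hx y1 with rfl | rfl <;> rcases hx y2 with rfl | rfl <;>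
    simp only [h01, h10, s0, s1, not_true_eq_false, and_self, and_false, and_true,
      not_false_eq_true] at h ⊢

/-- In a complete bipartite block with sides of sizes at least 3 and 2, a map whose inner edges
form a matching is proper. -/
theorem ExKey_blk (g : Fin 24 → Fin 2)
    (h1 : ∀ a b b', L24.Adj a b → g a = g b → L24.Adj a b' → g a = g b' → b = b')
    (p1 p2 p3 q1 q2 : Fin 24) (hp12 : p1 ≠ p2) (hp13 : p1 ≠ p3) (hp23 : p2 ≠ p3) (hq : q1 ≠ q2)
    (a11 : L24.Adj p1 q1) (a12 : L24.Adj p1 q2) (a21 : L24.Adj p2 q1) (a22 : L24.Adj p2 q2)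
    (a31 : L24.Adj p3 q1) (a32 : L24.Adj p3 q2) :
    g p2 = g p1 ∧ g p3 = g p1 ∧ g q1 = 1 - g p1 ∧ g q2 = 1 - g p1 := by
  have e1 : ¬ (g p1 = g q1 ∧ g p1 = g q2) := fun h => hq (h1 p1 q1 q2 a11 h.1 a12 h.2)
  have e2 : ¬ (g p2 = g q1 ∧ g p2 = g q2) := fun h => hq (h1 p2 q1 q2 a21 h.1 a22 h.2)
  have e3 : ¬ (g p3 = g q1 ∧ g p3 = g q2) := fun h => hq (h1 p3 q1 q2 a31 h.1 a32 h.2)
  have f12 : ¬ (g q1 = g p1 ∧ g q1 = g p2) := fun h => hp12 (h1 q1 p1 p2 a11.symm h.1 a21.symm h.2)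
  have f13 : ¬ (g q1 = g p1 ∧ g q1 = g p3) := fun h => hp13 (h1 q1 p1 p3 a11.symm h.1 a31.symm h.2)
  have f23 : ¬ (g q1 = g p2 ∧ g q1 = g p3) := fun h => hp23 (h1 q1 p2 p3 a21.symm h.1 a31.symm h.2)
  have k12 : ¬ (g q2 = g p1 ∧ g q2 = g p2) := fun h => hp12 (h1 q2 p1 p2 a12.symm h.1 a22.symm h.2)
  have k13 : ¬ (g q2 = g p1 ∧ g q2 = g p3) := fun h => hp13 (h1 q2 p1 p3 a12.symm h.1 a32.symm h.2)
  have k23 : ¬ (g q2 = g p2 ∧ g q2 = g p3) := fun h => hp23 (h1 q2 p2 p3 a22.symm h.1 a32.symm h.2)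
  exact ExKey_bits (g p1) (g p2) (g p3) (g q1) (g q2)
    ⟨⟨e1, e2, e3⟩, ⟨f12, f13, f23⟩, ⟨k12, k13, k23⟩⟩

theorem ExKey_cand (g : Fin 24 → Fin 2)
    (h1 : ∀ a b b', L24.Adj a b → g a = g b → L24.Adj a b' → g a = g b' → b = b') :
    g = ExKeyCand (g 0) (g 13) (g 4) (g 5) (g 22) := by
  have hsub : ∀ x : Fin 2, 1 - (1 - x) = x := by decide
  have R := ExKey_blk g h1 0 2 10 12 14 (by decide) (by decide) (by decide) (by decide)
    (by decide) (by decide) (by decide) (by decide) (by decide) (by decide)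
  have Z := ExKey_blk g h1 13 15 20 1 3 (by decide) (by decide) (by decide) (by decide)
    (by decide) (by decide) (by decide) (by decide) (by decide) (by decide)
  have Z' := ExKey_blk g h1 13 15 23 1 3 (by decide) (by decide) (by decide) (by decide)
    (by decide) (by decide) (by decide) (by decide) (by decide) (by decide)
  have Y := ExKey_blk g h1 4 6 8 16 18 (by decide) (by decide) (by decide) (by decide)
    (by decide) (by decide) (by decide) (by decide) (by decide) (by decide)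
  have Y' := ExKey_blk g h1 4 6 8 16 21 (by decide) (by decide) (by decide) (by decide)
    (by decide) (by decide) (by decide) (by decide) (by decide) (by decide)
  have W := ExKey_blk g h1 5 7 9 17 19 (by decide) (by decide) (by decide) (by decide)
    (by decide) (by decide) (by decide) (by decide) (by decide) (by decide)
  have W' := ExKey_blk g h1 5 7 11 17 19 (by decide) (by decide) (by decide) (by decide)
    (by decide) (by decide) (by decide) (by decide) (by decide) (by decide)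
  funext a
  fin_cases a
  · rfl
  · exact Z.2.2.1
  · exact R.1
  · exact Z.2.2.2
  · rfl
  · rfl
  · exact Y.1
  · exact W.1
  · exact Y.2.1
  · exact W.2.1
  · exact R.2.1
  · exact W'.2.1
  · exact R.2.2.1
  · rfl
  · exact R.2.2.2
  · exact Z.1
  · exact Y.2.2.1
  · exact W.2.2.1
  · exact Y.2.2.2
  · exact W.2.2.2
  · exact Z.2.1
  · exact Y'.2.2.2
  · rfl
  · exact Z'.2.1

/-- If the edges inside the two classes form a matching and each class has at most 12 vertices on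
these edges, then all vertices are on these edges. -/
theorem key (g : Fin 24 → Fin 2)
    (h1 : ∀ a b b', L24.Adj a b → g a = g b → L24.Adj a b' → g a = g b' → b = b')
    (h2 : ∀ i, #{a | g a = i ∧ ∃ b, L24.Adj a b ∧ g a = g b} ≤ 12) :
    ∀ a, ∃ b, L24.Adj a b ∧ g a = g b := by
  have hc := ExKey_check (g 0) (g 13) (g 4) (g 5) (g 22)
  rw [← ExKey_cand g h1] at hc
  rcases hc with (hc | ⟨i, hi⟩) | hc
  · exfalso
    unfold ExKeyBad at hc
    rw [List.any_eq_true] at hc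
    obtain ⟨a, -, hc⟩ := hc
    rw [List.any_eq_true] at hc
    obtain ⟨b, -, hc⟩ := hc
    rw [Bool.and_eq_true, List.any_eq_true] at hc
    obtain ⟨hb, b', -, hb'⟩ := hc
    rw [Bool.and_eq_true, bne_iff_ne] at hb'
    rw [ExKeyI_iff] at hb
    rw [ExKeyI_iff] at hb'
    exact hb'.1 (h1 a b b' hb.1 hb.2 hb'.2.1 hb'.2.2)
  · exfalso
    have := h2 i
    rw [ExKeyCnt_eq] at hi
    omega
  · intro a
    unfold ExKeyAll at hc
    rw [List.all_eq_true] at hc
    have := hc a (ExKey_mem a)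
    rw [List.any_eq_true] at this
    obtain ⟨b, -, hb⟩ := this
    exact ⟨b, (ExKeyI_iff g a b).1 hb⟩

end Pool.Agent.Exo.Ex
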