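import Pool.Agent.Exo.ExKey

/-!
# The configuration `K_{12,12}` with two perfect matchings
-/

open Finset Fintype Filter

namespace Pool.Agent.Exo.Ex

open SimpleGraph Pool.Agent.Helper49.Copies

/-- `K_{12,12}` together with six disjoint edges `2k - (2k+1)` in each class. -/
def H0 : SimpleGraph (Fin 24) where
  Adj a b := gT a ≠ gT b ∨ (a ≠ b ∧ (a : ℕ) / 2 = (b : ℕ) / 2)
  symm := ⟨fun a b h => h.imp Ne.symm (fun h => ⟨h.1.symm, h.2.symm⟩)⟩
  loopless := ⟨fun a h => h.elim (fun h => h rfl) (fun h => h.1 rfl)⟩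

instance : DecidableRel H0.Adj := fun a b =>
  inferInstanceAs (Decidable (gT a ≠ gT b ∨ (a ≠ b ∧ (a : ℕ) / 2 = (b : ℕ) / 2)))

/-- The class of a vertex of the host. -/
def exOutCls : Fin 24 ⊕ (Fin 2 × ℕ) → Fin 2 := Sum.elim gT Prod.fst

/-- The old vertex given by a vertex of the host (or `0`). -/
def exOutOld : Fin 24 ⊕ (Fin 2 × ℕ) → Fin 24 := Sum.elim id (fun _ => 0)

theorem exOut_adj {x y : Fin 24 ⊕ (Fin 2 × ℕ)} (h : (host H0 gT).Adj x y)
    (hc : exOutCls x = exOutCls y) : ∃ a b : Fin 24, x = Sum.inl a ∧ y = Sum.inl b ∧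
      a ≠ b ∧ (a : ℕ) / 2 = (b : ℕ) / 2 := by
  rcases x with a | p <;> rcases y with b | q
  · have h' : gT a ≠ gT b ∨ (a ≠ b ∧ (a : ℕ) / 2 = (b : ℕ) / 2) := h
    rcases h' with h' | h'
    · exact absurd hc h'
    · exact ⟨a, b, rfl, rfl, h'.1, h'.2⟩
  · exact absurd hc (show gT a ≠ q.1 from h)
  · exact absurd hc (show p.1 ≠ gT b from h)
  · exact absurd hc (show p.1 ≠ q.1 from h)

theorem exOut_card : ∀ i : Fin 2, #{x : Fin 24 | gT x = i} = 12 := by decide +kernel

theorem H0_outFree : OutFree L24 H0 gT := by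
  intro f w
  have hadj : ∀ a b, L24.Adj a b → exOutCls (f a) = exOutCls (f b) →
      ∃ x y : Fin 24, f a = Sum.inl x ∧ f b = Sum.inl y ∧ x ≠ y ∧ (x : ℕ) / 2 = (y : ℕ) / 2 :=
    fun a b hab hc => exOut_adj (f.toHom.map_adj hab) hc
  have hkey := key (fun a => exOutCls (f a)) ?_ ?_
  · obtain ⟨b, hb, hc⟩ := hkey w
    obtain ⟨x, y, hx, -, -, -⟩ := hadj w b hb hc
    exact ⟨x, hx⟩
  · intro a b b' hab hc hab' hc'
    obtain ⟨x, y, hx, hy, hne, hd⟩ := hadj a b hab hc
    obtain ⟨x', y', hx', hy', hne', hd'⟩ := hadj a b' hab' hc'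
    have hxx : x = x' := Sum.inl_injective (hx.symm.trans hx')
    subst hxx
    have hyy : y = y' := by
      have h1 : (x : ℕ) ≠ (y : ℕ) := fun h => hne (Fin.ext h)
      have h2 : (x : ℕ) ≠ (y' : ℕ) := fun h => hne' (Fin.ext h)
      apply Fin.ext
      omega
    have he : f b = f b' := by rw [hy, hy', hyy]
    exact f.injective he
  · intro i
    rw [← exOut_card i]
    apply Finset.card_le_card_of_injOn (fun a => exOutOld (f a))
    · intro a ha
      simp only [Finset.coe_filter, Finset.mem_univ, true_and] at ha ⊢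
      obtain ⟨hi, b, hab, hc⟩ := ha
      obtain ⟨x, y, hx, -, -, -⟩ := hadj a b hab hc
      have hx' : exOutOld (f a) = x := by rw [hx]; rfl
      have hx'' : exOutCls (f a) = gT x := by rw [hx]; rfl
      change gT (exOutOld (f a)) = i
      rw [hx', ← hx'']
      exact hi
    · intro a ha a' ha' he
      simp only [Finset.coe_filter, Finset.mem_univ, true_and] at ha ha'
      obtain ⟨-, b, hab, hc⟩ := ha
      obtain ⟨-, b', hab', hc'⟩ := ha'
      obtain ⟨x, y, hx, -, -, -⟩ := hadj a b hab hc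
      obtain ⟨x', y', hx', -, -, -⟩ := hadj a' b' hab' hc'
      have h1 : exOutOld (f a) = x := by rw [hx]; rfl
      have h2 : exOutOld (f a') = x' := by rw [hx']; rfl
      have h3 : x = x' := by rw [← h1, ← h2]; exact he
      have he' : f a = f a' := by rw [hx, hx', h3]
      exact f.injective he'

theorem exOut_inn : #{p : Fin 24 × Fin 24 | H0.Adj p.1 p.2 ∧ gT p.1 = gT p.2} = 24 := by
  decide +kernel

theorem exOut_mis : #{p : Fin 24 × Fin 24 | ¬ H0.Adj p.1 p.2 ∧ gT p.1 ≠ gT p.2} = 0 := by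
  decide +kernel

theorem H0_excess : excess H0 gT = 24 := by
  have h1 : inn H0 gT = 24 := by
    refine Eq.trans ?_ exOut_inn
    unfold inn
    congr!
  have h2 : mis H0 gT = 0 := by
    refine Eq.trans ?_ exOut_mis
    unfold mis
    congr!
  unfold excess
  rw [h1, h2]
  norm_num

end Pool.Agent.Exo.Ex
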