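import Pool.Agent.Exo.Main
import Pool.Agent.Exo.ExConn
import Pool.Agent.Exo.ExOut
import Pool.Agent.Exo.ExFree

/-!
# A connected graph with a cycle and bounded `A(n; L)`
-/

open Finset Fintype Filter

namespace Pool.Agent.Exo.Ex

open SimpleGraph Pool.Agent.Helper49.Copies

theorem L24_gap : Gap L24 2 :=
  ⟨24, H0, gT, H0_outFree, fun _ H' c' h => by rw [H0_excess]; exact free_excess H' c' h⟩

theorem L24_bounded : ∃ C, ∀ n, minCopies n L24 ≤ C :=
  bounded_of_gap L24 2 le_rfl L24_not_two starType matchType L24_gap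

end Pool.Agent.Exo.Ex
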