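import Pool.Agent.Exo.Defs

/-!
# The configuration of a partitioned graph
-/

open Finset Fintype Filter

namespace Pool.Agent.Exo

open SimpleGraph Pool.Agent.Helper49.Copies

/-- A finset of at least `card W` elements receives an injection of `W`. -/
theorem ext_inj {W V : Type} [Fintype W] (T : Finset V) (hT : Fintype.card W ≤ #T) :
    ∃ φ : W → V, Function.Injective φ ∧ ∀ w, φ w ∈ T := by
  have h : Fintype.card W ≤ Fintype.card T := by simpa using hT
  obtain ⟨e⟩ := Function.Embedding.nonempty_of_card_le h
  exact ⟨fun w => (e w : V), fun a b hab => e.injective (Subtype.ext hab), fun w => (e w).2⟩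

theorem extract {W : Type} [Fintype W] (L : SimpleGraph W) {n r : ℕ} (G : SimpleGraph (Fin n))
    (j : Fin n → Fin r) (D : Finset (Fin n))
    (hcl : ∀ i, inn G j + mis G j + #D + card W ≤ #(cls j i)) :
    ∃ h ≤ inn G j + mis G j, ∃ (H : SimpleGraph (Fin h)) (c : Fin h → Fin r),
      inn H c = inn G j ∧ mis H c = mis G j ∧
      ∀ f : Copy L (host H c), ∃ g : Copy L G, ∀ w, (∀ a, f w ≠ Sum.inl a) → g w ∉ D := by
  classical
  set A : Finset (Fin n × Fin n) :=
    univ.filter (fun p : Fin n × Fin n => G.Adj p.1 p.2 ∧ j p.1 = j p.2) with hA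
  set B : Finset (Fin n × Fin n) :=
    univ.filter (fun p : Fin n × Fin n => ¬ G.Adj p.1 p.2 ∧ j p.1 ≠ j p.2) with hB
  have hAc : inn G j = #A := by
    unfold inn; congr 1
  have hBc : mis G j = #B := by
    unfold mis; congr 1
  set S : Finset (Fin n) := (A ∪ B).image Prod.fst with hS
  have hSc : #S ≤ inn G j + mis G j := by
    rw [hAc, hBc]
    exact card_image_le.trans (card_union_le _ _)
  have memS1 : ∀ x y, G.Adj x y → j x = j y → x ∈ S := by
    intro x y h1 h2
    exact mem_image.2 ⟨(x, y), mem_union_left _ (by simp [hA, h1, h2]), rfl⟩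
  have memS2 : ∀ x y, ¬ G.Adj x y → j x ≠ j y → x ∈ S := by
    intro x y h1 h2
    exact mem_image.2 ⟨(x, y), mem_union_right _ (by simp [hB, h1, h2]), rfl⟩
  let e : Fin (#S) ≃ S := S.equivFin.symm
  refine ⟨#S, hSc, G.comap (fun a => (e a : Fin n)), fun a => j (e a), ?_, ?_, ?_⟩
  · rw [hAc]
    unfold inn
    refine card_bij (fun p _ => ((e p.1 : Fin n), (e p.2 : Fin n))) ?_ ?_ ?_
    · intro p hp
      simp only [mem_filter, mem_univ, true_and, comap_adj] at hp
      simp only [hA, mem_filter, mem_univ, true_and]
      exact hp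
    · intro p _ q _ h
      simp only [Prod.mk.injEq] at h
      exact Prod.ext (e.injective (Subtype.ext h.1)) (e.injective (Subtype.ext h.2))
    · rintro ⟨x, y⟩ hp
      simp only [hA, mem_filter, mem_univ, true_and] at hp
      refine ⟨(e.symm ⟨x, memS1 x y hp.1 hp.2⟩, e.symm ⟨y, memS1 y x hp.1.symm hp.2.symm⟩), ?_, ?_⟩
      · simp only [mem_filter, mem_univ, true_and, comap_adj, Equiv.apply_symm_apply]
        exact hp
      · simp
  · rw [hBc]
    unfold mis
    refine card_bij (fun p _ => ((e p.1 : Fin n), (e p.2 : Fin n))) ?_ ?_ ?_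
    · intro p hp
      simp only [mem_filter, mem_univ, true_and, comap_adj] at hp
      simp only [hB, mem_filter, mem_univ, true_and]
      exact hp
    · intro p _ q _ h
      simp only [Prod.mk.injEq] at h
      exact Prod.ext (e.injective (Subtype.ext h.1)) (e.injective (Subtype.ext h.2))
    · rintro ⟨x, y⟩ hp
      simp only [hB, mem_filter, mem_univ, true_and] at hp
      refine ⟨(e.symm ⟨x, memS2 x y hp.1 hp.2⟩,
        e.symm ⟨y, memS2 y x (fun h => hp.1 h.symm) hp.2.symm⟩), ?_, ?_⟩
      · simp only [mem_filter, mem_univ, true_and, comap_adj, Equiv.apply_symm_apply]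
        exact hp
      · simp
  · intro f
    have hcard : ∀ i, card W ≤ #(cls j i \ (S ∪ D)) := by
      intro i
      have h1 := hcl i
      have h2 : #(S ∪ D) ≤ #S + #D := card_union_le _ _
      have h3 := le_card_sdiff (S ∪ D) (cls j i)
      omega
    choose φ hφi hφm using fun i => ext_inj (W := W) (cls j i \ (S ∪ D)) (hcard i)
    have hφj : ∀ i w, j (φ i w) = i := by
      intro i w
      have := hφm i w
      simp only [Finset.mem_sdiff, cls, mem_filter, mem_univ, true_and] at this
      exact this.1
    have hφS : ∀ i w, φ i w ∉ S := by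
      intro i w h
      exact (Finset.mem_sdiff.1 (hφm i w)).2 (mem_union_left _ h)
    have hφD : ∀ i w, φ i w ∉ D := by
      intro i w h
      exact (Finset.mem_sdiff.1 (hφm i w)).2 (mem_union_right _ h)
    let ψ : W → Fin (#S) ⊕ (Fin r × ℕ) → Fin n := fun w s =>
      match s with
      | Sum.inl a => (e a : Fin n)
      | Sum.inr p => φ p.1 w
    have hadj : ∀ w w' s s', (host (G.comap (fun a => (e a : Fin n))) (fun a => j (e a))).Adj s s' →
        G.Adj (ψ w s) (ψ w' s') := by
      intro w w' s s' h
      rcases s with a | p <;> rcases s' with b | q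
      · exact h
      · change j (e a) ≠ q.1 at h
        change G.Adj (e a) (φ q.1 w')
        by_contra hn
        exact hφS q.1 w' (memS2 _ (e a : Fin n) (fun h' => hn h'.symm) (by rw [hφj]; exact h.symm))
      · change p.1 ≠ j (e b) at h
        change G.Adj (φ p.1 w) (e b)
        by_contra hn
        exact hφS p.1 w (memS2 _ (e b : Fin n) hn (by rw [hφj]; exact h))
      · change p.1 ≠ q.1 at h
        change G.Adj (φ p.1 w) (φ q.1 w')
        by_contra hn
        exact hφS p.1 w (memS2 _ (φ q.1 w') hn (by rw [hφj, hφj]; exact h))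
    have hinj : ∀ w w', ψ w (f w) = ψ w' (f w') → w = w' := by
      intro w w' h
      rcases hw : f w with a | p <;> rcases hw' : f w' with b | q <;> rw [hw, hw'] at h
      · apply f.injective
        change ((e a : Fin n)) = (e b : Fin n) at h
        have : a = b := e.injective (Subtype.ext h)
        change f w = f w'
        rw [hw, hw', this]
      · exfalso
        change ((e a : Fin n)) = φ q.1 w' at h
        exact hφS q.1 w' (h ▸ (e a).2)
      · exfalso
        change φ p.1 w = (e b : Fin n) at h
        exact hφS p.1 w (h.symm ▸ (e b).2)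
      · change φ p.1 w = φ q.1 w' at h
        have h1 : p.1 = q.1 := by
          have := congrArg j h
          rwa [hφj, hφj] at this
        rw [← h1] at h
        exact hφi p.1 h
    refine ⟨⟨⟨fun w => ψ w (f w), fun {a b} hab => hadj a b _ _ (f.toHom.map_rel hab)⟩,
      fun a b h => hinj a b h⟩, ?_⟩
    intro w hw
    rcases hfw : f w with a | p
    · exact absurd hfw (hw a)
    · change ψ w (f w) ∉ D
      rw [hfw]
      exact hφD p.1 w

end Pool.Agent.Exo
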