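import Pool.Agent.Exo.Defs

/-!
# Bounded degree and no large matching imply few edges
-/

open Finset Fintype Filter

namespace Pool.Agent.Exo

open SimpleGraph Pool.Agent.Helper49.Copies

/-- A matching of size `k` inside `S`. -/
private def FewMatch {V : Type} (G : SimpleGraph V) (S : Finset V) (k : ℕ) : Prop :=
  ∃ p q : Fin k → V, (∀ i, p i ∈ S ∧ q i ∈ S ∧ G.Adj (p i) (q i)) ∧
    Function.Injective p ∧ Function.Injective q ∧ ∀ i l, p i ≠ q l

theorem few_sum_comm {V : Type} (G : SimpleGraph V) (S T : Finset V) :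
    ∑ x ∈ S, dg G T x = ∑ y ∈ T, dg G S y := by
  classical
  unfold dg
  simp only [card_filter]
  rw [sum_comm]
  refine sum_congr rfl fun y _ => sum_congr rfl fun x _ => ?_
  by_cases h : G.Adj x y
  · rw [if_pos h, if_pos h.symm]
  · rw [if_neg h, if_neg fun h' => h h'.symm]

theorem few_inner {V : Type} [DecidableEq V] (G : SimpleGraph V) (S : Finset V) (m : ℕ)
    (hdeg : ∀ x ∈ S, dg G S x ≤ m)
    (hmat : ¬ ∃ p q : Fin m → V, (∀ k, p k ∈ S ∧ q k ∈ S ∧ G.Adj (p k) (q k)) ∧
      Function.Injective p ∧ Function.Injective q ∧ ∀ k l, p k ≠ q l) :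
    ∑ x ∈ S, dg G S x ≤ 4 * m * m := by
  classical
  have h0 : FewMatch G S 0 :=
    ⟨Fin.elim0, Fin.elim0, fun i => i.elim0, fun i => i.elim0, fun i => i.elim0,
      fun i => i.elim0⟩
  have hm : ¬ FewMatch G S m := hmat
  -- the largest matching
  obtain ⟨k, hk, hk1, hkm⟩ : ∃ k, FewMatch G S k ∧ ¬ FewMatch G S (k + 1) ∧ k < m := by
    by_contra hcon
    push Not at hcon
    have : ∀ k, k ≤ m → FewMatch G S k := by
      intro k
      induction k with
      | zero => intro _; exact h0
      | succ k ih =>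
        intro hk
        by_contra hno
        have := hcon k (ih (by omega)) hno
        omega
    exact hm (this m le_rfl)
  obtain ⟨p, q, hpq, hp, hq, hne⟩ := hk
  set Y : Finset V := univ.image p ∪ univ.image q with hY
  have hYS : Y ⊆ S := by
    intro x hx
    rw [hY, mem_union, mem_image, mem_image] at hx
    rcases hx with ⟨i, -, rfl⟩ | ⟨i, -, rfl⟩
    · exact (hpq i).1
    · exact (hpq i).2.1
  have hYc : #Y ≤ 2 * k := by
    calc #Y ≤ #(univ.image p) + #(univ.image q) := card_union_le _ _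
      _ ≤ k + k := by
        refine Nat.add_le_add ?_ ?_
        · exact card_image_le.trans (by simp)
        · exact card_image_le.trans (by simp)
      _ = 2 * k := by ring
  have hcov : ∀ x ∈ S, ∀ y ∈ S, G.Adj x y → x ∈ Y ∨ y ∈ Y := by
    intro x hx y hy hxy
    by_contra hcon
    push Not at hcon
    obtain ⟨hxY, hyY⟩ := hcon
    have hxp : ∀ i, p i ≠ x := fun i h => hxY (by
      rw [hY, mem_union]; left; exact mem_image.2 ⟨i, mem_univ _, h⟩)
    have hxq : ∀ i, q i ≠ x := fun i h => hxY (by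
      rw [hY, mem_union]; right; exact mem_image.2 ⟨i, mem_univ _, h⟩)
    have hyp : ∀ i, p i ≠ y := fun i h => hyY (by
      rw [hY, mem_union]; left; exact mem_image.2 ⟨i, mem_univ _, h⟩)
    have hyq : ∀ i, q i ≠ y := fun i h => hyY (by
      rw [hY, mem_union]; right; exact mem_image.2 ⟨i, mem_univ _, h⟩)
    refine hk1 ⟨Fin.cons x p, Fin.cons y q, ?_, ?_, ?_, ?_⟩
    · intro i
      refine Fin.cases ?_ (fun i => ?_) i
      · exact ⟨hx, hy, hxy⟩
      · simpa using hpq i
    · rw [Fin.cons_injective_iff]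
      refine ⟨?_, hp⟩
      rintro ⟨i, hi⟩
      exact hxp i hi
    · rw [Fin.cons_injective_iff]
      refine ⟨?_, hq⟩
      rintro ⟨i, hi⟩
      exact hyq i hi
    · intro i l
      refine Fin.cases ?_ (fun i => ?_) i
      · refine Fin.cases ?_ (fun l => ?_) l
        · simpa using hxy.ne
        · simpa using (hxq l).symm
      · refine Fin.cases ?_ (fun l => ?_) l
        · simpa using hyp i
        · simpa using hne i l
  have hx : ∀ x ∈ S, dg G S x ≤ (if x ∈ Y then m else 0) + dg G Y x := by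
    intro x hx
    by_cases hxY : x ∈ Y
    · rw [if_pos hxY]
      exact (hdeg x hx).trans (Nat.le_add_right _ _)
    · rw [if_neg hxY, zero_add]
      unfold dg
      refine card_le_card ?_
      intro y hy
      rw [mem_filter] at hy ⊢
      refine ⟨?_, hy.2⟩
      rcases hcov x hx y hy.1 hy.2 with h | h
      · exact absurd h hxY
      · exact h
  have h1 : ∑ x ∈ S, (if x ∈ Y then m else 0) ≤ #Y * m := by
    rw [← sum_filter, sum_const, smul_eq_mul]
    refine Nat.mul_le_mul_right _ (card_le_card ?_)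
    intro x hx
    exact (mem_filter.1 hx).2
  have h2 : ∑ x ∈ S, dg G Y x ≤ #Y * m := by
    rw [few_sum_comm]
    calc ∑ y ∈ Y, dg G S y ≤ ∑ _y ∈ Y, m := sum_le_sum fun y hy => hdeg y (hYS hy)
      _ = #Y * m := by rw [sum_const, smul_eq_mul]
  calc ∑ x ∈ S, dg G S x ≤ ∑ x ∈ S, ((if x ∈ Y then m else 0) + dg G Y x) := sum_le_sum hx
    _ = ∑ x ∈ S, (if x ∈ Y then m else 0) + ∑ x ∈ S, dg G Y x := sum_add_distrib
    _ ≤ #Y * m + #Y * m := Nat.add_le_add h1 h2
    _ ≤ 2 * m * m + 2 * m * m := by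
      have : #Y * m ≤ 2 * m * m := Nat.mul_le_mul_right _ (by omega)
      exact Nat.add_le_add this this
    _ = 4 * m * m := by ring

/-- `inn` as a sum over the classes. -/
theorem inn_eq {V : Type} [Fintype V] {r : ℕ} (G : SimpleGraph V) (j : V → Fin r) :
    inn G j = ∑ i, ∑ x ∈ cls j i, dg G (cls j i) x := by
  classical
  have h1 : inn G j = ∑ x : V, dg G (cls j (j x)) x := by
    unfold inn
    rw [card_filter, ← univ_product_univ, sum_product]
    refine sum_congr rfl fun x _ => ?_
    unfold dg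
    rw [← card_filter]
    congr 1
    ext y
    simp only [cls, mem_filter, mem_univ, true_and]
    constructor
    · rintro ⟨h, h'⟩
      exact ⟨h'.symm, h⟩
    · rintro ⟨h, h'⟩
      exact ⟨h', h.symm⟩
  rw [h1, ← sum_fiberwise univ j (fun x => dg G (cls j (j x)) x)]
  refine sum_congr rfl fun i _ => ?_
  unfold cls
  refine sum_congr rfl fun x hx => ?_
  rw [(mem_filter.1 hx).2]

end Pool.Agent.Exo
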