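import Pool.Agent.Exo.Main

/-!
# Connected graphs of every chromatic number with bounded `A(n; L)`: the inductive property
-/

open Finset Fintype Filter

namespace Pool.Agent.Exo.Gen

open SimpleGraph Pool.Agent.Helper49.Copies

/-- The edges inside the classes of `g` form a matching. -/
def Mat {W κ : Type} (L : SimpleGraph W) (g : W → κ) : Prop :=
  ∀ a b b', L.Adj a b → g a = g b → L.Adj a b' → g a = g b' → b = b'

open Classical in
/-- In each class at most 12 vertices lie on edges inside the class. -/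
def Small {W κ : Type} [Fintype W] (L : SimpleGraph W) (g : W → κ) : Prop :=
  ∀ i, #{a | g a = i ∧ ∃ b, L.Adj a b ∧ g a = g b} ≤ 12

/-- Star map: the edges inside the classes are `v y` and `v z`; the class `i` misses `S`. -/
def HasStar {W : Type} (L : SimpleGraph W) (r : ℕ) (S : Finset W) : Prop :=
  ∃ (v y z : W) (g : W → Fin r) (i : Fin r), y ≠ v ∧ z ≠ v ∧ y ≠ z ∧ g y = g v ∧ g z = g v ∧
    (∀ a b, L.Adj a b → a ≠ v → b ≠ v → g a ≠ g b) ∧
    (∀ b, L.Adj v b → g b = g v → b = y ∨ b = z) ∧ ∀ s ∈ S, g s ≠ i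

open Classical in
/-- Matching map: the edges inside the classes are at most seven disjoint edges, all in one class;
the class `i` misses `S`. -/
def HasMatch {W : Type} [Fintype W] (L : SimpleGraph W) (r : ℕ) (S : Finset W) : Prop :=
  ∃ (g : W → Fin r) (i₀ i : Fin r), Mat L g ∧ (∀ a b, L.Adj a b → g a = g b → g a = i₀) ∧
    #{a | ∃ b, L.Adj a b ∧ g a = g b} ≤ 14 ∧ ∀ s ∈ S, g s ≠ i

/-- The inductive property. -/
structure Good {W : Type} [Fintype W] (L : SimpleGraph W) (r : ℕ) (S : Finset W) : Prop where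
  conn : L.Connected
  star : HasStar L r S
  mat : HasMatch L r S
  perf : ∃ g : W → Fin r, Mat L g ∧ Small L g
  uniq : ∀ g : W → Fin r, Mat L g → Small L g →
    (∀ a, ∃ b, L.Adj a b ∧ g a = g b) ∧ ∀ i, ∃ s ∈ S, g s = i
  phi : ∀ (K : Finset ℕ) (U : Finset W) (g : W → ℕ), (∀ a, a ∉ U → g a ∈ K) →
    (∀ a b b', a ∉ U → b ∉ U → b' ∉ U → L.Adj a b → g a = g b → L.Adj a b' → g a = g b' →
      b = b') → 2 * r ≤ #U + 2 * #K

theorem Good.not_colorable {W : Type} [Fintype W] {L : SimpleGraph W} {r : ℕ} {S : Finset W}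
    (h : Good L r S) : ¬ L.Colorable r := by
  rintro ⟨C⟩
  obtain ⟨w⟩ := h.conn.nonempty
  have h1 : ∀ a b, L.Adj a b → C a ≠ C b := fun a b hab => C.valid hab
  have h2 : Small L (fun a => C a) := by
    intro i
    refine le_trans (le_of_eq ?_) (Nat.zero_le 12)
    apply Finset.card_eq_zero.mpr
    ext a
    simp only [mem_filter, Finset.mem_univ, true_and, Finset.notMem_empty, iff_false]
    rintro ⟨-, b, hab, hg⟩
    exact h1 a b hab hg
  obtain ⟨b, hb, hgb⟩ := (h.uniq (fun a => C a) (fun a b b' hab hg => absurd hg (h1 a b hab))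
    h2).1 w
  exact h1 w b hb hgb

theorem Good.starType {W : Type} [Fintype W] {L : SimpleGraph W} {r : ℕ} {S : Finset W}
    (h : Good L r S) : StarType L r := by
  obtain ⟨v, y, z, g, i, -, -, -, -, -, h1, -⟩ := h.star
  exact ⟨v, g, h1⟩

theorem Good.matchType {W : Type} [Fintype W] {L : SimpleGraph W} {r : ℕ} {S : Finset W}
    (h : Good L r S) : MatchType L r := by
  obtain ⟨g, i₀, i, h1, h2, -⟩ := h.mat
  exact ⟨i₀, g, fun a b hab hg => ⟨h2 a b hab hg, fun b' hab' hg' => h1 a b' b hab' hg' hab hg⟩⟩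

theorem Good.colorable {W : Type} [Fintype W] {L : SimpleGraph W} {r : ℕ} {S : Finset W}
    (h : Good L r S) : L.Colorable (r + 1) := by
  classical
  obtain ⟨v, y, z, g, i, -, -, -, -, -, h1, -⟩ := h.star
  refine ⟨Coloring.mk (fun w => if w = v then Fin.last r else (g w).castSucc) ?_⟩
  intro a b hab h2
  by_cases ha : a = v
  · have hb : b ≠ v := fun hb => hab.ne (ha.trans hb.symm)
    rw [if_pos ha, if_neg hb] at h2
    exact absurd h2.symm (Fin.castSucc_lt_last _).ne
  · by_cases hb : b = v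
    · rw [if_neg ha, if_pos hb] at h2
      exact absurd h2 (Fin.castSucc_lt_last _).ne
    · rw [if_neg ha, if_neg hb] at h2
      exact h1 a b hab ha hb (Fin.castSucc_injective _ h2)

end Pool.Agent.Exo.Gen
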