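import Pool.Agent.Exo.Gen
import Pool.Agent.Exo.ExConn
import Pool.Agent.Exo.ExKey

/-!
# The base case `L24`
-/

open Finset Fintype Filter

namespace Pool.Agent.Exo.Gen

open SimpleGraph Pool.Agent.Helper49.Copies Pool.Agent.Exo.Ex

private theorem gnBase_star1 : ∀ b : Fin 24, L24.Adj 22 b → gs b = gs 22 → b = 5 ∨ b = 7 := by
  decide +kernel

private theorem gnBase_matT : ∀ a b b' : Fin 24, L24.Adj a b → gT a = gT b → L24.Adj a b' →
    gT a = gT b' → b = b' := by
  decide +kernel

private theorem gnBase_phi : ∀ u : Fin 24, ∃ a b b' : Fin 24, a ≠ u ∧ b ≠ u ∧ b' ≠ u ∧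
    L24.Adj a b ∧ L24.Adj a b' ∧ b ≠ b' := by
  decide +kernel

private theorem gnBase_cls : ∀ i : Fin 2, #{a : Fin 24 | gT a = i} ≤ 12 := by
  decide +kernel

/-- Number of inner vertices of the matching map. -/
private theorem gnBase_gm : #{a : Fin 24 | ∃ b, L24.Adj a b ∧ gm a = gm b} ≤ 14 := by
  decide +kernel

private theorem gnBase_gsS : ∀ s : Fin 24, s = 0 ∨ s = 13 → gs s ≠ 0 := by
  decide +kernel

private theorem gnBase_gmS : ∀ s : Fin 24, s = 0 ∨ s = 13 → gm s ≠ 1 := by
  decide +kernel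

private theorem gnBase_ne : ∀ r y w t : Fin 2,
    ExKeyBad (ExKeyCand r r y w t) = true ∨
      ∃ i : Fin 2, 12 < ExKeyCnt (ExKeyCand r r y w t) i := by
  decide +kernel

private theorem gnBase_zero_ne (g : Fin 24 → Fin 2)
    (h1 : ∀ a b b', L24.Adj a b → g a = g b → L24.Adj a b' → g a = g b' → b = b')
    (h2 : ∀ i, #{a | g a = i ∧ ∃ b, L24.Adj a b ∧ g a = g b} ≤ 12) : g 0 ≠ g 13 := by
  intro h0
  have hc := gnBase_ne (g 13) (g 4) (g 5) (g 22)
  have hg := ExKey_cand g h1
  rw [h0] at hg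
  rw [← hg] at hc
  rcases hc with hc | ⟨i, hi⟩
  · unfold ExKeyBad at hc
    rw [List.any_eq_true] at hc
    obtain ⟨a, -, hc⟩ := hc
    rw [List.any_eq_true] at hc
    obtain ⟨b, -, hc⟩ := hc
    rw [Bool.and_eq_true, List.any_eq_true] at hc
    obtain ⟨hb, b', -, hb'⟩ := hc
    rw [Bool.and_eq_true, bne_iff_ne] at hb'
    rw [ExKeyI_iff] at hb
    rw [ExKeyI_iff] at hb'
    exact hb'.1 (h1 a b b' hb.1 hb.2 hb'.2.1 hb'.2.2)
  · have := h2 i
    rw [ExKeyCnt_eq] at hi
    omega

theorem L24_good : Good L24 2 {0, 13} := by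
  refine ⟨L24_connected, ?_, ?_, ?_, ?_, ?_⟩
  · refine ⟨22, 5, 7, gs, 0, by decide, by decide, by decide, by decide, by decide, gs_spec,
      gnBase_star1, ?_⟩
    intro s hs
    rw [Finset.mem_insert, Finset.mem_singleton] at hs
    exact gnBase_gsS s hs
  · refine ⟨gm, 0, 1, ?_, ?_, ?_, ?_⟩
    · intro a b b' h1 h2 h3 h4
      exact ((gm_spec a b h1 h2).2 b' h3 h4).symm
    · intro a b h1 h2
      exact (gm_spec a b h1 h2).1
    · refine le_trans (le_of_eq ?_) gnBase_gm
      congr 1
      ext a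
      simp only [Finset.mem_filter, Finset.mem_univ, true_and]
    · intro s hs
      rw [Finset.mem_insert, Finset.mem_singleton] at hs
      exact gnBase_gmS s hs
  · refine ⟨gT, gnBase_matT, ?_⟩
    intro i
    refine le_trans (Finset.card_le_card ?_) (gnBase_cls i)
    intro a ha
    simp only [Finset.mem_filter, Finset.mem_univ, true_and] at ha ⊢
    exact ha.1
  · intro g h1 h2
    have h2' : ∀ i, #{a | g a = i ∧ ∃ b, L24.Adj a b ∧ g a = g b} ≤ 12 := by
      intro i
      refine le_trans (le_of_eq ?_) (h2 i)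
      congr 1
      ext a
      simp only [Finset.mem_filter, Finset.mem_univ, true_and]
    refine ⟨key g h1 h2', ?_⟩
    have hne := gnBase_zero_ne g h1 h2'
    have hbit : ∀ x y i : Fin 2, x ≠ y → x = i ∨ y = i := by decide
    intro i
    rcases hbit _ _ i hne with h | h
    · exact ⟨0, by simp, h⟩
    · exact ⟨13, by simp, h⟩
  · intro K U g hK hM
    by_cases hK2 : 2 ≤ #K
    · omega
    by_cases hU : 4 ≤ #U
    · omega
    have hK0 : #K ≠ 0 := by
      intro h0
      rw [Finset.card_eq_zero] at h0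
      have hall : U = Finset.univ := by
        ext a
        simp only [Finset.mem_univ, iff_true]
        by_contra ha
        have := hK a ha
        rw [h0] at this
        exact absurd this (Finset.notMem_empty _)
      rw [hall, Finset.card_univ, Fintype.card_fin] at hU
      omega
    have hK1 : #K = 1 := by omega
    by_cases hU2 : 2 ≤ #U
    · omega
    exfalso
    obtain ⟨k, hk⟩ := Finset.card_eq_one.1 hK1
    have hcol : ∀ a, a ∉ U → g a = k := by
      intro a ha
      have := hK a ha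
      rwa [hk, Finset.mem_singleton] at this
    obtain ⟨u, hu⟩ : ∃ u : Fin 24, ∀ a ∈ U, a = u := by
      rcases Nat.lt_or_ge 0 #U with h | h
      · have h1 : #U = 1 := by omega
        obtain ⟨u, hu⟩ := Finset.card_eq_one.1 h1
        exact ⟨u, fun a ha => by rwa [hu, Finset.mem_singleton] at ha⟩
      · have h1 : U = ∅ := Finset.card_eq_zero.1 (by omega)
        exact ⟨0, fun a ha => by rw [h1] at ha; exact absurd ha (Finset.notMem_empty _)⟩
    obtain ⟨a, b, b', h1, h2, h3, h4, h5, h6⟩ := gnBase_phi u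
    have ha : a ∉ U := fun h => h1 (hu a h)
    have hb : b ∉ U := fun h => h2 (hu b h)
    have hb' : b' ∉ U := fun h => h3 (hu b' h)
    exact h6 (hM a b b' ha hb hb' h4 (by rw [hcol a ha, hcol b hb]) h5
      (by rw [hcol a ha, hcol b' hb']))

end Pool.Agent.Exo.Gen
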