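import Pool.Agent.Exo.GenStep

/-!
# The inductive step: colours of the new vertices
-/

open Finset Fintype Filter

namespace Pool.Agent.Exo.Gen

open SimpleGraph Pool.Agent.Helper49.Copies

/-- The colours of the new vertices `C i`. -/
theorem stp_colours {W : Type} [Fintype W] (L : SimpleGraph W) (r : ℕ) (S : Finset W)
    (hphi : ∀ (K : Finset ℕ) (U : Finset W) (g : W → ℕ), (∀ a, a ∉ U → g a ∈ K) →
      (∀ a b b', a ∉ U → b ∉ U → b' ∉ U → L.Adj a b → g a = g b → L.Adj a b' → g a = g b' →
        b = b') → 2 * r ≤ #U + 2 * #K)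
    (g : W ⊕ (Fin 3 ⊕ Fin 3) → Fin (r + 1)) (hg : Mat (stp L S) g) :
    ∃ t, (∀ i, g (Sum.inr (Sum.inl i)) = t) ∧ ∀ w, g (Sum.inl w) ≠ t := by
  classical
  set C : Fin 3 → W ⊕ (Fin 3 ⊕ Fin 3) := fun i => Sum.inr (Sum.inl i) with hC
  have hCW : ∀ i w, (stp L S).Adj (C i) (Sum.inl w) := fun i w => trivial
  have hWC : ∀ i w, (stp L S).Adj (Sum.inl w) (C i) := fun i w => trivial
  have hCinj : Function.Injective C := fun i j h => by simpa [hC] using h
  -- at most one vertex of `W` of a colour of some `C i`
  have h1 : ∀ i w w', g (Sum.inl w) = g (C i) → g (Sum.inl w') = g (C i) → w = w' := by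
    intro i w w' h h'
    have := hg (C i) (Sum.inl w) (Sum.inl w') (hCW i w) h.symm (hCW i w') h'.symm
    simpa using this
  -- at most one `C i` of a colour of some vertex of `W`
  have h2 : ∀ w i j, g (Sum.inl w) = g (C i) → g (Sum.inl w) = g (C j) → i = j := by
    intro w i j h h'
    exact hCinj (hg (Sum.inl w) (C i) (C j) (hWC i w) h (hWC j w) h')
  set T : Finset (Fin (r + 1)) := univ.image (fun i => g (C i)) with hT
  set U : Finset W := {w | g (Sum.inl w) ∈ T} with hU
  have hmemT : ∀ t, t ∈ T ↔ ∃ i, g (C i) = t := by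
    intro t
    rw [hT, mem_image]
    simp
  have hTr : #T ≤ r + 1 := by
    have := card_le_univ T
    rwa [Fintype.card_fin] at this
  -- the colours of `U`
  have hUT : #U ≤ #T := by
    refine card_le_card_of_injOn (fun w => g (Sum.inl w)) ?_ ?_
    · intro w hw
      have hw' : w ∈ U := hw
      rw [hU, mem_filter] at hw'
      exact hw'.2
    · intro w hw w' hw' hww
      have hw1 : w ∈ U := hw
      rw [hU, mem_filter] at hw1
      obtain ⟨i, hi⟩ := (hmemT _).1 hw1.2
      exact h1 i w w' hi.symm
        ((show g (Sum.inl w') = g (Sum.inl w) from hww.symm).trans hi.symm)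
  have hphi1 := hphi (Tᶜ.image (fun t : Fin (r + 1) => (t : ℕ))) U (fun w => (g (Sum.inl w) : ℕ))
    (by
      intro a ha
      rw [mem_image]
      refine ⟨g (Sum.inl a), ?_, rfl⟩
      rw [Finset.mem_compl]
      intro hcon
      apply ha
      rw [hU, mem_filter]
      exact ⟨mem_univ _, hcon⟩)
    (by
      intro a b b' _ _ _ hab hgab hab' hgab'
      have := hg (Sum.inl a) (Sum.inl b) (Sum.inl b') hab (Fin.ext hgab) hab' (Fin.ext hgab')
      simpa using this)
  have hcard : #(Tᶜ.image (fun t : Fin (r + 1) => (t : ℕ))) = r + 1 - #T := by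
    rw [card_image_of_injective _ Fin.val_injective, card_compl, Fintype.card_fin]
  rw [hcard] at hphi1
  have hT1 : 1 ≤ #T := Finset.card_pos.2 ⟨g (C 0), (hmemT _).2 ⟨0, rfl⟩⟩
  have hT2 : 2 * #T ≤ #U + 2 := by omega
  -- `#T = 1`
  have hTone : #T = 1 := by
    by_contra hne
    have hT3 : #T = 2 ∧ #U = 2 := by omega
    -- every colour of `T` is the colour of a vertex of `W`
    have himg : U.image (fun w => g (Sum.inl w)) = T := by
      apply Finset.eq_of_subset_of_card_le
      · intro t ht
        rw [mem_image] at ht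
        obtain ⟨w, hw, rfl⟩ := ht
        rw [hU, mem_filter] at hw
        exact hw.2
      · have h3 : #(U.image (fun w => g (Sum.inl w))) = #U := by
          apply Finset.card_image_of_injOn
          intro w hw w' hw' hww
          have hw1 : w ∈ U := hw
          rw [hU, mem_filter] at hw1
          obtain ⟨i, hi⟩ := (hmemT _).1 hw1.2
          exact h1 i w w' hi.symm
            ((show g (Sum.inl w') = g (Sum.inl w) from hww.symm).trans hi.symm)
        omega
    have hinj : Function.Injective (fun i => g (C i)) := by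
      intro i j hij
      have hi : g (C i) ∈ T := (hmemT _).2 ⟨i, rfl⟩
      rw [← himg, mem_image] at hi
      obtain ⟨w, -, hw⟩ := hi
      exact h2 w i j hw (by rw [hw]; exact hij)
    have : #T = 3 := by
      rw [hT, card_image_of_injective _ hinj, Finset.card_univ, Fintype.card_fin]
    omega
  obtain ⟨t, ht⟩ := Finset.card_eq_one.1 hTone
  have hCt : ∀ i, g (C i) = t := by
    intro i
    have : g (C i) ∈ T := (hmemT _).2 ⟨i, rfl⟩
    rw [ht, Finset.mem_singleton] at this
    exact this
  refine ⟨t, hCt, ?_⟩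
  intro w hw
  have := h2 w 0 1 (by rw [hCt]; exact hw) (by rw [hCt]; exact hw)
  exact absurd this (by decide)

end Pool.Agent.Exo.Gen
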