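import Pool.Agent.Exo.Gen
import Pool.Agent.Exo.Emb

/-!
# Three ways to find `L` in the host of a configuration
-/

open Finset Fintype Filter

namespace Pool.Agent.Exo.Gen

open SimpleGraph Pool.Agent.Helper49.Copies

/-- Embedding into a host: the vertices of `X` go to old vertices, the others to new ones. -/
private theorem genEmb_host {W : Type} [Fintype W] (L : SimpleGraph W) {r h : ℕ}
    (H : SimpleGraph (Fin h)) (c : Fin h → Fin r) (hfree : L.Free (host H c)) (X : W → Prop)
    (g : W → Fin r) (φ : W → Fin h) (hφ : ∀ a b, X a → X b → φ a = φ b → a = b)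
    (hc : ∀ a, X a → c (φ a) = g a)
    (hXX : ∀ a b, X a → X b → L.Adj a b → H.Adj (φ a) (φ b))
    (hg : ∀ a b, ¬ X b → L.Adj a b → g a ≠ g b) : False := by
  classical
  apply hfree
  let e := Fintype.equivFin W
  let f : W → Fin h ⊕ (Fin r × ℕ) := fun a =>
    if X a then Sum.inl (φ a) else Sum.inr (g a, (e a : ℕ))
  have fX : ∀ a, X a → f a = Sum.inl (φ a) := fun a ha => if_pos ha
  have fN : ∀ a, ¬ X a → f a = Sum.inr (g a, (e a : ℕ)) := fun a ha => if_neg ha
  have hinj : Function.Injective f := by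
    intro a b hab
    by_cases ha : X a <;> by_cases hb : X b
    · rw [fX a ha, fX b hb] at hab
      exact hφ a b ha hb (Sum.inl.inj hab)
    · rw [fX a ha, fN b hb] at hab
      exact absurd hab (by simp)
    · rw [fN a ha, fX b hb] at hab
      exact absurd hab (by simp)
    · rw [fN a ha, fN b hb] at hab
      exact e.injective (Fin.ext (Prod.mk.inj (Sum.inr.inj hab)).2)
  have hadj : ∀ a b, L.Adj a b → (host H c).Adj (f a) (f b) := by
    intro a b hab
    by_cases ha : X a <;> by_cases hb : X b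
    · rw [fX a ha, fX b hb]
      exact hXX a b ha hb hab
    · rw [fX a ha, fN b hb]
      change c (φ a) ≠ g b
      rw [hc a ha]
      exact hg a b hb hab
    · rw [fN a ha, fX b hb]
      change g a ≠ c (φ b)
      rw [hc b hb]
      exact (hg b a ha hab.symm).symm
    · rw [fN a ha, fN b hb]
      exact hg a b hb hab
  exact ⟨⟨⟨f, fun {x y} hxy => hadj x y hxy⟩, hinj⟩⟩

theorem no_cherry {W : Type} [Fintype W] (L : SimpleGraph W) (r : ℕ) (v y z : W) (g : W → Fin r)
    (hy : y ≠ v) (hz : z ≠ v) (hyz : y ≠ z) (gy : g y = g v) (gz : g z = g v)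
    (hg : ∀ a b, L.Adj a b → a ≠ v → b ≠ v → g a ≠ g b)
    (hv : ∀ b, L.Adj v b → g b = g v → b = y ∨ b = z)
    {h : ℕ} (H : SimpleGraph (Fin h)) (c : Fin h → Fin r) (hfree : L.Free (host H c))
    (x x₁ x₂ : Fin h) (h1 : H.Adj x x₁) (h2 : H.Adj x x₂) (c1 : c x₁ = c x) (c2 : c x₂ = c x) :
    x₁ = x₂ := by
  classical
  by_contra hne
  let φ : W → Fin h := fun a => if a = v then x else if a = y then x₁ else x₂
  have pv : φ v = x := if_pos rfl
  have py : φ y = x₁ := by
    change (if y = v then x else if y = y then x₁ else x₂) = x₁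
    rw [if_neg hy, if_pos rfl]
  have pz : φ z = x₂ := by
    change (if z = v then x else if z = y then x₁ else x₂) = x₂
    rw [if_neg hz, if_neg hyz.symm]
  have n1 : x ≠ x₁ := h1.ne
  have n2 : x ≠ x₂ := h2.ne
  have nyz : ∀ a b, (a = y ∨ a = z) → (b = y ∨ b = z) → ¬ L.Adj a b := by
    intro a b ha hb hab
    have hav : a ≠ v := by rcases ha with rfl | rfl <;> assumption
    have hbv : b ≠ v := by rcases hb with rfl | rfl <;> assumption
    have ga : g a = g v := by rcases ha with rfl | rfl <;> assumption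
    have gb : g b = g v := by rcases hb with rfl | rfl <;> assumption
    exact hg a b hab hav hbv (ga.trans gb.symm)
  refine genEmb_host L H c hfree (fun a => a = v ∨ a = y ∨ a = z)
    (fun a => Equiv.swap (g v) (c x) (g a)) φ ?_ ?_ ?_ ?_
  · intro a b ha hb hab
    rcases ha with rfl | rfl | rfl <;> rcases hb with rfl | rfl | rfl <;>
      simp only [pv, py, pz] at hab <;>
      first
        | rfl
        | exact absurd hab n1
        | exact absurd hab n2
        | exact absurd hab n1.symm
        | exact absurd hab n2.symm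
        | exact absurd hab hne
        | exact absurd hab.symm hne
  · intro a ha
    rcases ha with rfl | rfl | rfl
    · rw [pv, Equiv.swap_apply_left]
    · rw [py, gy, Equiv.swap_apply_left, c1]
    · rw [pz, gz, Equiv.swap_apply_left, c2]
  · intro a b ha hb hab
    rcases ha with rfl | ha
    · rcases hb with rfl | rfl | rfl
      · exact absurd hab (L.irrefl)
      · rw [pv, py]; exact h1
      · rw [pv, pz]; exact h2
    · rcases hb with rfl | hb
      · rcases ha with rfl | rfl
        · rw [pv, py]; exact h1.symm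
        · rw [pv, pz]; exact h2.symm
      · exact absurd hab (nyz a b ha hb)
  · intro a b hb hab hgab
    have hgab' : g a = g b := (Equiv.swap (g v) (c x)).injective hgab
    rw [not_or, not_or] at hb
    by_cases ha : a = v
    · subst ha
      rcases hv b hab hgab'.symm with rfl | rfl
      · exact hb.2.1 rfl
      · exact hb.2.2 rfl
    · exact hg a b hab ha hb.1 hgab'

open Classical in
theorem no_seven {W : Type} [Fintype W] (L : SimpleGraph W) (r : ℕ) (g : W → Fin r) (i₀ : Fin r)
    (hmat : Mat L g) (hi₀ : ∀ a b, L.Adj a b → g a = g b → g a = i₀)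
    (hcard : #{a | ∃ b, L.Adj a b ∧ g a = g b} ≤ 14)
    {h : ℕ} (H : SimpleGraph (Fin h)) (c : Fin h → Fin r) (hfree : L.Free (host H c))
    (i : Fin r) (p q : Fin 7 → Fin h) (hpq : ∀ k, H.Adj (p k) (q k))
    (hc : ∀ k, c (p k) = i ∧ c (q k) = i) (hp : Function.Injective p)
    (hq : Function.Injective q) (hne : ∀ k l, p k ≠ q l) : False := by
  let e := Fintype.equivFin W
  let X : W → Prop := fun a => ∃ b, L.Adj a b ∧ g a = g b
  have hτ : ∃ τ : W → W, ∀ a, X a → L.Adj a (τ a) ∧ g a = g (τ a) := by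
    refine ⟨fun a => if ha : X a then ha.choose else a, fun a ha => ?_⟩
    simp only [dif_pos ha]
    exact ha.choose_spec
  obtain ⟨τ, hτ⟩ := hτ
  have hτX : ∀ a, X a → X (τ a) := fun a ha => ⟨a, (hτ a ha).1.symm, (hτ a ha).2.symm⟩
  have huniq : ∀ a b, X a → L.Adj a b → g a = g b → b = τ a := fun a b ha hab hgab =>
    hmat a b (τ a) hab hgab (hτ a ha).1 (hτ a ha).2
  have hττ : ∀ a, X a → τ (τ a) = a := fun a ha =>
    (huniq (τ a) a (hτX a ha) (hτ a ha).1.symm (hτ a ha).2.symm).symm
  have hgX : ∀ a, X a → g a = i₀ := fun a ha => hi₀ a _ (hτ a ha).1 (hτ a ha).2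
  let Y : Finset W := univ.filter fun a => X a ∧ e a < e (τ a)
  have hY : ∀ a, a ∈ Y ↔ X a ∧ e a < e (τ a) := fun a => by simp [Y]
  have hYc : ∀ a, X a → a ∉ Y → τ a ∈ Y := by
    intro a ha hna
    rw [hY] at hna ⊢
    refine ⟨hτX a ha, ?_⟩
    rw [hττ a ha]
    have h1 : ¬ e a < e (τ a) := fun h2 => hna ⟨ha, h2⟩
    refine lt_of_le_of_ne (not_lt.1 h1) fun h2 => ?_
    exact (hτ a ha).1.ne (e.injective h2.symm)
  have hYn : ∀ a, a ∈ Y → τ a ∉ Y := by
    intro a ha hna
    rw [hY] at ha hna
    rw [hττ a ha.1] at hna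
    exact lt_asymm ha.2 hna.2
  have hinjτ : ∀ a b, X a → X b → τ a = τ b → a = b := by
    intro a b ha hb hab
    rw [← hττ a ha, hab, hττ b hb]
  have hY7 : #Y ≤ 7 := by
    have h1 : #(Y.image τ) = #Y := Finset.card_image_of_injOn (by
      intro a ha b hb hab
      exact hinjτ a b ((hY a).1 ha).1 ((hY b).1 hb).1 hab)
    have h2 : Disjoint Y (Y.image τ) := by
      rw [Finset.disjoint_left]
      intro a ha hna
      obtain ⟨b, hb, rfl⟩ := Finset.mem_image.1 hna
      exact hYn b hb ha
    have h3 : Y ∪ Y.image τ ⊆ univ.filter fun a => ∃ b, L.Adj a b ∧ g a = g b := by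
      intro a ha
      rw [Finset.mem_filter]
      refine ⟨Finset.mem_univ _, ?_⟩
      rcases Finset.mem_union.1 ha with ha | ha
      · exact ((hY a).1 ha).1
      · obtain ⟨b, hb, rfl⟩ := Finset.mem_image.1 ha
        exact hτX b ((hY b).1 hb).1
    have h4 := Finset.card_le_card h3
    rw [Finset.card_union_of_disjoint h2, h1] at h4
    omega
  obtain ⟨j, hj⟩ : ∃ j : W → Fin 7, ∀ a b, a ∈ Y → b ∈ Y → j a = j b → a = b := by
    have h1 : Fintype.card Y ≤ Fintype.card (Fin 7) := by
      rw [Fintype.card_coe, Fintype.card_fin]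
      exact hY7
    obtain ⟨ι⟩ := Function.Embedding.nonempty_of_card_le h1
    refine ⟨fun a => if ha : a ∈ Y then ι ⟨a, ha⟩ else 0, fun a b ha hb hab => ?_⟩
    simp only [dif_pos ha, dif_pos hb] at hab
    exact congrArg Subtype.val (ι.injective hab)
  let φ : W → Fin h := fun a => if a ∈ Y then p (j a) else q (j (τ a))
  have φY : ∀ a, a ∈ Y → φ a = p (j a) := fun a ha => if_pos ha
  have φN : ∀ a, a ∉ Y → φ a = q (j (τ a)) := fun a ha => if_neg ha
  refine genEmb_host L H c hfree X (fun a => Equiv.swap i₀ i (g a)) φ ?_ ?_ ?_ ?_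
  · intro a b ha hb hab
    by_cases haY : a ∈ Y <;> by_cases hbY : b ∈ Y
    · rw [φY a haY, φY b hbY] at hab
      exact hj a b haY hbY (hp hab)
    · rw [φY a haY, φN b hbY] at hab
      exact absurd hab (hne _ _)
    · rw [φN a haY, φY b hbY] at hab
      exact absurd hab.symm (hne _ _)
    · rw [φN a haY, φN b hbY] at hab
      exact hinjτ a b ha hb (hj _ _ (hYc a ha haY) (hYc b hb hbY) (hq hab))
  · intro a ha
    rw [hgX a ha, Equiv.swap_apply_left]
    by_cases haY : a ∈ Y
    · rw [φY a haY]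
      exact (hc _).1
    · rw [φN a haY]
      exact (hc _).2
  · intro a b ha hb hab
    have h1 : b = τ a := huniq a b ha hab ((hgX a ha).trans (hgX b hb).symm)
    subst h1
    by_cases haY : a ∈ Y
    · rw [φY a haY, φN _ (hYn a haY), hττ a ha]
      exact hpq _
    · rw [φN a haY, φY _ (hYc a ha haY)]
      exact (hpq _).symm
  · intro a b hb hab hgab
    have hgab' : g a = g b := (Equiv.swap i₀ i).injective hgab
    exact hb ⟨a, hab.symm, hgab'.symm⟩

end Pool.Agent.Exo.Gen
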