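import Pool.Agent.Exo.Gen

/-!
# The excess of configurations without a cherry, seven edges, or everything
-/

open Finset Fintype Filter

namespace Pool.Agent.Exo.Gen

open SimpleGraph Pool.Agent.Helper49.Copies

open Classical in
/-- the inner edges of class `i`, ordered increasingly -/
private noncomputable def genFreeE {r h : ℕ} (H : SimpleGraph (Fin h)) (c : Fin h → Fin r)
    (i : Fin r) : Finset (Fin h × Fin h) :=
  {p | H.Adj p.1 p.2 ∧ c p.1 = i ∧ c p.2 = i ∧ p.1 < p.2}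

private theorem genFree_mem {r h : ℕ} {H : SimpleGraph (Fin h)} {c : Fin h → Fin r} {i : Fin r}
    {p : Fin h × Fin h} :
    p ∈ genFreeE H c i ↔ H.Adj p.1 p.2 ∧ c p.1 = i ∧ c p.2 = i ∧ p.1 < p.2 := by
  simp [genFreeE]

private theorem genFree_fst {r h : ℕ} {H : SimpleGraph (Fin h)} {c : Fin h → Fin r}
    (h1 : ∀ x x₁ x₂, H.Adj x x₁ → H.Adj x x₂ → c x₁ = c x → c x₂ = c x → x₁ = x₂)
    {i : Fin r} {p q : Fin h × Fin h}
    (hp : p ∈ genFreeE H c i) (hq : q ∈ genFreeE H c i) (e : p.1 = q.1) : p = q := by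
  rw [genFree_mem] at hp hq
  refine Prod.ext e ?_
  exact h1 p.1 p.2 q.2 hp.1 (e ▸ hq.1) (hp.2.2.1.trans hp.2.1.symm)
    (hq.2.2.1.trans hp.2.1.symm)

private theorem genFree_snd {r h : ℕ} {H : SimpleGraph (Fin h)} {c : Fin h → Fin r}
    (h1 : ∀ x x₁ x₂, H.Adj x x₁ → H.Adj x x₂ → c x₁ = c x → c x₂ = c x → x₁ = x₂)
    {i : Fin r} {p q : Fin h × Fin h}
    (hp : p ∈ genFreeE H c i) (hq : q ∈ genFreeE H c i) (e : p.2 = q.2) : p = q := by
  rw [genFree_mem] at hp hq
  refine Prod.ext ?_ e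
  exact h1 p.2 p.1 q.1 hp.1.symm (e ▸ hq.1.symm) (hp.2.1.trans hp.2.2.1.symm)
    (hq.2.1.trans hp.2.2.1.symm)

private theorem genFree_ne {r h : ℕ} {H : SimpleGraph (Fin h)} {c : Fin h → Fin r}
    (h1 : ∀ x x₁ x₂, H.Adj x x₁ → H.Adj x x₂ → c x₁ = c x → c x₂ = c x → x₁ = x₂)
    {i : Fin r} {p q : Fin h × Fin h}
    (hp : p ∈ genFreeE H c i) (hq : q ∈ genFreeE H c i) : p.1 ≠ q.2 := by
  intro e
  rw [genFree_mem] at hp hq
  have h2 : p.2 = q.1 := h1 p.1 p.2 q.1 hp.1 (e ▸ hq.1.symm)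
    (hp.2.2.1.trans hp.2.1.symm) (hq.2.1.trans hp.2.1.symm)
  have h3 := hp.2.2.2
  have h4 := hq.2.2.2
  rw [← h2, ← e] at h4
  exact absurd (h3.trans h4) (lt_irrefl _)

private theorem genFree_enum {α : Type} (s : Finset α) (m : ℕ) (hs : m ≤ #s) :
    ∃ e : Fin m → α, Function.Injective e ∧ ∀ k, e k ∈ s := by
  obtain ⟨t, hts, ht⟩ := Finset.exists_subset_card_eq hs
  refine ⟨fun k => ((t.equivFinOfCardEq ht).symm k : α), ?_, ?_⟩
  · intro a b hab
    exact (t.equivFinOfCardEq ht).symm.injective (Subtype.ext hab)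
  · intro k
    exact hts ((t.equivFinOfCardEq ht).symm k).2

private theorem genFree_card_le {r h : ℕ} (H : SimpleGraph (Fin h)) (c : Fin h → Fin r)
    (h1 : ∀ x x₁ x₂, H.Adj x x₁ → H.Adj x x₂ → c x₁ = c x → c x₂ = c x → x₁ = x₂)
    (h2 : ∀ (i : Fin r) (p q : Fin 7 → Fin h), (∀ k, H.Adj (p k) (q k)) →
      (∀ k, c (p k) = i ∧ c (q k) = i) → Function.Injective p → Function.Injective q →
      (∀ k l, p k ≠ q l) → False) (i : Fin r) : #(genFreeE H c i) ≤ 6 := by
  by_contra hc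
  push Not at hc
  obtain ⟨e, he, hmem⟩ := genFree_enum (genFreeE H c i) 7 hc
  refine h2 i (fun k => (e k).1) (fun k => (e k).2) ?_ ?_ ?_ ?_ ?_
  · intro k
    exact (genFree_mem.1 (hmem k)).1
  · intro k
    exact ⟨(genFree_mem.1 (hmem k)).2.1, (genFree_mem.1 (hmem k)).2.2.1⟩
  · intro a b hab
    exact he (genFree_fst h1 (hmem a) (hmem b) hab)
  · intro a b hab
    exact he (genFree_snd h1 (hmem a) (hmem b) hab)
  · intro k l
    exact genFree_ne h1 (hmem k) (hmem l)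

private theorem genFree_inn_le {r h : ℕ} (H : SimpleGraph (Fin h)) (c : Fin h → Fin r) :
    inn H c ≤ 2 * ∑ i, #(genFreeE H c i) := by
  classical
  set U : Finset (Fin h × Fin h) := univ.biUnion (genFreeE H c) with hU
  have hsub : ({p : Fin h × Fin h | H.Adj p.1 p.2 ∧ c p.1 = c p.2} : Finset _) ⊆
      U ∪ U.image Prod.swap := by
    rintro ⟨x, y⟩ hp
    simp only [Finset.mem_filter, Finset.mem_univ, true_and] at hp
    obtain ⟨hadj, hcc⟩ := hp
    have hne : x ≠ y := hadj.ne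
    rcases lt_or_gt_of_ne hne with hlt | hgt
    · apply Finset.mem_union_left
      rw [hU, Finset.mem_biUnion]
      exact ⟨c x, Finset.mem_univ _, genFree_mem.2 ⟨hadj, rfl, hcc.symm, hlt⟩⟩
    · apply Finset.mem_union_right
      rw [Finset.mem_image]
      refine ⟨(y, x), ?_, rfl⟩
      rw [hU, Finset.mem_biUnion]
      exact ⟨c x, Finset.mem_univ _, genFree_mem.2 ⟨hadj.symm, hcc.symm, rfl, hgt⟩⟩
  have h1 : inn H c ≤ #(U ∪ U.image Prod.swap) := by
    refine le_trans (le_of_eq ?_) (Finset.card_le_card hsub)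
    unfold inn
    congr
  have h2 := Finset.card_union_le U (U.image Prod.swap)
  have h3 : #(U.image Prod.swap) ≤ #U := Finset.card_image_le
  have h4 : #U ≤ ∑ i, #(genFreeE H c i) := Finset.card_biUnion_le
  omega

theorem free_excess {r h : ℕ} (H : SimpleGraph (Fin h)) (c : Fin h → Fin r)
    (h1 : ∀ x x₁ x₂, H.Adj x x₁ → H.Adj x x₂ → c x₁ = c x → c x₂ = c x → x₁ = x₂)
    (h2 : ∀ (i : Fin r) (p q : Fin 7 → Fin h), (∀ k, H.Adj (p k) (q k)) →
      (∀ k, c (p k) = i ∧ c (q k) = i) → Function.Injective p → Function.Injective q →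
      (∀ k l, p k ≠ q l) → False)
    (h3 : ∀ p q : Fin r → Fin 6 → Fin h, (∀ i k, H.Adj (p i k) (q i k)) →
      (∀ i k, c (p i k) = i ∧ c (q i k) = i) → (∀ i, Function.Injective (p i)) →
      (∀ i, Function.Injective (q i)) → (∀ i k l, p i k ≠ q i l) →
      (∀ x y, c x ≠ c y → H.Adj x y) → False) :
    excess H c < 12 * r := by
  by_contra hge
  have h0 := genFree_card_le H c h1 h2
  have hinn := genFree_inn_le H c
  have hsum : ∑ i, #(genFreeE H c i) ≤ ∑ _i : Fin r, 6 := Finset.sum_le_sum fun i _ => h0 i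
  have h6 : ∑ _i : Fin r, 6 = 6 * r := by simp [mul_comm]
  have hex : excess H c = (inn H c : ℤ) - mis H c := rfl
  have hm : mis H c = 0 := by omega
  have hS : ∑ i, #(genFreeE H c i) = ∑ _i : Fin r, 6 := by omega
  have hE : ∀ i, 6 ≤ #(genFreeE H c i) := by
    intro i
    have := (Finset.sum_eq_sum_iff_of_le (fun i _ => h0 i)).1 hS i (Finset.mem_univ i)
    exact this.ge
  choose e he hmem using fun i => genFree_enum (genFreeE H c i) 6 (hE i)
  refine h3 (fun i k => (e i k).1) (fun i k => (e i k).2) ?_ ?_ ?_ ?_ ?_ ?_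
  · intro i k
    exact (genFree_mem.1 (hmem i k)).1
  · intro i k
    exact ⟨(genFree_mem.1 (hmem i k)).2.1, (genFree_mem.1 (hmem i k)).2.2.1⟩
  · intro i a b hab
    exact he i (genFree_fst h1 (hmem i a) (hmem i b) hab)
  · intro i a b hab
    exact he i (genFree_snd h1 (hmem i a) (hmem i b) hab)
  · intro i k l
    exact genFree_ne h1 (hmem i k) (hmem i l)
  · intro x y hxy
    by_contra hadj
    unfold mis at hm
    rw [Finset.card_eq_zero] at hm
    have : (x, y) ∈ (∅ : Finset (Fin h × Fin h)) := by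
      rw [← hm]
      simp only [Finset.mem_filter, Finset.mem_univ, true_and]
      exact ⟨hadj, hxy⟩
    exact absurd this (Finset.notMem_empty _)

end Pool.Agent.Exo.Gen
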