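import Pool.Agent.Exo.Gen

/-!
# The configuration with six disjoint edges in each class
-/

open Finset Fintype Filter

namespace Pool.Agent.Exo.Gen

open SimpleGraph Pool.Agent.Helper49.Copies

/-- The class of a vertex: twelve vertices per class. -/
def cr (r : ℕ) : Fin (12 * r) → Fin r := fun a => ⟨(a : ℕ) / 12, by have := a.2; omega⟩

/-- Complete `r`-partite graph with twelve vertices per class and the edges `2k - (2k+1)`. -/
def Hr (r : ℕ) : SimpleGraph (Fin (12 * r)) where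
  Adj a b := cr r a ≠ cr r b ∨ (a ≠ b ∧ (a : ℕ) / 2 = (b : ℕ) / 2)
  symm := ⟨fun a b h => h.imp Ne.symm (fun h => ⟨h.1.symm, h.2.symm⟩)⟩
  loopless := ⟨fun a h => h.elim (fun h => h rfl) (fun h => h.1 rfl)⟩

/-- The class of a vertex of the host. -/
def genOutCls (r : ℕ) : Fin (12 * r) ⊕ (Fin r × ℕ) → Fin r := Sum.elim (cr r) Prod.fst

/-- The number of the old vertex given by a vertex of the host (or `0`). -/
def genOutOld (r : ℕ) : Fin (12 * r) ⊕ (Fin r × ℕ) → ℕ := Sum.elim (fun a => (a : ℕ)) (fun _ => 0)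

theorem genOut_adj {r : ℕ} {x y : Fin (12 * r) ⊕ (Fin r × ℕ)} (h : (host (Hr r) (cr r)).Adj x y)
    (hc : genOutCls r x = genOutCls r y) : ∃ a b : Fin (12 * r), x = Sum.inl a ∧ y = Sum.inl b ∧
      a ≠ b ∧ (a : ℕ) / 2 = (b : ℕ) / 2 := by
  rcases x with a | p <;> rcases y with b | q
  · have h' : cr r a ≠ cr r b ∨ (a ≠ b ∧ (a : ℕ) / 2 = (b : ℕ) / 2) := h
    rcases h' with h' | h'
    · exact absurd hc h'
    · exact ⟨a, b, rfl, rfl, h'.1, h'.2⟩
  · exact absurd hc (show cr r a ≠ q.1 from h)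
  · exact absurd hc (show p.1 ≠ cr r b from h)
  · exact absurd hc (show p.1 ≠ q.1 from h)

theorem Hr_outFree {W : Type} [Fintype W] (L : SimpleGraph W) (r : ℕ)
    (h : ∀ g : W → Fin r, Mat L g → Small L g → ∀ a, ∃ b, L.Adj a b ∧ g a = g b) :
    OutFree L (Hr r) (cr r) := by
  intro f w
  have hadj : ∀ a b, L.Adj a b → genOutCls r (f a) = genOutCls r (f b) →
      ∃ x y : Fin (12 * r), f a = Sum.inl x ∧ f b = Sum.inl y ∧ x ≠ y ∧
        (x : ℕ) / 2 = (y : ℕ) / 2 :=
    fun a b hab hc => genOut_adj (f.toHom.map_adj hab) hc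
  have hkey := h (fun a => genOutCls r (f a)) ?_ ?_
  · obtain ⟨b, hb, hc⟩ := hkey w
    obtain ⟨x, y, hx, -, -, -⟩ := hadj w b hb hc
    exact ⟨x, hx⟩
  · intro a b b' hab hc hab' hc'
    obtain ⟨x, y, hx, hy, hne, hd⟩ := hadj a b hab hc
    obtain ⟨x', y', hx', hy', hne', hd'⟩ := hadj a b' hab' hc'
    have hxx : x = x' := Sum.inl_injective (hx.symm.trans hx')
    subst hxx
    have hyy : y = y' := by
      have h1 : (x : ℕ) ≠ (y : ℕ) := fun h => hne (Fin.ext h)
      have h2 : (x : ℕ) ≠ (y' : ℕ) := fun h => hne' (Fin.ext h)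
      apply Fin.ext
      omega
    have he : f b = f b' := by rw [hy, hy', hyy]
    exact f.injective he
  · intro i
    have h12 : #(Finset.Ico (12 * (i : ℕ)) (12 * (i : ℕ) + 12)) = 12 := by
      rw [Nat.card_Ico]; omega
    refine le_trans ?_ h12.le
    apply Finset.card_le_card_of_injOn (fun a => genOutOld r (f a))
    · intro a ha
      simp only [Finset.coe_filter, Finset.mem_univ, true_and, Finset.coe_Ico] at ha ⊢
      obtain ⟨hi, b, hab, hc⟩ := ha
      obtain ⟨x, y, hx, -, -, -⟩ := hadj a b hab hc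
      have hx' : genOutOld r (f a) = (x : ℕ) := by rw [hx]; rfl
      have hx'' : genOutCls r (f a) = cr r x := by rw [hx]; rfl
      rw [hx''] at hi
      have hi' : (x : ℕ) / 12 = (i : ℕ) := congrArg Fin.val hi
      show genOutOld r (f a) ∈ Set.Ico _ _
      rw [hx', Set.mem_Ico]
      omega
    · intro a ha a' ha' he
      simp only [Finset.coe_filter, Finset.mem_univ, true_and] at ha ha'
      obtain ⟨-, b, hab, hc⟩ := ha
      obtain ⟨-, b', hab', hc'⟩ := ha'
      obtain ⟨x, y, hx, -, -, -⟩ := hadj a b hab hc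
      obtain ⟨x', y', hx', -, -, -⟩ := hadj a' b' hab' hc'
      have h1 : genOutOld r (f a) = (x : ℕ) := by rw [hx]; rfl
      have h2 : genOutOld r (f a') = (x' : ℕ) := by rw [hx']; rfl
      have h3 : x = x' := Fin.ext (by rw [← h1, ← h2]; exact he)
      have he' : f a = f a' := by rw [hx, hx', h3]
      exact f.injective he'

/-- The other vertex of the inner edge. -/
def genOutPar (r : ℕ) (a : Fin (12 * r)) : Fin (12 * r) :=
  ⟨2 * ((a : ℕ) / 2) + 1 - (a : ℕ) % 2, by have := a.2; omega⟩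

theorem genOut_inn (r : ℕ) : inn (Hr r) (cr r) = 12 * r := by
  classical
  have h1 : #(Finset.univ.map ⟨fun a : Fin (12 * r) => (a, genOutPar r a),
      fun a b h => (Prod.mk.inj h).1⟩) = 12 * r := by
    rw [Finset.card_map, Finset.card_univ, Fintype.card_fin]
  unfold inn
  refine Eq.trans ?_ h1
  apply congrArg
  ext p
  obtain ⟨a, b⟩ := p
  simp only [Finset.mem_filter, Finset.mem_univ, true_and, Finset.mem_map,
    Function.Embedding.coeFn_mk, Prod.mk.injEq]
  constructor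
  · rintro ⟨h, hc⟩
    have h' : cr r a ≠ cr r b ∨ (a ≠ b ∧ (a : ℕ) / 2 = (b : ℕ) / 2) := h
    rcases h' with h' | ⟨hne, hd⟩
    · exact absurd hc h'
    · refine ⟨a, rfl, ?_⟩
      have hne' : (a : ℕ) ≠ (b : ℕ) := fun h => hne (Fin.ext h)
      apply Fin.ext
      show 2 * ((a : ℕ) / 2) + 1 - (a : ℕ) % 2 = (b : ℕ)
      omega
  · rintro ⟨a', rfl, rfl⟩
    have hv : ((genOutPar r a' : Fin (12 * r)) : ℕ) = 2 * ((a' : ℕ) / 2) + 1 - (a' : ℕ) % 2 := rfl
    constructor
    · show cr r a' ≠ cr r (genOutPar r a') ∨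
        (a' ≠ genOutPar r a' ∧ (a' : ℕ) / 2 = ((genOutPar r a' : Fin (12 * r)) : ℕ) / 2)
      right
      refine ⟨fun h => ?_, ?_⟩
      · have := congrArg Fin.val h
        omega
      · omega
    · apply Fin.ext
      show (a' : ℕ) / 12 = ((genOutPar r a' : Fin (12 * r)) : ℕ) / 12
      omega

theorem genOut_mis (r : ℕ) : mis (Hr r) (cr r) = 0 := by
  unfold mis
  rw [Finset.card_eq_zero]
  ext p
  simp only [Finset.mem_filter, Finset.mem_univ, true_and, Finset.notMem_empty, iff_false]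
  rintro ⟨h1, h2⟩
  exact h1 (Or.inl h2)

theorem Hr_excess (r : ℕ) : excess (Hr r) (cr r) = 12 * r := by
  unfold excess
  rw [genOut_inn, genOut_mis]
  push_cast
  ring

end Pool.Agent.Exo.Gen
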