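import Pool.Agent.Exo.Gen
import Pool.Agent.Exo.Emb

/-!
# Finding `L` by the perfect map
-/

open Finset Fintype Filter

namespace Pool.Agent.Exo.Gen

open SimpleGraph Pool.Agent.Helper49.Copies

theorem no_perfect {W : Type} [Fintype W] (L : SimpleGraph W) (r : ℕ) (g : W → Fin r)
    (hmat : Mat L g) (hsmall : Small L g) (hcov : ∀ a, ∃ b, L.Adj a b ∧ g a = g b)
    {h : ℕ} (H : SimpleGraph (Fin h)) (c : Fin h → Fin r) (hfree : L.Free (host H c))
    (p q : Fin r → Fin 6 → Fin h) (hpq : ∀ i k, H.Adj (p i k) (q i k))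
    (hc : ∀ i k, c (p i k) = i ∧ c (q i k) = i) (hp : ∀ i, Function.Injective (p i))
    (hq : ∀ i, Function.Injective (q i)) (hne : ∀ i k l, p i k ≠ q i l)
    (hmis : ∀ x y, c x ≠ c y → H.Adj x y) : False := by
  classical
  choose τ hτ using hcov
  have huniq : ∀ a b, L.Adj a b → g a = g b → b = τ a := fun a b h1 h2 =>
    hmat a b (τ a) h1 h2 (hτ a).1 (hτ a).2
  have hinv : ∀ a, τ (τ a) = a := fun a => (huniq (τ a) a (hτ a).1.symm (hτ a).2.symm).symm
  have hneτ : ∀ a, τ a ≠ a := fun a => (hτ a).1.ne'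
  have hgτ : ∀ a, g (τ a) = g a := fun a => (hτ a).2.symm
  let e := Fintype.equivFin W
  have hlow : ∀ a, ¬ e a < e (τ a) → e (τ a) < e (τ (τ a)) := by
    intro a ha
    rw [hinv]
    exact lt_of_le_of_ne (not_lt.1 ha) (fun h1 => hneτ a (e.injective h1))
  let A : Fin r → Finset W := fun i => {a | g a = i ∧ e a < e (τ a)}
  have hA : ∀ i a, a ∈ A i ↔ g a = i ∧ e a < e (τ a) := by
    intro i a
    simp [A]
  have hcard : ∀ i, #(A i) ≤ 6 := by
    intro i
    have h1 : #({a | g a = i} : Finset W) ≤ 12 := by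
      refine le_trans (Finset.card_le_card ?_) (hsmall i)
      intro a ha
      simp only [Finset.mem_filter, Finset.mem_univ, true_and] at ha ⊢
      exact ⟨ha, τ a, hτ a⟩
    have h2 : #((A i) ∪ (A i).image τ) ≤ #({a | g a = i} : Finset W) := by
      refine Finset.card_le_card ?_
      intro a ha
      simp only [Finset.mem_filter, Finset.mem_univ, true_and]
      rcases Finset.mem_union.1 ha with h3 | h3
      · exact ((hA i a).1 h3).1
      · obtain ⟨b, hb, rfl⟩ := Finset.mem_image.1 h3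
        rw [hgτ]
        exact ((hA i b).1 hb).1
    have h3 : Disjoint (A i) ((A i).image τ) := by
      rw [Finset.disjoint_left]
      intro a ha hb
      obtain ⟨b, hb', rfl⟩ := Finset.mem_image.1 hb
      have h4 := ((hA i _).1 ha).2
      rw [hinv] at h4
      exact lt_asymm h4 ((hA i b).1 hb').2
    have h4 : #((A i).image τ) = #(A i) :=
      Finset.card_image_of_injective _ (fun a b hab => by rw [← hinv a, ← hinv b, hab])
    rw [Finset.card_union_of_disjoint h3, h4] at h2
    omega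
  have hk : ∀ i, ∃ k : W → Fin 6, ∀ a ∈ A i, ∀ b ∈ A i, k a = k b → a = b := by
    intro i
    have h1 : Fintype.card (A i) ≤ Fintype.card (Fin 6) := by
      rw [Fintype.card_coe, Fintype.card_fin]
      exact hcard i
    obtain ⟨k⟩ := Function.Embedding.nonempty_of_card_le h1
    refine ⟨fun a => if ha : a ∈ A i then k ⟨a, ha⟩ else 0, ?_⟩
    intro a ha b hb hab
    simp only [dif_pos ha, dif_pos hb] at hab
    exact congrArg Subtype.val (k.injective hab)
  choose k hk using hk
  let φ : W → Fin h := fun a => if e a < e (τ a) then p (g a) (k (g a) a)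
    else q (g a) (k (g a) (τ a))
  have φ1 : ∀ a, e a < e (τ a) → φ a = p (g a) (k (g a) a) := fun a ha => if_pos ha
  have φ2 : ∀ a, ¬ e a < e (τ a) → φ a = q (g a) (k (g a) (τ a)) := fun a ha => if_neg ha
  have hcφ : ∀ a, c (φ a) = g a := by
    intro a
    by_cases ha : e a < e (τ a)
    · rw [φ1 a ha]; exact (hc _ _).1
    · rw [φ2 a ha]; exact (hc _ _).2
  have hinj : Function.Injective φ := by
    intro a b hab
    have hg : g a = g b := by rw [← hcφ a, ← hcφ b, hab]
    by_cases ha : e a < e (τ a)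
    · by_cases hb : e b < e (τ b)
      · rw [φ1 a ha, φ1 b hb, hg] at hab
        exact hk (g b) a ((hA _ _).2 ⟨hg, ha⟩) b ((hA _ _).2 ⟨rfl, hb⟩) (hp _ hab)
      · rw [φ1 a ha, φ2 b hb, hg] at hab
        exact absurd hab (hne _ _ _)
    · by_cases hb : e b < e (τ b)
      · rw [φ2 a ha, φ1 b hb, hg] at hab
        exact absurd hab.symm (hne _ _ _)
      · rw [φ2 a ha, φ2 b hb, hg] at hab
        have h1 := hk (g b) (τ a) ((hA _ _).2 ⟨(hgτ a).trans hg, hlow a ha⟩) (τ b)
          ((hA _ _).2 ⟨hgτ b, hlow b hb⟩) (hq _ hab)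
        rw [← hinv a, ← hinv b, h1]
  have hone : ∀ a, e a < e (τ a) → H.Adj (φ a) (φ (τ a)) := by
    intro a ha
    have h1 : ¬ e (τ a) < e (τ (τ a)) := by
      rw [hinv]
      exact lt_asymm ha
    rw [φ1 a ha, φ2 _ h1, hgτ, hinv]
    exact hpq _ _
  have hadj : ∀ a b, L.Adj a b → H.Adj (φ a) (φ b) := by
    intro a b hab
    by_cases hg : g a = g b
    · have hb := huniq a b hab hg
      by_cases ha : e a < e (τ a)
      · rw [hb]
        exact hone a ha
      · have h1 := hone (τ a) (hlow a ha)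
        rw [hinv] at h1
        rw [hb]
        exact h1.symm
    · apply hmis
      rw [hcφ, hcφ]
      exact hg
  exact hfree ⟨⟨⟨fun a => Sum.inl (φ a), fun {x y} hxy => hadj x y hxy⟩,
    fun a b hab => hinj (Sum.inl.inj hab)⟩⟩

end Pool.Agent.Exo.Gen
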