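import Pool.Agent.Exo.GenStep

/-!
# The inductive step: the counting property
-/

open Finset Fintype Filter

namespace Pool.Agent.Exo.Gen

open SimpleGraph Pool.Agent.Helper49.Copies

theorem stp_phi {W : Type} [Fintype W] (L : SimpleGraph W) (r : ℕ) (S : Finset W)
    (hphi : ∀ (K : Finset ℕ) (U : Finset W) (g : W → ℕ), (∀ a, a ∉ U → g a ∈ K) →
      (∀ a b b', a ∉ U → b ∉ U → b' ∉ U → L.Adj a b → g a = g b → L.Adj a b' → g a = g b' →
        b = b') → 2 * r ≤ #U + 2 * #K)
    (K : Finset ℕ) (U : Finset (W ⊕ (Fin 3 ⊕ Fin 3))) (g : W ⊕ (Fin 3 ⊕ Fin 3) → ℕ)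
    (hK : ∀ a, a ∉ U → g a ∈ K)
    (hm : ∀ a b b', a ∉ U → b ∉ U → b' ∉ U → (stp L S).Adj a b → g a = g b →
      (stp L S).Adj a b' → g a = g b' → b = b') : 2 * (r + 1) ≤ #U + 2 * #K := by
  classical
  obtain ⟨UW, hUW⟩ : ∃ UW : Finset W, ∀ w, w ∈ UW ↔ Sum.inl w ∈ U :=
    ⟨Finset.univ.filter (fun w => Sum.inl w ∈ U), fun w => by simp⟩
  obtain ⟨CU, hCU⟩ : ∃ CU : Finset (Fin 3), ∀ i, i ∈ CU ↔ Sum.inr (Sum.inl i) ∈ U :=
    ⟨Finset.univ.filter (fun i => Sum.inr (Sum.inl i) ∈ U), fun i => by simp⟩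
  -- the vertices of `U` of the first two kinds
  have hU : #UW + #CU ≤ #U := by
    have h1 : Disjoint (UW.map ⟨Sum.inl, Sum.inl_injective⟩ : Finset (W ⊕ (Fin 3 ⊕ Fin 3)))
        (CU.map ⟨fun i => Sum.inr (Sum.inl i), fun i j h => Sum.inl_injective
          (Sum.inr_injective h)⟩) := by
      rw [Finset.disjoint_left]
      intro x hx hx'
      rw [Finset.mem_map] at hx hx'
      obtain ⟨w, -, rfl⟩ := hx
      obtain ⟨i, -, hi⟩ := hx'
      exact Sum.inr_ne_inl hi
    have h2 := Finset.card_union_of_disjoint h1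
    rw [Finset.card_map, Finset.card_map] at h2
    rw [← h2]
    apply Finset.card_le_card
    intro x hx
    rw [Finset.mem_union, Finset.mem_map, Finset.mem_map] at hx
    rcases hx with ⟨w, hw, rfl⟩ | ⟨i, hi, rfl⟩
    · exact (hUW w).1 hw
    · exact (hCU i).1 hi
  have hCUc : #CU + #CUᶜ = 3 := by
    rw [Finset.card_add_card_compl, Fintype.card_fin]
  have hphi' := fun (K' : Finset ℕ) (U' : Finset W) (hUU : UW ⊆ U')
      (hK' : ∀ a, a ∉ U' → g (Sum.inl a) ∈ K') =>
    hphi K' U' (fun w => g (Sum.inl w)) hK' (fun a b b' ha hb hb' hab hg hab' hg' =>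
      Sum.inl_injective (hm (Sum.inl a) (Sum.inl b) (Sum.inl b')
        (fun h => ha (hUU ((hUW a).2 h))) (fun h => hb (hUU ((hUW b).2 h)))
        (fun h => hb' (hUU ((hUW b').2 h))) hab hg hab' hg'))
  by_cases h0 : #CUᶜ = 0
  · have h1 := hphi' K UW (fun _ h => h) (fun a ha => hK _ (fun h => ha ((hUW a).2 h)))
    omega
  · -- the colours of the remaining vertices `C i`
    obtain ⟨T, hT⟩ : ∃ T : Finset ℕ, T = CUᶜ.image (fun i => g (Sum.inr (Sum.inl i))) := ⟨_, rfl⟩
    obtain ⟨X, hX⟩ : ∃ X : Finset W, ∀ w, w ∈ X ↔ (Sum.inl w ∉ U ∧ g (Sum.inl w) ∈ T) :=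
      ⟨Finset.univ.filter (fun w => Sum.inl w ∉ U ∧ g (Sum.inl w) ∈ T), fun w => by simp⟩
    have hTK : T ⊆ K := by
      intro t ht
      rw [hT, Finset.mem_image] at ht
      obtain ⟨i, hi, rfl⟩ := ht
      rw [Finset.mem_compl, hCU] at hi
      exact hK _ hi
    have hTle : #T ≤ #CUᶜ := by
      rw [hT]
      exact Finset.card_image_le
    have hTpos : 0 < #T := by
      have h1 : (CUᶜ : Finset (Fin 3)).Nonempty := by
        rw [← Finset.card_pos]
        omega
      rw [hT, Finset.card_pos]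
      exact h1.image _
    have hinj : Set.InjOn (fun w => g (Sum.inl w)) (X : Set W) := by
      intro w hw w' hw' he
      rw [Finset.mem_coe, hX] at hw hw'
      have h1 := hw.2
      rw [hT, Finset.mem_image] at h1
      obtain ⟨i, hi, hgi⟩ := h1
      rw [Finset.mem_compl, hCU] at hi
      exact Sum.inl_injective (hm (Sum.inr (Sum.inl i)) (Sum.inl w) (Sum.inl w') hi hw.1 hw'.1
        trivial hgi trivial (hgi.trans he))
    have hmaps : X.image (fun w => g (Sum.inl w)) ⊆ T := by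
      intro t ht
      rw [Finset.mem_image] at ht
      obtain ⟨w, hw, rfl⟩ := ht
      exact ((hX w).1 hw).2
    have hXc : #(X.image (fun w => g (Sum.inl w))) = #X := Finset.card_image_of_injOn hinj
    have hXT : #X ≤ #T := by
      rw [← hXc]
      exact Finset.card_le_card hmaps
    have hmain := hphi' (K \ T) (UW ∪ X) Finset.subset_union_left (by
      intro a ha
      rw [Finset.mem_union, not_or] at ha
      have h1 : Sum.inl a ∉ U := fun h => ha.1 ((hUW a).2 h)
      rw [Finset.mem_sdiff]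
      refine ⟨hK _ h1, fun h => ha.2 ((hX a).2 ⟨h1, h⟩)⟩)
    have hc1 : #(UW ∪ X) ≤ #UW + #X := Finset.card_union_le _ _
    have hc2 : #(K \ T) + #T = #K := Finset.card_sdiff_add_card_eq_card hTK
    by_cases h2 : #X = #T
    · have himg : X.image (fun w => g (Sum.inl w)) = T :=
        Finset.eq_of_subset_of_card_le hmaps (by rw [hXc, h2])
      have hinj2 : Set.InjOn (fun i => g (Sum.inr (Sum.inl i) : W ⊕ (Fin 3 ⊕ Fin 3)))
          ((CUᶜ : Finset (Fin 3)) : Set (Fin 3)) := by
        intro i hi j hj he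
        rw [Finset.mem_coe] at hi hj
        have ht : g (Sum.inr (Sum.inl i)) ∈ T := by
          rw [hT]
          exact Finset.mem_image_of_mem _ hi
        rw [← himg, Finset.mem_image] at ht
        obtain ⟨w, hw, hwi⟩ := ht
        rw [Finset.mem_compl, hCU] at hi hj
        have h3 := hm (Sum.inl w) (Sum.inr (Sum.inl i)) (Sum.inr (Sum.inl j))
          ((hX w).1 hw).1 hi hj trivial hwi trivial (hwi.trans he)
        exact Sum.inl_injective (Sum.inr_injective h3)
      have h3 : #T = #CUᶜ := by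
        rw [hT]
        exact Finset.card_image_of_injOn hinj2
      omega
    · omega

end Pool.Agent.Exo.Gen
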