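import Pool.Agent.Exo.GenStep3
import Pool.Agent.Exo.GenPhi
import Pool.Agent.Exo.GenPerf
import Pool.Agent.Exo.GenBase
import Pool.Agent.Exo.GenOut
import Pool.Agent.Exo.GenEmb
import Pool.Agent.Exo.GenFree

/-!
# Connected graphs of every chromatic number with bounded `A(n; L)`
-/

open Finset Fintype Filter

namespace Pool.Agent.Exo.Gen

open SimpleGraph Pool.Agent.Helper49.Copies

theorem stp_good {W : Type} [Fintype W] (L : SimpleGraph W) (r : ℕ) (S : Finset W)
    (h : Good L r S) : Good (stp L S) (r + 1) (stpS S) :=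
  ⟨stp_connected L S h.conn, stp_star L r S h.star, stp_match L r S h.mat,
    stp_perf L r S h.perf, stp_uniq L r S h, stp_phi L r S h.phi⟩

theorem Good.gap {W : Type} [Fintype W] {L : SimpleGraph W} {r : ℕ} {S : Finset W}
    (h : Good L r S) : Gap L r := by
  refine ⟨12 * r, Hr r, cr r, Hr_outFree L r (fun g h1 h2 => (h.uniq g h1 h2).1), ?_⟩
  intro h' H c hfree
  rw [Hr_excess]
  obtain ⟨v, y, z, g, i, hy, hz, hyz, gy, gz, hg, hv, -⟩ := h.star
  obtain ⟨gm, i₀, i', hm1, hm2, hm3, -⟩ := h.mat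
  obtain ⟨gp, hp1, hp2⟩ := h.perf
  exact free_excess H c
    (no_cherry L r v y z g hy hz hyz gy gz hg hv H c hfree)
    (no_seven L r gm i₀ hm1 hm2 hm3 H c hfree)
    (no_perfect L r gp hp1 hp2 (h.uniq gp hp1 hp2).1 H c hfree)

theorem exists_good (k : ℕ) : ∃ (W : Type) (_ : Fintype W) (L : SimpleGraph W) (S : Finset W),
    card W = 6 * (k + 2) + 12 ∧ Good L (k + 2) S := by
  induction k with
  | zero => exact ⟨Fin 24, inferInstance, Ex.L24, {0, 13}, by simp, L24_good⟩
  | succ k ih =>
    obtain ⟨W, _, L, S, hW, h⟩ := ih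
    refine ⟨W ⊕ (Fin 3 ⊕ Fin 3), inferInstance, stp L S, stpS S, ?_, stp_good L (k + 2) S h⟩
    rw [Fintype.card_sum, Fintype.card_sum, Fintype.card_fin, hW]
    ring

/-- The two forbidden local types give `ex(n; L) ≤ t_r(n) + K`. -/
theorem bdd_of_types {W : Type} [Fintype W] (L : SimpleGraph W) (r : ℕ) (hr : 2 ≤ r)
    (hnc : ¬ L.Colorable r) (hS : StarType L r) (hM : MatchType L r) :
    ∃ K : ℕ, ∀ n, extremalNumber n L ≤ tur r n + K := by
  classical
  obtain ⟨N, hN⟩ := exists_config L r hr hnc hS hM 0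
  have hLne := ne_bot_of_not_colorable L r (by omega) hnc
  set B := 8 * r * card W * card W with hB
  refine ⟨max (B * B) ((Finset.range N).sup (fun n => extremalNumber n L)), ?_⟩
  intro n
  by_cases hn : N ≤ n
  · refine le_trans ?_ (Nat.add_le_add_left (le_max_left _ _) _)
    obtain ⟨G₁, _, hG₁⟩ := exists_isExtremal_free (V := Fin n) hLne
    have hcard := card_edgeFinset_of_isExtremal_free hG₁
    rw [Fintype.card_fin] at hcard
    have hG₁free := hG₁.prop
    have h1 := tur_le_extremal L r (by omega) hnc n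
    obtain ⟨e, he⟩ : ∃ e, extremalNumber n L = tur r n + e :=
      ⟨extremalNumber n L - tur r n, by omega⟩
    have h2 : pr G₁ = 2 * #G₁.edgeFinset := pr_eq G₁
    obtain ⟨h, hh, H, c, -, -, hexc⟩ := hN n hn G₁ ∅ e (by simp)
      (fun f => absurd ⟨f⟩ hG₁free) (by omega)
    have h3 : inn H c ≤ h * h := by
      unfold inn
      refine (card_le_univ _).trans ?_
      rw [Fintype.card_prod, Fintype.card_fin]
    have h4 : (2 * e : ℤ) ≤ inn H c := by
      unfold excess at hexc
      linarith [(Int.natCast_nonneg (mis H c))]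
    have h5 : 2 * e ≤ inn H c := by exact_mod_cast h4
    have h6 : h * h ≤ B * B := Nat.mul_le_mul hh hh
    omega
  · refine le_trans ?_ (Nat.add_le_add_left (le_max_right _ _) _)
    have h1 : extremalNumber n L ≤ (Finset.range N).sup (fun n => extremalNumber n L) :=
      Finset.le_sup (f := fun n => extremalNumber n L) (Finset.mem_range.mpr (by omega))
    omega

/-- For every `r ≥ 2` there is a connected graph with `6 r + 12` vertices and chromatic number
`r + 1` with `ex(n; L) = t_r(n) + O(1)` and `Gap L r`. -/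
theorem exists_gap (r : ℕ) (hr : 2 ≤ r) : ∃ (W : Type) (_ : Fintype W) (L : SimpleGraph W),
    card W = 6 * r + 12 ∧ L.Connected ∧ L.Colorable (r + 1) ∧ ¬ L.Colorable r ∧
      (∃ K : ℕ, ∀ n, extremalNumber n L ≤ tur r n + K) ∧ Gap L r := by
  obtain ⟨k, rfl⟩ : ∃ k, r = k + 2 := ⟨r - 2, by omega⟩
  obtain ⟨W, _, L, S, hW, h⟩ := exists_good k
  exact ⟨W, inferInstance, L, hW, h.conn, h.colorable, h.not_colorable,
    bdd_of_types L (k + 2) hr h.not_colorable h.starType h.matchType, h.gap⟩

end Pool.Agent.Exo.Gen
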