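import Pool.Agent.Exo.Gen

/-!
# The inductive step: a graph with one more class
-/

open Finset Fintype Filter

namespace Pool.Agent.Exo.Gen

open SimpleGraph Pool.Agent.Helper49.Copies

/-- Add three vertices `C i` joined to all vertices of `L` and three vertices `C' i`, where `C' i`
is joined to `C i` and to the vertices of `S`. -/
def stp {W : Type} (L : SimpleGraph W) (S : Finset W) : SimpleGraph (W ⊕ (Fin 3 ⊕ Fin 3)) where
  Adj x y := match x, y with
    | Sum.inl a, Sum.inl b => L.Adj a b
    | Sum.inl _, Sum.inr (Sum.inl _) => True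
    | Sum.inr (Sum.inl _), Sum.inl _ => True
    | Sum.inl a, Sum.inr (Sum.inr _) => a ∈ S
    | Sum.inr (Sum.inr _), Sum.inl a => a ∈ S
    | Sum.inr (Sum.inl i), Sum.inr (Sum.inr j) => i = j
    | Sum.inr (Sum.inr i), Sum.inr (Sum.inl j) => i = j
    | _, _ => False
  symm := by
    constructor
    rintro (a | a | a) (b | b | b) h
    · exact (show L.Adj a b from h).symm
    · trivial
    · exact h
    · trivial
    · exact h
    · exact (show a = b from h).symm
    · exact h
    · exact (show a = b from h).symm
    · exact h
  loopless := by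
    constructor
    rintro (a | a | a) h
    · exact (show L.Adj a a from h).ne rfl
    · exact h
    · exact h

open Classical in
/-- The new set. -/
noncomputable def stpS {W : Type} (S : Finset W) : Finset (W ⊕ (Fin 3 ⊕ Fin 3)) :=
  S.map ⟨Sum.inl, Sum.inl_injective⟩ ∪ {Sum.inr (Sum.inl 0)}

end Pool.Agent.Exo.Gen
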