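import Pool.Agent.Exo.GenStep

/-!
# The inductive step: the maps
-/

open Finset Fintype Filter

namespace Pool.Agent.Exo.Gen

open SimpleGraph Pool.Agent.Helper49.Copies

theorem stp_connected {W : Type} [Fintype W] (L : SimpleGraph W) (S : Finset W)
    (h : L.Connected) : (stp L S).Connected := by
  obtain ⟨w0⟩ := h.nonempty
  have hC : ∀ (a : W) (i : Fin 3), (stp L S).Adj (Sum.inl a) (Sum.inr (Sum.inl i)) :=
    fun a i => trivial
  have hCC : ∀ i : Fin 3, (stp L S).Adj (Sum.inr (Sum.inl i)) (Sum.inr (Sum.inr i)) :=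
    fun i => rfl
  have key : ∀ x, (stp L S).Reachable (Sum.inl w0) x := by
    rintro (a | i | i)
    · exact (hC w0 0).reachable.trans (hC a 0).symm.reachable
    · exact (hC w0 i).reachable
    · exact (hC w0 i).reachable.trans (hCC i).reachable
  exact { preconnected := fun x y => (key x).symm.trans (key y), nonempty := ⟨Sum.inl w0⟩ }

/-- The extension of a map to one more class. -/
private def gs2Map {W : Type} {r : ℕ} (g : W → Fin r) (i : Fin r) :
    W ⊕ (Fin 3 ⊕ Fin 3) → Fin (r + 1)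
  | Sum.inl w => (g w).castSucc
  | Sum.inr (Sum.inl _) => Fin.last r
  | Sum.inr (Sum.inr _) => i.castSucc

private theorem gs2_inner {W : Type} {L : SimpleGraph W} {r : ℕ} {S : Finset W} {g : W → Fin r}
    {i : Fin r} (hS : ∀ s ∈ S, g s ≠ i) {x y : W ⊕ (Fin 3 ⊕ Fin 3)} (hxy : (stp L S).Adj x y)
    (hg : gs2Map g i x = gs2Map g i y) :
    ∃ a b, x = Sum.inl a ∧ y = Sum.inl b ∧ L.Adj a b ∧ g a = g b := by
  rcases x with a | j | j <;> rcases y with b | k | k
  · exact ⟨a, b, rfl, rfl, hxy, Fin.castSucc_injective _ hg⟩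
  · exact absurd hg (Fin.castSucc_lt_last _).ne
  · exact absurd (Fin.castSucc_injective _ hg) (hS a hxy)
  · exact absurd hg.symm (Fin.castSucc_lt_last _).ne
  · exact False.elim hxy
  · exact absurd hg.symm (Fin.castSucc_lt_last _).ne
  · exact absurd (Fin.castSucc_injective _ hg).symm (hS b hxy)
  · exact absurd hg (Fin.castSucc_lt_last _).ne
  · exact False.elim hxy

private theorem gs2_miss {W : Type} {r : ℕ} {S : Finset W} {g : W → Fin r}
    {i : Fin r} (hS : ∀ s ∈ S, g s ≠ i) : ∀ s ∈ stpS S, gs2Map g i s ≠ i.castSucc := by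
  intro s hs
  unfold stpS at hs
  simp only [Finset.mem_union, Finset.mem_map, Finset.mem_singleton] at hs
  rcases hs with ⟨a, ha, rfl⟩ | rfl
  · exact fun h => hS a ha (Fin.castSucc_injective _ h)
  · exact fun h => absurd h.symm (Fin.castSucc_lt_last _).ne

theorem stp_star {W : Type} [Fintype W] (L : SimpleGraph W) (r : ℕ) (S : Finset W)
    (h : HasStar L r S) : HasStar (stp L S) (r + 1) (stpS S) := by
  obtain ⟨v, y, z, g, i, h1, h2, h3, h4, h5, h6, h7, h8⟩ := h
  refine ⟨Sum.inl v, Sum.inl y, Sum.inl z, gs2Map g i, i.castSucc,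
    fun h => h1 (Sum.inl_injective h), fun h => h2 (Sum.inl_injective h),
    fun h => h3 (Sum.inl_injective h), congrArg Fin.castSucc h4, congrArg Fin.castSucc h5,
    fun a b hab ha hb hg => ?_, fun b hb hg => ?_, gs2_miss h8⟩
  · obtain ⟨a', b', rfl, rfl, hab', hg'⟩ := gs2_inner h8 hab hg
    exact h6 a' b' hab' (fun h => ha (congrArg Sum.inl h)) (fun h => hb (congrArg Sum.inl h)) hg'
  · obtain ⟨a', b', ha', rfl, hab', hg'⟩ := gs2_inner h8 hb hg.symm
    have hva : v = a' := Sum.inl_injective ha'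
    subst hva
    rcases h7 b' hab' hg'.symm with h | h
    · exact Or.inl (congrArg Sum.inl h)
    · exact Or.inr (congrArg Sum.inl h)

theorem stp_match {W : Type} [Fintype W] (L : SimpleGraph W) (r : ℕ) (S : Finset W)
    (h : HasMatch L r S) : HasMatch (stp L S) (r + 1) (stpS S) := by
  classical
  obtain ⟨g, i₀, i, h1, h2, h3, h4⟩ := h
  refine ⟨gs2Map g i, i₀.castSucc, i.castSucc, ?_, ?_, ?_, gs2_miss h4⟩
  · intro a b b' hab hg hab' hg'
    obtain ⟨a1, b1, rfl, rfl, hab1, hg1⟩ := gs2_inner h4 hab hg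
    obtain ⟨a2, b2, ha2, rfl, hab2, hg2⟩ := gs2_inner h4 hab' hg'
    have e : a1 = a2 := Sum.inl_injective ha2
    subst e
    exact congrArg Sum.inl (h1 a1 b1 b2 hab1 hg1 hab2 hg2)
  · intro a b hab hg
    obtain ⟨a1, b1, rfl, rfl, hab1, hg1⟩ := gs2_inner h4 hab hg
    exact congrArg Fin.castSucc (h2 a1 b1 hab1 hg1)
  · refine le_trans ?_ h3
    rw [← Finset.card_map (⟨Sum.inl, Sum.inl_injective⟩ : W ↪ W ⊕ (Fin 3 ⊕ Fin 3))]
    refine Finset.card_le_card fun x hx => ?_
    obtain ⟨-, y, hxy, hg⟩ := Finset.mem_filter.1 hx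
    obtain ⟨a1, b1, rfl, rfl, hab1, hg1⟩ := gs2_inner h4 hxy hg
    rw [Finset.mem_map]
    exact ⟨a1, Finset.mem_filter.2 ⟨Finset.mem_univ _, b1, hab1, hg1⟩, rfl⟩

/-- The extension of a perfect map. -/
private def gs2Perf {W : Type} {r : ℕ} (g : W → Fin r) : W ⊕ (Fin 3 ⊕ Fin 3) → Fin (r + 1)
  | Sum.inl w => (g w).castSucc
  | Sum.inr _ => Fin.last r

private theorem gs2_perf_inner {W : Type} {L : SimpleGraph W} {r : ℕ} {S : Finset W}
    {g : W → Fin r} {x y : W ⊕ (Fin 3 ⊕ Fin 3)} (hxy : (stp L S).Adj x y)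
    (hg : gs2Perf g x = gs2Perf g y) :
    (∃ a b, x = Sum.inl a ∧ y = Sum.inl b ∧ L.Adj a b ∧ g a = g b) ∨
      (∃ i : Fin 3, x = Sum.inr (Sum.inl i) ∧ y = Sum.inr (Sum.inr i)) ∨
      ∃ i : Fin 3, x = Sum.inr (Sum.inr i) ∧ y = Sum.inr (Sum.inl i) := by
  rcases x with a | j | j <;> rcases y with b | k | k
  · exact Or.inl ⟨a, b, rfl, rfl, hxy, Fin.castSucc_injective _ hg⟩
  · exact absurd hg (Fin.castSucc_lt_last _).ne
  · exact absurd hg (Fin.castSucc_lt_last _).ne
  · exact absurd hg.symm (Fin.castSucc_lt_last _).ne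
  · exact False.elim hxy
  · have e : j = k := hxy
    subst e
    exact Or.inr (Or.inl ⟨j, rfl, rfl⟩)
  · exact absurd hg.symm (Fin.castSucc_lt_last _).ne
  · have e : j = k := hxy
    subst e
    exact Or.inr (Or.inr ⟨j, rfl, rfl⟩)
  · exact False.elim hxy

theorem stp_perf {W : Type} [Fintype W] (L : SimpleGraph W) (r : ℕ) (S : Finset W)
    (h : ∃ g : W → Fin r, Mat L g ∧ Small L g) :
    ∃ g : W ⊕ (Fin 3 ⊕ Fin 3) → Fin (r + 1), Mat (stp L S) g ∧ Small (stp L S) g := by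
  classical
  obtain ⟨g, h1, h2⟩ := h
  refine ⟨gs2Perf g, ?_, ?_⟩
  · intro a b b' hab hg hab' hg'
    rcases gs2_perf_inner hab hg with ⟨a1, b1, rfl, rfl, hab1, hg1⟩ | ⟨i, rfl, rfl⟩ | ⟨i, rfl, rfl⟩
    · rcases gs2_perf_inner hab' hg' with ⟨a2, b2, ha2, rfl, hab2, hg2⟩ | ⟨j, hj, rfl⟩ | ⟨j, hj, rfl⟩
      · have e : a1 = a2 := Sum.inl_injective ha2
        subst e
        exact congrArg Sum.inl (h1 a1 b1 b2 hab1 hg1 hab2 hg2)
      · exact absurd hj (by simp)
      · exact absurd hj (by simp)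
    · rcases gs2_perf_inner hab' hg' with ⟨a2, b2, ha2, rfl, hab2, hg2⟩ | ⟨j, hj, rfl⟩ | ⟨j, hj, rfl⟩
      · exact absurd ha2 (by simp)
      · have e : i = j := Sum.inl_injective (Sum.inr_injective hj)
        rw [e]
      · exact absurd hj (by simp)
    · rcases gs2_perf_inner hab' hg' with ⟨a2, b2, ha2, rfl, hab2, hg2⟩ | ⟨j, hj, rfl⟩ | ⟨j, hj, rfl⟩
      · exact absurd ha2 (by simp)
      · exact absurd hj (by simp)
      · have e : i = j := Sum.inr_injective (Sum.inr_injective hj)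
        rw [e]
  · intro k
    refine Fin.lastCases ?_ (fun j => ?_) k
    · refine (Finset.card_le_card (t := (Finset.univ : Finset (Fin 3 ⊕ Fin 3)).map
        ⟨Sum.inr, Sum.inr_injective⟩) (fun x hx => ?_)).trans ?_
      · simp only [Finset.mem_filter, Finset.mem_univ, true_and] at hx
        obtain ⟨hx1, -⟩ := hx
        rw [Finset.mem_map]
        rcases x with a | p
        · exact absurd hx1 (Fin.castSucc_lt_last _).ne
        · exact ⟨p, Finset.mem_univ _, rfl⟩
      · rw [Finset.card_map, Finset.card_univ]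
        simp
    · refine le_trans ?_ (h2 j)
      rw [← Finset.card_map (⟨Sum.inl, Sum.inl_injective⟩ : W ↪ W ⊕ (Fin 3 ⊕ Fin 3))]
      refine Finset.card_le_card fun x hx => ?_
      simp only [Finset.mem_filter, Finset.mem_univ, true_and] at hx
      obtain ⟨hx1, y, hxy, hg⟩ := hx
      rw [Finset.mem_map]
      rcases gs2_perf_inner hxy hg with ⟨a1, b1, rfl, rfl, hab1, hg1⟩ | ⟨i, rfl, rfl⟩ | ⟨i, rfl, rfl⟩
      · refine ⟨a1, ?_, rfl⟩
        simp only [Finset.mem_filter, Finset.mem_univ, true_and]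
        exact ⟨Fin.castSucc_injective _ hx1, b1, hab1, hg1⟩
      · exact absurd hx1.symm (Fin.castSucc_lt_last _).ne
      · exact absurd hx1.symm (Fin.castSucc_lt_last _).ne

end Pool.Agent.Exo.Gen
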