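import Pool.Agent.Exo.GenStep2
import Pool.Agent.Exo.GenCol

/-!
# The inductive step
-/

open Finset Fintype Filter

namespace Pool.Agent.Exo.Gen

open SimpleGraph Pool.Agent.Helper49.Copies

theorem stp_uniq {W : Type} [Fintype W] (L : SimpleGraph W) (r : ℕ) (S : Finset W)
    (h : Good L r S) (g : W ⊕ (Fin 3 ⊕ Fin 3) → Fin (r + 1)) (hm : Mat (stp L S) g)
    (hs : Small (stp L S) g) :
    (∀ a, ∃ b, (stp L S).Adj a b ∧ g a = g b) ∧ ∀ i, ∃ s ∈ stpS S, g s = i := by
  classical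
  obtain ⟨t, hC, hW⟩ := stp_colours L r S h.phi g hm
  -- the restricted map
  have hex : ∀ w, ∃ j : Fin r, t.succAbove j = g (Sum.inl w) := fun w =>
    Fin.exists_succAbove_eq (hW w)
  choose f hf using hex
  have hff : ∀ a b, f a = f b ↔ g (Sum.inl a) = g (Sum.inl b) := by
    intro a b
    constructor
    · intro hab
      rw [← hf a, ← hf b, hab]
    · intro hab
      rw [← hf a, ← hf b] at hab
      exact Fin.succAbove_right_injective hab
  have hfM : Mat L f := by
    intro a b b' hab h1 hab' h2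
    have := hm (Sum.inl a) (Sum.inl b) (Sum.inl b') hab ((hff a b).1 h1) hab' ((hff a b').1 h2)
    simpa using this
  have hfS : Small L f := by
    intro i
    refine le_trans ?_ (hs (t.succAbove i))
    refine card_le_card_of_injOn (fun w => (Sum.inl w : W ⊕ (Fin 3 ⊕ Fin 3))) ?_ ?_
    · intro a ha
      have ha' := ha
      simp only [coe_filter, Finset.mem_univ, true_and, Set.mem_ofPred_eq] at ha'
      obtain ⟨h1, b, hab, hb⟩ := ha'
      simp only [coe_filter, Finset.mem_univ, true_and, Set.mem_ofPred_eq]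
      refine ⟨?_, Sum.inl b, hab, (hff a b).1 hb⟩
      rw [← hf a, h1]
    · intro a _ b _ hab
      exact Sum.inl_injective hab
  obtain ⟨hcov, hmeet⟩ := h.uniq f hfM hfS
  -- colours of `C' i`
  have hC' : ∀ i, g (Sum.inr (Sum.inr i)) = t := by
    intro i
    by_contra hne
    obtain ⟨j, hj⟩ := Fin.exists_succAbove_eq hne
    obtain ⟨s, hsS, hs1⟩ := hmeet j
    obtain ⟨b, hb, hfb⟩ := hcov s
    have e1 : g (Sum.inl s) = g (Sum.inr (Sum.inr i)) := by
      rw [← hf s, hs1, hj]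
    have := hm (Sum.inl s) (Sum.inl b) (Sum.inr (Sum.inr i)) hb ((hff s b).1 hfb) hsS e1
    simp at this
  refine ⟨?_, ?_⟩
  · rintro (a | i | i)
    · obtain ⟨b, hb, hfb⟩ := hcov a
      exact ⟨Sum.inl b, hb, (hff a b).1 hfb⟩
    · exact ⟨Sum.inr (Sum.inr i), (rfl : i = i), by rw [hC, hC']⟩
    · exact ⟨Sum.inr (Sum.inl i), (rfl : i = i), by rw [hC, hC']⟩
  · intro i
    by_cases hi : i = t
    · refine ⟨Sum.inr (Sum.inl 0), ?_, by rw [hC, hi]⟩
      simp [stpS]
    · obtain ⟨j, hj⟩ := Fin.exists_succAbove_eq hi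
      obtain ⟨s, hsS, hs1⟩ := hmeet j
      refine ⟨Sum.inl s, ?_, ?_⟩
      · simp [stpS, hsS]
      · rw [← hf s, hs1, hj]

end Pool.Agent.Exo.Gen
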