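import Pool.Agent.Exo.Rich
import Pool.Agent.Exo.Few

/-!
# A good partition has few inner edges
-/

open Finset Fintype Filter

namespace Pool.Agent.Exo

open SimpleGraph Pool.Agent.Helper49.Copies

/-- A small subset `Z` of the class `i₀` can be completed by a complete multipartite graph avoiding
`D` which is joined to `Z` outside the class `i₀`. -/
theorem inner_aux {V W : Type} [Fintype V] [Fintype W] [DecidableEq V]
    (G : SimpleGraph V) (r : ℕ) (D : Finset V) (j : V → Fin r) (σ : ℕ)
    (hgood : ∀ x l, l ≠ j x → mg G (cls j l) x ≤ σ)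
    (hbig : ∀ l, (2 * card W + 1) * σ + r * card W * σ + 3 * card W + 1 + #D ≤ #(cls j l))
    (i₀ : Fin r) (Z : Finset V) (hZ : Z ⊆ cls j i₀) (hZc : #Z ≤ 2 * card W + 1) :
    ∃ A : Fin r → Finset V, (∀ i, card W ≤ #(A i)) ∧
      (∀ i l, i ≠ l → ∀ a ∈ A i, ∀ b ∈ A l, G.Adj a b) ∧ (∀ i, ∀ a ∈ A i, a ∉ D) ∧
      (∀ a ∈ A i₀, a ∉ Z) ∧ ∀ l, l ≠ i₀ → ∀ a ∈ A l, ∀ z ∈ Z, G.Adj z a := by
  classical
  have hjZ : ∀ z ∈ Z, j z = i₀ := by
    intro z hz
    have := hZ hz
    simpa [cls] using this
  -- the sets from which we choose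
  set S : Fin r → Finset V := fun l =>
    if l = i₀ then (cls j i₀ \ D) \ Z else {y ∈ cls j l \ D | ∀ z ∈ Z, G.Adj z y} with hS
  have hScls : ∀ l, S l ⊆ cls j l := by
    intro l y hy
    by_cases hl : l = i₀
    · rw [hS] at hy
      simp only [hl, if_true, Finset.mem_sdiff] at hy
      rw [hl]
      exact hy.1.1
    · rw [hS] at hy
      simp only [hl, if_false, mem_filter, Finset.mem_sdiff] at hy
      exact hy.1.1
  have hSD : ∀ l, ∀ y ∈ S l, y ∉ D := by
    intro l y hy
    by_cases hl : l = i₀
    · rw [hS] at hy
      simp only [hl, if_true, Finset.mem_sdiff] at hy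
      exact hy.1.2
    · rw [hS] at hy
      simp only [hl, if_false, mem_filter, Finset.mem_sdiff] at hy
      exact hy.1.2
  have hcard : ∀ l, r * card W * σ + card W ≤ #(S l) := by
    intro l
    have h1 := hbig l
    by_cases hl : l = i₀
    · have h2 : #(cls j l) ≤ #(S l) + #D + #Z := by
        have h3 : cls j l ⊆ S l ∪ (D ∪ Z) := by
          intro y hy
          rw [mem_union, mem_union]
          by_cases hyD : y ∈ D
          · exact Or.inr (Or.inl hyD)
          · by_cases hyZ : y ∈ Z
            · exact Or.inr (Or.inr hyZ)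
            · left
              rw [hS]
              simp only [hl, if_true, Finset.mem_sdiff]
              rw [hl] at hy
              exact ⟨⟨hy, hyD⟩, hyZ⟩
        have h4 := card_le_card h3
        have h5 := card_union_le (S l) (D ∪ Z)
        have h6 := card_union_le D Z
        omega
      omega
    · have h2 : #(cls j l) ≤ #(S l) + #D + #Z * σ := by
        have h3 : cls j l ⊆ S l ∪ (D ∪ Z.biUnion fun z => {y ∈ cls j l | ¬ G.Adj z y}) := by
          intro y hy
          rw [mem_union, mem_union]
          by_cases hyD : y ∈ D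
          · exact Or.inr (Or.inl hyD)
          · by_cases hyZ : ∀ z ∈ Z, G.Adj z y
            · left
              rw [hS]
              simp only [hl, if_false, mem_filter, Finset.mem_sdiff]
              exact ⟨⟨hy, hyD⟩, hyZ⟩
            · right; right
              push Not at hyZ
              obtain ⟨z, hz, hzy⟩ := hyZ
              exact mem_biUnion.2 ⟨z, hz, mem_filter.2 ⟨hy, hzy⟩⟩
        have h4 := card_le_card h3
        have h5 := card_union_le (S l) (D ∪ Z.biUnion fun z => {y ∈ cls j l | ¬ G.Adj z y})
        have h6 := card_union_le D (Z.biUnion fun z => {y ∈ cls j l | ¬ G.Adj z y})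
        have h7 : #(Z.biUnion fun z => {y ∈ cls j l | ¬ G.Adj z y}) ≤ #Z * σ := by
          apply card_biUnion_le_card_mul
          intro z hz
          have h8 := hgood z l (by rw [hjZ z hz]; exact hl)
          unfold mg at h8
          convert h8
        omega
      have h3 : #Z * σ ≤ (2 * card W + 1) * σ := Nat.mul_le_mul_right _ hZc
      omega
  obtain ⟨A, hAS, hAc, hAA⟩ := greedy_multipartite G r (card W) σ S hcard (by
    intro i l hil v hv
    have hjv : j v = i := by
      have := hScls i hv
      simpa [cls] using this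
    have h8 := hgood v l (by rw [hjv]; exact hil.symm)
    unfold mg at h8
    refine le_trans (card_le_card ?_) h8
    intro y hy
    rw [mem_filter] at hy ⊢
    exact ⟨hScls l hy.1, hy.2⟩)
  refine ⟨A, fun i => (hAc i).ge, hAA, fun i a ha => hSD i a (hAS i ha), fun a ha => ?_,
    fun l hl a ha => ?_⟩
  · have h1 := hAS i₀ ha
    rw [hS] at h1
    simp only [if_true, Finset.mem_sdiff] at h1
    exact h1.2
  · have h1 := hAS l ha
    rw [hS] at h1
    simp only [hl, if_false, mem_filter] at h1
    exact h1.2

theorem inner_of_good {V W : Type} [Fintype V] [Fintype W] [DecidableEq V] (L : SimpleGraph W)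
    (G : SimpleGraph V) (r : ℕ) (hr : 2 ≤ r) (hnc : ¬ L.Colorable r) (hS : StarType L r)
    (hM : MatchType L r) (D : Finset V) (hD : IsCore L G D) (j : V → Fin r) (σ : ℕ)
    (hgood : ∀ x l, l ≠ j x → mg G (cls j l) x ≤ σ)
    (hbig : ∀ l, (2 * card W + 1) * σ + r * card W * σ + 3 * card W + 1 + #D ≤ #(cls j l)) :
    inn G j ≤ 4 * r * card W * card W := by
  classical
  have key : ∀ i₀ : Fin r, ∑ x ∈ cls j i₀, dg G (cls j i₀) x ≤ 4 * card W * card W := by
    intro i₀
    apply few_inner
    · intro w hw
      by_contra hcon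
      push Not at hcon
      obtain ⟨S, hSS, hSc⟩ := exists_subset_card_eq hcon.le
      have hS1 : ∀ y ∈ S, y ∈ cls j i₀ ∧ G.Adj w y := by
        intro y hy
        have := hSS hy
        rw [mem_filter] at this
        exact this
      obtain ⟨A, h1, h2, h3, h4, h5⟩ := inner_aux (W := W) G r D j σ hgood hbig i₀ (insert w S)
        (by
          intro y hy
          rcases mem_insert.1 hy with rfl | hy
          · exact hw
          · exact (hS1 y hy).1)
        ((card_insert_le _ _).trans (by omega))
      obtain ⟨f, x, i, hf⟩ := star_copy_in L G r hr hnc hS A h2 h1 i₀ w S hSc.ge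
        (fun y hy => (hS1 y hy).2)
        (fun l hl a ha => ⟨h5 l hl a ha w (mem_insert_self _ _),
          fun y hy => h5 l hl a ha y (mem_insert_of_mem hy)⟩)
        (fun h => h4 w h (mem_insert_self _ _))
        (fun y hy h => h4 y h (mem_insert_of_mem hy))
      exact h3 i _ hf (hD f x)
    · rintro ⟨p, q, hpq, hp, hq, hne⟩
      obtain ⟨A, h1, h2, h3, h4, h5⟩ := inner_aux (W := W) G r D j σ hgood hbig i₀
        (univ.image p ∪ univ.image q)
        (by
          intro y hy
          rw [mem_union, mem_image, mem_image] at hy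
          rcases hy with ⟨k, -, rfl⟩ | ⟨k, -, rfl⟩
          · exact (hpq k).1
          · exact (hpq k).2.1)
        (by
          have e1 := card_union_le (univ.image p) (univ.image q)
          have e2 : #(univ.image p) ≤ card W := card_image_le.trans (by simp)
          have e3 : #(univ.image q) ≤ card W := card_image_le.trans (by simp)
          omega)
      have hpZ : ∀ k, p k ∈ univ.image p ∪ univ.image q := fun k =>
        mem_union_left _ (mem_image_of_mem _ (mem_univ _))
      have hqZ : ∀ k, q k ∈ univ.image p ∪ univ.image q := fun k =>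
        mem_union_right _ (mem_image_of_mem _ (mem_univ _))
      obtain ⟨f, x, i, hf⟩ := match_copy_in L G r hr hnc hM A h2 h1 i₀ p q
        (fun k => (hpq k).2.2) hp hq hne
        (fun l hl a ha k => ⟨h5 l hl a ha _ (hpZ k), h5 l hl a ha _ (hqZ k)⟩)
        (fun k => ⟨fun h => h4 _ h (hpZ k), fun h => h4 _ h (hqZ k)⟩)
      exact h3 i _ hf (hD f x)
  rw [inn_eq]
  calc ∑ i, ∑ x ∈ cls j i, dg G (cls j i) x ≤ ∑ _i : Fin r, 4 * card W * card W :=
        sum_le_sum fun i _ => key i
    _ = 4 * r * card W * card W := by
        rw [sum_const, card_univ, Fintype.card_fin, smul_eq_mul]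
        ring

end Pool.Agent.Exo
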