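import Pool.Agent.Exo.Tur

/-!
# The graph of a configuration on `n` vertices
-/

open Finset Fintype Filter

namespace Pool.Agent.Exo

open SimpleGraph Pool.Agent.Helper49.Copies

/-- The class of a vertex of the host. -/
def lowCl {r h : ℕ} (c : Fin h → Fin r) : Fin h ⊕ (Fin r × ℕ) → Fin r
  | Sum.inl a => c a
  | Sum.inr p => p.1

/-- The residue class of `x`. -/
def lowJ {r n : ℕ} (hr : 1 ≤ r) (x : Fin n) : Fin r := ⟨(x : ℕ) % r, Nat.mod_lt _ hr⟩

/-- The vertex `x < n` as a vertex of the host. -/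
def lowPhi {r h n : ℕ} (hr : 1 ≤ r) (c : Fin h → Fin r) (x : Fin n) : Fin h ⊕ (Fin r × ℕ) :=
  if hx : (x : ℕ) / r < h then
    if c ⟨(x : ℕ) / r, hx⟩ = lowJ hr x then Sum.inl ⟨(x : ℕ) / r, hx⟩
    else Sum.inr (lowJ hr x, (x : ℕ))
  else Sum.inr (lowJ hr x, (x : ℕ))

theorem lowPhi_spec {r h n : ℕ} (hr : 1 ≤ r) (c : Fin h → Fin r) (x : Fin n) :
    (∃ a : Fin h, lowPhi hr c x = Sum.inl a ∧ (a : ℕ) = (x : ℕ) / r ∧ c a = lowJ hr x) ∨
      lowPhi hr c x = Sum.inr (lowJ hr x, (x : ℕ)) := by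
  unfold lowPhi
  split_ifs with hx hc
  · exact Or.inl ⟨_, rfl, rfl, hc⟩
  · exact Or.inr rfl
  · exact Or.inr rfl

theorem lowCl_lowPhi {r h n : ℕ} (hr : 1 ≤ r) (c : Fin h → Fin r) (x : Fin n) :
    lowCl c (lowPhi hr c x) = lowJ hr x := by
  rcases lowPhi_spec hr c x with ⟨a, h1, -, h3⟩ | h1
  · rw [h1]; exact h3
  · rw [h1]; rfl

theorem lowPhi_injective {r h n : ℕ} (hr : 1 ≤ r) (c : Fin h → Fin r) :
    Function.Injective (lowPhi (n := n) hr c) := by
  intro x y hxy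
  have hj : lowJ hr x = lowJ hr y := by
    rw [← lowCl_lowPhi hr c x, ← lowCl_lowPhi hr c y, hxy]
  have hj' : (x : ℕ) % r = (y : ℕ) % r := congrArg Fin.val hj
  rcases lowPhi_spec hr c x with ⟨a, h1, h2, -⟩ | h1
  · rcases lowPhi_spec hr c y with ⟨b, h4, h5, -⟩ | h4
    · rw [h1, h4, Sum.inl.injEq] at hxy
      subst hxy
      apply Fin.ext
      rw [← Nat.div_add_mod (x : ℕ) r, ← Nat.div_add_mod (y : ℕ) r, ← h2, ← h5, hj']
    · rw [h1, h4] at hxy
      exact absurd hxy (by simp)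
  · rcases lowPhi_spec hr c y with ⟨b, h4, -, -⟩ | h4
    · rw [h1, h4] at hxy
      exact absurd hxy (by simp)
    · rw [h1, h4, Sum.inr.injEq, Prod.mk.injEq] at hxy
      exact Fin.ext hxy.2

/-- A pair of the host that is adjacent inside a class, or non-adjacent in different classes,
consists of old vertices. -/
theorem lowHost_adj {r h : ℕ} (H : SimpleGraph (Fin h)) (c : Fin h → Fin r)
    (u v : Fin h ⊕ (Fin r × ℕ)) :
    (∃ a b, u = Sum.inl a ∧ v = Sum.inl b) ∨ ((host H c).Adj u v ↔ lowCl c u ≠ lowCl c v) := by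
  rcases u with a | p
  · rcases v with b | q
    · exact Or.inl ⟨a, b, rfl, rfl⟩
    · exact Or.inr Iff.rfl
  · rcases v with b | q
    · exact Or.inr Iff.rfl
    · exact Or.inr Iff.rfl

/-- The old vertex `a` as a number below `n`. -/
def lowE {r h n : ℕ} (c : Fin h → Fin r) (hn : r * h ≤ n) (a : Fin h) : Fin n :=
  ⟨r * (a : ℕ) + (c a : ℕ), by
    have h1 : r * (a : ℕ) + r ≤ r * h := by
      rw [← Nat.mul_succ]; exact Nat.mul_le_mul_left r a.2
    have h2 := (c a).2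
    omega⟩

theorem lowJ_lowE {r h n : ℕ} (hr : 1 ≤ r) (c : Fin h → Fin r) (hn : r * h ≤ n) (a : Fin h) :
    lowJ hr (lowE c hn a) = c a := by
  apply Fin.ext
  show (r * (a : ℕ) + (c a : ℕ)) % r = c a
  rw [Nat.mul_add_mod, Nat.mod_eq_of_lt (c a).2]

theorem lowE_div {r h n : ℕ} (hr : 1 ≤ r) (c : Fin h → Fin r) (hn : r * h ≤ n) (a : Fin h) :
    (lowE c hn a : ℕ) / r = a := by
  show (r * (a : ℕ) + (c a : ℕ)) / r = a
  rw [Nat.mul_add_div hr, Nat.div_eq_of_lt (c a).2, add_zero]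

theorem lowPhi_lowE {r h n : ℕ} (hr : 1 ≤ r) (c : Fin h → Fin r) (hn : r * h ≤ n) (a : Fin h) :
    lowPhi hr c (lowE c hn a) = Sum.inl a := by
  have h1 := lowE_div hr c hn a
  have h2 : (lowE c hn a : ℕ) / r < h := by rw [h1]; exact a.2
  have h3 : (⟨(lowE c hn a : ℕ) / r, h2⟩ : Fin h) = a := Fin.ext h1
  unfold lowPhi
  rw [dif_pos h2, if_pos, h3]
  rw [h3, lowJ_lowE]

theorem lowPhi_eq_inl {r h n : ℕ} (hr : 1 ≤ r) (c : Fin h → Fin r) (hn : r * h ≤ n) (x : Fin n)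
    (a : Fin h) (hx : lowPhi hr c x = Sum.inl a) : x = lowE c hn a := by
  apply lowPhi_injective hr c
  rw [hx, lowPhi_lowE]

theorem lowE_injective {r h n : ℕ} (hr : 1 ≤ r) (c : Fin h → Fin r) (hn : r * h ≤ n) :
    Function.Injective (lowE c hn : Fin h → Fin n) := by
  intro a b hab
  have h1 := lowPhi_lowE hr c hn a
  rw [hab, lowPhi_lowE, Sum.inl.injEq] at h1
  exact h1.symm

theorem low_inn {r h n : ℕ} (hr : 1 ≤ r) (H : SimpleGraph (Fin h)) (c : Fin h → Fin r)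
    (hn : r * h ≤ n) :
    inn ((host H c).comap (lowPhi (n := n) hr c)) (lowJ hr) = inn H c := by
  classical
  unfold inn
  symm
  refine Finset.card_bij (fun p _ => (lowE c hn p.1, lowE c hn p.2)) ?_ ?_ ?_
  · rintro ⟨a, b⟩ hp
    simp only [Finset.mem_filter, Finset.mem_univ, true_and] at hp ⊢
    rw [SimpleGraph.comap_adj, lowPhi_lowE, lowPhi_lowE, lowJ_lowE, lowJ_lowE]
    exact hp
  · rintro ⟨a, b⟩ - ⟨a', b'⟩ - hp
    rw [Prod.mk.injEq] at hp
    exact Prod.ext (lowE_injective hr c hn hp.1) (lowE_injective hr c hn hp.2)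
  · rintro ⟨x, y⟩ hp
    simp only [Finset.mem_filter, Finset.mem_univ, true_and] at hp
    rw [SimpleGraph.comap_adj] at hp
    rcases lowHost_adj H c (lowPhi hr c x) (lowPhi hr c y) with ⟨a, b, ha, hb⟩ | h1
    · have hx := lowPhi_eq_inl hr c hn x a ha
      have hy := lowPhi_eq_inl hr c hn y b hb
      refine ⟨(a, b), ?_, ?_⟩
      · simp only [Finset.mem_filter, Finset.mem_univ, true_and]
        rw [ha, hb, hx, hy, lowJ_lowE, lowJ_lowE] at hp
        exact hp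
      · rw [hx, hy]
    · exfalso
      rw [h1, lowCl_lowPhi, lowCl_lowPhi] at hp
      exact hp.1 hp.2

theorem low_mis {r h n : ℕ} (hr : 1 ≤ r) (H : SimpleGraph (Fin h)) (c : Fin h → Fin r)
    (hn : r * h ≤ n) :
    mis ((host H c).comap (lowPhi (n := n) hr c)) (lowJ hr) = mis H c := by
  classical
  unfold mis
  symm
  refine Finset.card_bij (fun p _ => (lowE c hn p.1, lowE c hn p.2)) ?_ ?_ ?_
  · rintro ⟨a, b⟩ hp
    simp only [Finset.mem_filter, Finset.mem_univ, true_and] at hp ⊢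
    rw [SimpleGraph.comap_adj, lowPhi_lowE, lowPhi_lowE, lowJ_lowE, lowJ_lowE]
    exact hp
  · rintro ⟨a, b⟩ - ⟨a', b'⟩ - hp
    rw [Prod.mk.injEq] at hp
    exact Prod.ext (lowE_injective hr c hn hp.1) (lowE_injective hr c hn hp.2)
  · rintro ⟨x, y⟩ hp
    simp only [Finset.mem_filter, Finset.mem_univ, true_and] at hp
    rw [SimpleGraph.comap_adj] at hp
    rcases lowHost_adj H c (lowPhi hr c x) (lowPhi hr c y) with ⟨a, b, ha, hb⟩ | h1
    · have hx := lowPhi_eq_inl hr c hn x a ha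
      have hy := lowPhi_eq_inl hr c hn y b hb
      refine ⟨(a, b), ?_, ?_⟩
      · simp only [Finset.mem_filter, Finset.mem_univ, true_and]
        rw [ha, hb, hx, hy, lowJ_lowE, lowJ_lowE] at hp
        exact hp
      · rw [hx, hy]
    · exfalso
      rw [h1, lowCl_lowPhi, lowCl_lowPhi] at hp
      exact hp.1 hp.2

theorem low_graph {r h : ℕ} (hr : 1 ≤ r) (H : SimpleGraph (Fin h)) (c : Fin h → Fin r) :
    ∃ N : ℕ, ∀ n ≥ N, ∃ (G : SimpleGraph (Fin n)) (_ : G ↪g host H c),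
      (pr G : ℤ) = 2 * tur r n + excess H c := by
  refine ⟨r * h, fun n hn => ?_⟩
  refine ⟨(host H c).comap (lowPhi (n := n) hr c),
    SimpleGraph.Embedding.comap ⟨lowPhi hr c, lowPhi_injective hr c⟩ (host H c), ?_⟩
  have h1 := pr_add_mis_eq hr ((host H c).comap (lowPhi (n := n) hr c)) (lowJ hr) (fun x => rfl)
  rw [low_inn hr H c hn, low_mis hr H c hn] at h1
  unfold excess
  omega

end Pool.Agent.Exo
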