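import Pool.Agent.Exo.Low

/-!
# Lower bound for `ex(n; L)` from a configuration
-/

open Finset Fintype Filter

namespace Pool.Agent.Exo

open SimpleGraph Pool.Agent.Helper49.Copies

theorem lower {W : Type} [Fintype W] (L : SimpleGraph W) {r h : ℕ} (hr : 1 ≤ r)
    (H : SimpleGraph (Fin h)) (c : Fin h → Fin r) (hfree : L.Free (host H c)) :
    ∀ᶠ n : ℕ in atTop, (2 * tur r n : ℤ) + excess H c ≤ 2 * (extremalNumber n L : ℤ) := by
  classical
  obtain ⟨N, hN⟩ := low_graph hr H c
  filter_upwards [eventually_ge_atTop N] with n hn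
  obtain ⟨G, φ, hG⟩ := hN n hn
  have hGfree : L.Free G := by
    rintro ⟨f⟩
    exact hfree ⟨φ.toCopy.comp f⟩
  have h1 := card_edgeFinset_le_extremalNumber hGfree
  rw [Fintype.card_fin] at h1
  have h2 := pr_eq G
  rw [← hG]
  have : (pr G : ℤ) = 2 * (#G.edgeFinset : ℤ) := by exact_mod_cast h2
  rw [this]
  have h3 : (#G.edgeFinset : ℤ) ≤ (extremalNumber n L : ℤ) := by exact_mod_cast h1
  linarith

end Pool.Agent.Exo
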