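import Pool.Agent.Exo.Tur

/-!
# Reduction to large minimum degree
-/

open Finset Fintype Filter

namespace Pool.Agent.Exo

open SimpleGraph Pool.Agent.Helper49.Copies

open Classical in
theorem red_dg_eq {V : Type} [Fintype V] (G : SimpleGraph V) (x : V) :
    dg G univ x = ∑ y, if G.Adj x y then 1 else 0 := by
  unfold dg
  rw [Finset.card_filter]

open Classical in
theorem red_pr_eq {V : Type} [Fintype V] (G : SimpleGraph V) :
    pr G = ∑ x, ∑ y, if G.Adj x y then 1 else 0 := by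
  unfold pr
  rw [Finset.card_filter, Fintype.sum_prod_type]

/-- Deleting a vertex. -/
theorem del_vertex {W : Type} (L : SimpleGraph W) {k : ℕ} (G : SimpleGraph (Fin (k + 1)))
    (D : Finset (Fin (k + 1))) (hD : IsCore L G D) (x : Fin (k + 1)) :
    ∃ (G' : SimpleGraph (Fin k)) (D' : Finset (Fin k)), #D' ≤ #D ∧ IsCore L G' D' ∧
      pr G = pr G' + 2 * dg G univ x := by
  classical
  refine ⟨G.comap x.succAbove, univ.filter (fun y => x.succAbove y ∈ D), ?_, ?_, ?_⟩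
  · refine Finset.card_le_card_of_injOn x.succAbove ?_ (Fin.succAbove_right_injective.injOn)
    intro y hy
    simpa using hy
  · intro f w
    have h := hD ((SimpleGraph.Embedding.comap ⟨x.succAbove, Fin.succAbove_right_injective⟩ G).toCopy.comp f) w
    exact Finset.mem_filter.mpr ⟨Finset.mem_univ _, h⟩
  · rw [red_pr_eq, red_pr_eq, red_dg_eq, Fin.sum_univ_succAbove _ x]
    have h1 : ∀ u : Fin k, (∑ y, if G.Adj (x.succAbove u) y then 1 else 0)
        = (if G.Adj x (x.succAbove u) then 1 else 0)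
          + ∑ v, if (G.comap x.succAbove).Adj u v then 1 else 0 := by
      intro u
      rw [Fin.sum_univ_succAbove _ x]
      simp only [G.adj_comm x (x.succAbove u), SimpleGraph.comap_adj]
    rw [Finset.sum_congr rfl (fun u _ => h1 u), Finset.sum_add_distrib]
    have h2 : (∑ y, if G.Adj x y then 1 else 0)
        = ∑ u : Fin k, if G.Adj x (x.succAbove u) then 1 else 0 := by
      rw [Fin.sum_univ_succAbove _ x]
      simp
    rw [h2]
    ring_nf

theorem red_pr_le {k : ℕ} (G : SimpleGraph (Fin k)) : pr G ≤ k ^ 2 := by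
  classical
  unfold pr
  refine (Finset.card_le_univ _).trans ?_
  simp [sq]

theorem red_step {W : Type} (L : SimpleGraph W) (r : ℕ) (hr : 2 ≤ r) (ε : ℝ) (hε : 0 < ε)
    (N₁ N₀ : ℕ) (h1 : N₁ ≤ N₀) (h2 : 2 / ε ≤ N₀) (e : ℕ) : ∀ (i x : ℕ)
      (G : SimpleGraph (Fin (N₀ + i))) (D : Finset (Fin (N₀ + i))),
      IsCore L G D → 2 * tur r (N₀ + i) + 2 * e + 2 * x ≤ pr G → N₀ ^ 2 < 2 * (x + i) →
      ∃ n' ≥ N₁, ∃ (G' : SimpleGraph (Fin n')) (D' : Finset (Fin n')), #D' ≤ #D ∧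
        IsCore L G' D' ∧ 2 * tur r n' + 2 * e ≤ pr G' ∧
        ∀ x, (1 - 1 / (r : ℝ) - ε) * n' ≤ dg G' univ x := by
  intro i
  induction i with
  | zero =>
    intro x G D hD hp hx
    have := red_pr_le G
    simp only [Nat.add_zero] at this hp hx
    omega
  | succ i ih =>
    intro x G D hD hp hx
    by_cases hall : ∀ v, (1 - 1 / (r : ℝ) - ε) * ((N₀ + (i + 1) : ℕ) : ℝ) ≤ dg G univ v
    · exact ⟨N₀ + (i + 1), by omega, G, D, le_rfl, hD, by omega, hall⟩
    · push Not at hall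
      obtain ⟨v, hv⟩ := hall
      obtain ⟨G', D', hc, hD', hpr⟩ := del_vertex (k := N₀ + i) L G D hD v
      have ht := tur_succ r (N₀ + i) (by omega)
      have hdeg : dg G univ v + 1 ≤ (N₀ + i) - (N₀ + i) / r := by
        have hr0 : (0 : ℝ) < r := by
          have : (2 : ℝ) ≤ r := by exact_mod_cast hr
          linarith
        have hek : 2 ≤ ε * ((N₀ + (i + 1) : ℕ) : ℝ) := by
          have : 2 / ε ≤ ((N₀ + (i + 1) : ℕ) : ℝ) := by
            push_cast
            have : (0 : ℝ) ≤ i := Nat.cast_nonneg i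
            linarith
          rw [div_le_iff₀ hε] at this
          linarith
        have hfl : (((N₀ + i) / r : ℕ) : ℝ) ≤ ((N₀ + i : ℕ) : ℝ) / r := Nat.cast_div_le
        have hle : (N₀ + i) / r ≤ N₀ + i := Nat.div_le_self _ _
        have hmono : ((N₀ + i : ℕ) : ℝ) / r ≤ ((N₀ + (i + 1) : ℕ) : ℝ) / r := by
          gcongr
          omega
        have key : ((dg G univ v + 1 : ℕ) : ℝ) < (((N₀ + i) - (N₀ + i) / r : ℕ) : ℝ) := by
          rw [Nat.cast_sub hle]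
          have e1 : (1 - 1 / (r : ℝ) - ε) * ((N₀ + (i + 1) : ℕ) : ℝ)
              = ((N₀ + (i + 1) : ℕ) : ℝ) - ((N₀ + (i + 1) : ℕ) : ℝ) / r
                - ε * ((N₀ + (i + 1) : ℕ) : ℝ) := by ring
          rw [e1] at hv
          have e2 : ((N₀ + (i + 1) : ℕ) : ℝ) = ((N₀ + i : ℕ) : ℝ) + 1 := by push_cast; ring
          have e3 : ((dg G univ v + 1 : ℕ) : ℝ) = (dg G univ v : ℝ) + 1 := by push_cast; ring
          rw [e3]
          linarith
        have := Nat.cast_lt.mp key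
        omega
      have ht' : tur r (N₀ + (i + 1)) = tur r (N₀ + i) + ((N₀ + i) - (N₀ + i) / r) := ht
      obtain ⟨n', hn', G₂, D₂, hc₂, hD₂, hp₂, hd₂⟩ := ih (x + 1) G' D' hD'
        (by omega) (by omega)
      exact ⟨n', hn', G₂, D₂, hc₂.trans hc, hD₂, hp₂, hd₂⟩

theorem reduce {W : Type} (L : SimpleGraph W) (r : ℕ) (hr : 2 ≤ r) (ε : ℝ) (hε : 0 < ε)
    (N₁ : ℕ) : ∃ N₂ : ℕ, ∀ n ≥ N₂, ∀ (G : SimpleGraph (Fin n)) (D : Finset (Fin n)) (e : ℕ),
      IsCore L G D → 2 * tur r n + 2 * e ≤ pr G →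
      ∃ n' ≥ N₁, ∃ (G' : SimpleGraph (Fin n')) (D' : Finset (Fin n')), #D' ≤ #D ∧
        IsCore L G' D' ∧ 2 * tur r n' + 2 * e ≤ pr G' ∧
        ∀ x, (1 - 1 / (r : ℝ) - ε) * n' ≤ dg G' univ x := by
  refine ⟨max N₁ ⌈2 / ε⌉₊ + (max N₁ ⌈2 / ε⌉₊) ^ 2 + 1, ?_⟩
  intro n hn G D e hD hp
  obtain ⟨i, rfl⟩ : ∃ i, n = max N₁ ⌈2 / ε⌉₊ + i := ⟨n - max N₁ ⌈2 / ε⌉₊, by omega⟩
  have h2 : 2 / ε ≤ ((max N₁ ⌈2 / ε⌉₊ : ℕ) : ℝ) :=
    (Nat.le_ceil _).trans (by exact_mod_cast le_max_right _ _)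
  exact red_step L r hr ε hε N₁ _ (le_max_left _ _) h2 e i 0 G D hD (by omega) (by omega)

end Pool.Agent.Exo
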