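import Pool.Agent.Exo.Low2

/-!
# If `ex(n; L) - t_r(n)` is bounded then `L` has a star type and a matching type
-/

open Finset Fintype Filter

namespace Pool.Agent.Exo

open SimpleGraph Pool.Agent.Helper49.Copies

private theorem typ_pred {r : ℕ} (hr : 1 ≤ r) : ∃ f : Fin (r + 1) → Fin r,
    ∀ x y, x ≠ 0 → y ≠ 0 → f x = f y → x = y := by
  refine ⟨fun x => ⟨(x : ℕ) - 1, by have := x.2; omega⟩, fun x y hx hy hxy => ?_⟩
  have h1 : (x : ℕ) - 1 = (y : ℕ) - 1 := congrArg Fin.val hxy
  have h2 : (x : ℕ) ≠ 0 := fun h => hx (Fin.ext h)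
  have h3 : (y : ℕ) ≠ 0 := fun h => hy (Fin.ext h)
  apply Fin.ext
  omega

theorem starType_of_bdd {W : Type} [Fintype W] (L : SimpleGraph W) (r : ℕ) (hr : 2 ≤ r)
    (hnc : ¬ L.Colorable r) (K : ℕ) (hK : ∀ n, extremalNumber n L ≤ tur r n + K) :
    StarType L r := by
  classical
  by_contra hns
  obtain ⟨f, hf⟩ := typ_pred (r := r) (by omega)
  have ha : ∀ C : L.Coloring (Fin (r + 1)), 1 < #{w | C w = 0} := by
    intro C
    by_contra hle
    rw [not_lt] at hle
    rcases Nat.eq_zero_or_pos (#{w | C w = 0}) with h0 | h0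
    · apply hnc
      refine ⟨SimpleGraph.Coloring.mk (fun w => f (C w)) ?_⟩
      intro a b hab hfab
      have hne : ∀ w, C w ≠ 0 := by
        intro w hw
        rw [Finset.card_eq_zero] at h0
        have : w ∈ (univ.filter fun w => C w = 0) := by simp [hw]
        rw [h0] at this
        exact absurd this (Finset.notMem_empty w)
      exact C.valid hab (hf _ _ (hne a) (hne b) hfab)
    · obtain ⟨v, hv⟩ := Finset.card_eq_one.1 (le_antisymm hle h0)
      apply hns
      refine ⟨v, fun w => f (C w), ?_⟩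
      intro a b hab hav hbv hfab
      have hne : ∀ w, w ≠ v → C w ≠ 0 := by
        intro w hwv hw
        have : w ∈ (univ.filter fun w => C w = 0) := by simp [hw]
        rw [hv, Finset.mem_singleton] at this
        exact hwv this
      exact C.valid hab (hf _ _ (hne a hav) (hne b hbv) hfab)
  have h1 := hub_turan_lower L (r * (K + 2)) r 1 (by omega) (by nlinarith) ha
  have h2 := hK (r * (K + 2))
  unfold tur at h2
  have h3 : r * (K + 2) / r = K + 2 := Nat.mul_div_cancel_left _ (by omega)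
  rw [h3, one_mul, one_mul] at h1
  have h4 : K + 2 ≤ r * (K + 2) := by nlinarith
  omega

/-- a perfect matching on `h` vertices, `h` even -/
private def typM (h : ℕ) : SimpleGraph (Fin h) where
  Adj a b := a ≠ b ∧ (a : ℕ) / 2 = (b : ℕ) / 2
  symm := by
    constructor
    rintro a b ⟨h1, h2⟩
    exact ⟨h1.symm, h2.symm⟩
  loopless := by
    constructor
    rintro a ⟨h1, -⟩
    exact h1 rfl

private theorem typM_unique {h : ℕ} {a b b' : Fin h} (h1 : (typM h).Adj a b)
    (h2 : (typM h).Adj a b') : b' = b := by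
  obtain ⟨h3, h4⟩ := h1
  obtain ⟨h5, h6⟩ := h2
  have h7 : (a : ℕ) ≠ b := fun h => h3 (Fin.ext h)
  have h8 : (a : ℕ) ≠ b' := fun h => h5 (Fin.ext h)
  apply Fin.ext
  omega

private theorem typM_excess {r : ℕ} (hr : 1 ≤ r) (K : ℕ) :
    (2 * K + 2 : ℤ) ≤ excess (typM (2 * (K + 1))) (fun _ => (⟨0, hr⟩ : Fin r)) := by
  classical
  unfold excess
  have h1 : mis (typM (2 * (K + 1))) (fun _ => (⟨0, hr⟩ : Fin r)) = 0 := by
    unfold mis
    rw [Finset.card_eq_zero, Finset.filter_eq_empty_iff]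
    rintro x - ⟨-, h⟩
    exact h rfl
  have h2 : 2 * (K + 1) ≤ inn (typM (2 * (K + 1))) (fun _ => (⟨0, hr⟩ : Fin r)) := by
    unfold inn
    have h3 : ∀ a : Fin (2 * (K + 1)),
        (if (a : ℕ) % 2 = 0 then (a : ℕ) + 1 else (a : ℕ) - 1) < 2 * (K + 1) := by
      intro a
      have := a.2
      split_ifs <;> omega
    have h4 := Finset.card_le_card_of_injOn (s := (univ : Finset (Fin (2 * (K + 1)))))
      (t := {p : Fin (2 * (K + 1)) × Fin (2 * (K + 1)) | (typM (2 * (K + 1))).Adj p.1 p.2 ∧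
        (⟨0, hr⟩ : Fin r) = ⟨0, hr⟩})
      (fun a => (a, ⟨if (a : ℕ) % 2 = 0 then (a : ℕ) + 1 else (a : ℕ) - 1, h3 a⟩)) (by
        intro a _
        simp only [Finset.coe_filter, Finset.mem_univ, true_and, Set.mem_ofPred_eq, and_true]
        refine ⟨fun h => ?_, ?_⟩
        · have h5 := congrArg Fin.val h
          simp only at h5
          split_ifs at h5 <;> omega
        · simp only
          split_ifs <;> omega) (by
        intro a _ b _ hab
        exact (Prod.ext_iff.1 hab).1)
    rw [Finset.card_univ, Fintype.card_fin] at h4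
    exact h4
  rw [h1]
  have h5 : ((2 * (K + 1) : ℕ) : ℤ) ≤ (inn (typM (2 * (K + 1))) (fun _ => (⟨0, hr⟩ : Fin r)) : ℤ) := by
    exact_mod_cast h2
  push_cast at h5 ⊢
  linarith

theorem matchType_of_bdd {W : Type} [Fintype W] (L : SimpleGraph W) (r : ℕ) (hr : 2 ≤ r)
    (K : ℕ) (hK : ∀ n, extremalNumber n L ≤ tur r n + K) : MatchType L r := by
  classical
  by_contra hnm
  have hr1 : 1 ≤ r := by omega
  let i₀ : Fin r := ⟨0, hr1⟩
  let H := typM (2 * (K + 1))
  let c : Fin (2 * (K + 1)) → Fin r := fun _ => i₀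
  have hfree : L.Free (host H c) := by
    rintro ⟨f⟩
    apply hnm
    let g' : Fin (2 * (K + 1)) ⊕ (Fin r × ℕ) → Fin r := fun x => Sum.elim (fun _ => i₀) (fun p => p.1) x
    have key : ∀ x y, (host H c).Adj x y → g' x = g' y →
        ∃ a b, x = Sum.inl a ∧ y = Sum.inl b ∧ H.Adj a b := by
      rintro (a | p) (b | q) hxy hg
      · exact ⟨a, b, rfl, rfl, hxy⟩
      · exact absurd hg hxy
      · exact absurd hg hxy
      · exact absurd hg hxy
    refine ⟨i₀, fun w => g' (f w), ?_⟩
    intro a b hab hg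
    obtain ⟨x, y, hx, hy, hxy⟩ := key _ _ (f.toHom.map_adj hab) hg
    refine ⟨?_, ?_⟩
    · change g' (f a) = i₀
      change f a = _ at hx
      rw [hx]
      rfl
    · intro b' hab' hg'
      obtain ⟨x', y', hx', hy', hxy'⟩ := key _ _ (f.toHom.map_adj hab') hg'
      rw [hx, Sum.inl.injEq] at hx'
      subst hx'
      have h3 : y' = y := typM_unique hxy hxy'
      subst h3
      exact f.injective (hy'.trans hy.symm)
  have h1 := lower L hr1 H c hfree
  obtain ⟨n, hn⟩ := h1.exists
  have h2 := hK n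
  have h3 := typM_excess hr1 K
  have h4 : (extremalNumber n L : ℤ) ≤ tur r n + K := by exact_mod_cast h2
  change (2 * K + 2 : ℤ) ≤ excess H c at h3
  linarith

end Pool.Agent.Exo
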