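import Pool.Agent.Exo.Part
import Pool.Agent.Exo.Red
import Pool.Agent.Exo.Ext
import Pool.Agent.Exo.Low2
import Pool.Agent.Exo.Cnt
import Pool.Agent.Exo.Typ

/-!
# The criterion
-/

open Finset Fintype Filter

namespace Pool.Agent.Exo

open SimpleGraph Pool.Agent.Helper49.Copies

theorem ne_bot_of_not_colorable {W : Type} (L : SimpleGraph W) (r : ℕ) (hr : 1 ≤ r)
    (hnc : ¬ L.Colorable r) : L ≠ ⊥ := by
  rintro rfl
  apply hnc
  exact ⟨Coloring.mk (fun _ => ⟨0, by omega⟩) (fun {a b} hab => absurd hab (by simp))⟩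

theorem tur_le_extremal {W : Type} (L : SimpleGraph W) (r : ℕ) (hr : 1 ≤ r)
    (hnc : ¬ L.Colorable r) (n : ℕ) : tur r n ≤ extremalNumber n L := by
  have := card_edgeFinset_le_extremalNumber (turan_free L r hr hnc n)
  rwa [Fintype.card_fin] at this

/-- The configuration of a large graph with few copies of `L`. -/
theorem exists_config {W : Type} [Fintype W] (L : SimpleGraph W) (r : ℕ) (hr : 2 ≤ r)
    (hnc : ¬ L.Colorable r) (hS : StarType L r) (hM : MatchType L r) (d : ℕ) :
    ∃ N : ℕ, ∀ n ≥ N, ∀ (G : SimpleGraph (Fin n)) (D : Finset (Fin n)) (e : ℕ), #D ≤ d →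
      IsCore L G D → 2 * tur r n + 2 * e ≤ pr G →
      ∃ h ≤ 8 * r * card W * card W, ∃ (H : SimpleGraph (Fin h)) (c : Fin h → Fin r),
        OutFree L H c ∧ (D = ∅ → L.Free (host H c)) ∧ (2 * e : ℤ) ≤ excess H c := by
  classical
  obtain ⟨ε, hε, hstr⟩ := structure_thm L r hr hnc hS hM
  obtain ⟨N, hN⟩ := hstr d
  set B := 4 * r * card W * card W with hB
  obtain ⟨N₂, hN₂⟩ := reduce L r hr ε hε (max N (2 * r * (2 * B + d + card W)))
  refine ⟨N₂, ?_⟩
  intro n hn G D e hDd hD hpr
  obtain ⟨n', hn', G', D', hD'D, hD'core, hpr', hdeg⟩ := hN₂ n hn G D e hD hpr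
  obtain ⟨j, hinn, hcls⟩ := hN n' (le_trans (le_max_left _ _) hn') G' D' (hD'D.trans hDd)
    hD'core hdeg
  have h1 := pr_add_mis_le (by omega) G' j
  have h2 : mis G' j + 2 * e ≤ inn G' j := by omega
  have hB8 : 8 * r * card W * card W = 2 * B := by rw [hB]; ring
  obtain ⟨h, hh, H, c, hHi, hHm, hcopy⟩ := extract L G' j D' (by
    intro i
    have h3 := hcls i
    have h4 : 2 * r * (2 * B + d + card W) ≤ 2 * r * #(cls j i) :=
      (le_trans (le_max_right _ _) hn').trans h3
    have h5 := Nat.le_of_mul_le_mul_left h4 (by omega)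
    omega)
  refine ⟨h, by omega, H, c, ?_, ?_, ?_⟩
  · intro f w
    obtain ⟨g, hg⟩ := hcopy f
    by_contra hcon
    push Not at hcon
    exact hg w hcon (hD'core g w)
  · rintro rfl ⟨f⟩
    obtain ⟨g, -⟩ := hcopy f
    have hW : Nonempty W := by
      by_contra hW
      rw [not_nonempty_iff] at hW
      exact hnc ⟨Coloring.mk (fun w => (hW.false w).elim) (fun {a} => (hW.false a).elim)⟩
    obtain ⟨w⟩ := hW
    have h3 := hD'core g w
    rw [Finset.card_empty, Nat.le_zero, Finset.card_eq_zero] at hD'D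
    rw [hD'D] at h3
    exact absurd h3 (Finset.notMem_empty _)
  · unfold excess
    rw [hHi, hHm]
    have : ((mis G' j + 2 * e : ℕ) : ℤ) ≤ ((inn G' j : ℕ) : ℤ) := by exact_mod_cast h2
    push_cast at this
    linarith

theorem tendsto_of_not_gap {W : Type} [Fintype W] (L : SimpleGraph W) (r : ℕ) (hr : 2 ≤ r)
    (hnc : ¬ L.Colorable r) (hS : StarType L r) (hM : MatchType L r) (hgap : ¬ Gap L r) :
    Tendsto (fun n => minCopies n L) atTop atTop := by
  classical
  apply tendsto_minCopies_of L (ne_bot_of_not_colorable L r (by omega) hnc)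
  intro d
  obtain ⟨N, hN⟩ := exists_config L r hr hnc hS hM d
  have key : ∀ᶠ n : ℕ in atTop, ∀ x : (Σ h : Fin (8 * r * card W * card W + 1),
      SimpleGraph (Fin h) × (Fin h → Fin r)), OutFree L x.2.1 x.2.2 →
      (2 * tur r n : ℤ) + excess x.2.1 x.2.2 ≤ 2 * (extremalNumber n L : ℤ) := by
    rw [eventually_all]
    intro x
    by_cases hx : OutFree L x.2.1 x.2.2
    · obtain ⟨h', H', c', hfree, hle⟩ : ∃ (h' : ℕ) (H' : SimpleGraph (Fin h'))
          (c' : Fin h' → Fin r), L.Free (host H' c') ∧ excess x.2.1 x.2.2 ≤ excess H' c' := by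
        by_contra hcon
        apply hgap
        refine ⟨x.1, x.2.1, x.2.2, hx, ?_⟩
        intro h' H' c' hf
        by_contra hlt
        push Not at hlt
        exact hcon ⟨h', H', c', hf, hlt⟩
      filter_upwards [lower L (by omega : 1 ≤ r) H' c' hfree] with n hn _
      linarith
    · exact Eventually.of_forall (fun n h => absurd h hx)
  filter_upwards [key, eventually_ge_atTop N] with n hkey hn G _ hG D hDd hD
  have h1 := tur_le_extremal L r (by omega) hnc n
  obtain ⟨e, he⟩ : ∃ e, extremalNumber n L + 1 = tur r n + e :=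
    ⟨extremalNumber n L + 1 - tur r n, by omega⟩
  have h2 : pr G = 2 * #G.edgeFinset := pr_eq G
  obtain ⟨h, hh, H, c, hout, -, hexc⟩ := hN n hn G D e hDd hD (by omega)
  have h3 := hkey ⟨⟨h, by omega⟩, H, c⟩ hout
  have he' : (extremalNumber n L : ℤ) + 1 = tur r n + e := by exact_mod_cast he
  have h3' : (2 * tur r n : ℤ) + excess H c ≤ 2 * (extremalNumber n L : ℤ) := h3
  linarith

theorem bounded_of_gap {W : Type} [Fintype W] (L : SimpleGraph W) (r : ℕ) (hr : 2 ≤ r)
    (hnc : ¬ L.Colorable r) (hS : StarType L r) (hM : MatchType L r) (hgap : Gap L r) :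
    ∃ C, ∀ n, minCopies n L ≤ C := by
  classical
  obtain ⟨h, H, c, hout, hmax⟩ := hgap
  obtain ⟨N, hN⟩ := exists_config L r hr hnc hS hM 0
  obtain ⟨N', hN'⟩ := low_graph (by omega : 1 ≤ r) H c
  have hLne := ne_bot_of_not_colorable L r (by omega) hnc
  have hlarge : ∀ n ≥ max N N', minCopies n L ≤ h ^ card W := by
    intro n hn
    obtain ⟨G, φ, hG⟩ := hN' n ((le_max_right _ _).trans hn)
    set P : Finset (Fin n) := {x | ∃ a, φ x = Sum.inl a} with hP
    have hPcard : #P ≤ h := by
      have h1 : ∀ x ∈ P, ∃ a, φ x = Sum.inl a := by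
        intro x hx
        rw [hP, mem_filter] at hx
        exact hx.2
      rcases P.eq_empty_or_nonempty with h0 | ⟨x₀, hx₀⟩
      · rw [h0]; simp
      · have hne : Nonempty (Fin h) := ⟨(h1 x₀ hx₀).choose⟩
        choose! a ha using h1
        calc #P ≤ #(univ : Finset (Fin h)) := by
              refine card_le_card_of_injOn a (fun x _ => by simp) ?_
              intro x hx y hy hxy
              apply φ.injective
              rw [ha x hx, ha y hy, hxy]
          _ = h := by rw [Finset.card_univ, Fintype.card_fin]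
    have hcore : IsCore L G P := by
      intro f w
      obtain ⟨a, ha⟩ := hout (φ.toCopy.comp f) w
      rw [hP, mem_filter]
      exact ⟨mem_univ _, a, ha⟩
    have hex : 2 * (extremalNumber n L + 1) ≤ pr G := by
      by_contra hcon
      obtain ⟨G₁, _, hG₁⟩ := exists_isExtremal_free (V := Fin n) hLne
      have hcard := card_edgeFinset_of_isExtremal_free hG₁
      rw [Fintype.card_fin] at hcard
      have hG₁free := hG₁.prop
      have h1 := tur_le_extremal L r (by omega) hnc n
      obtain ⟨e, he⟩ : ∃ e, extremalNumber n L = tur r n + e :=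
        ⟨extremalNumber n L - tur r n, by omega⟩
      have h2 : pr G₁ = 2 * #G₁.edgeFinset := pr_eq G₁
      have h2' : pr G = 2 * #G.edgeFinset := pr_eq G
      obtain ⟨h', -, H', c', -, hfree, hexc⟩ := hN n ((le_max_left _ _).trans hn) G₁ ∅ e
        (by simp) (fun f => absurd ⟨f⟩ hG₁free) (by omega)
      have h3 := hmax h' H' c' (hfree rfl)
      have h4 : (pr G : ℤ) ≤ 2 * (extremalNumber n L : ℤ) := by
        have : pr G ≤ 2 * extremalNumber n L := by omega
        exact_mod_cast this
      have h5 : (extremalNumber n L : ℤ) = tur r n + e := by exact_mod_cast he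
      rw [hG] at h4
      linarith
    exact (minCopies_le_of_core L G P hcore hex).trans (Nat.pow_le_pow_left hPcard _)
  refine ⟨max (h ^ card W) ((Finset.range (max N N')).sup (fun n => minCopies n L)), ?_⟩
  intro n
  by_cases hn : max N N' ≤ n
  · exact (hlarge n hn).trans (le_max_left _ _)
  · refine le_trans ?_ (le_max_right _ _)
    exact Finset.le_sup (f := fun n => minCopies n L) (Finset.mem_range.mpr (by omega))

theorem criterion {W : Type} [Fintype W] (L : SimpleGraph W) (r : ℕ) (hr : 2 ≤ r)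
    (hnc : ¬ L.Colorable r) (K : ℕ) (hK : ∀ n, extremalNumber n L ≤ tur r n + K) :
    (¬ Gap L r → Tendsto (fun n => minCopies n L) atTop atTop) ∧
      (Gap L r → ∃ C, ∀ n, minCopies n L ≤ C) :=
  ⟨tendsto_of_not_gap L r hr hnc (starType_of_bdd L r hr hnc K hK) (matchType_of_bdd L r hr K hK),
    bounded_of_gap L r hr hnc (starType_of_bdd L r hr hnc K hK) (matchType_of_bdd L r hr K hK)⟩

end Pool.Agent.Exo
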