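import Pool.Agent.Exo.Defs

/-!
# A tile avoiding a small set
-/

open Finset Fintype Filter

namespace Pool.Agent.Exo

open SimpleGraph Pool.Agent.Helper49.Copies

theorem tile_exists (r : ℕ) (hr : 2 ≤ r) (t d : ℕ) : ∃ N : ℕ, ∀ n ≥ N,
    ∀ (G : SimpleGraph (Fin n)) (D : Finset (Fin n)), #D ≤ d →
    (∀ x, (1 - 1 / (r : ℝ) - 1 / (2 * r * (r - 1))) * n ≤ dg G univ x) →
    ∃ T : Fin r → Finset (Fin n), IsTile G r t T ∧ ∀ i, Disjoint (T i) D := by
  classical
  obtain ⟨r', rfl⟩ : ∃ r', r = r' + 1 := ⟨r - 1, by omega⟩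
  have hr' : (1 : ℝ) ≤ r' := by
    have : 1 ≤ r' := by omega
    exact_mod_cast this
  have hcast : (((r' + 1 : ℕ)) : ℝ) = (r' : ℝ) + 1 := by push_cast; ring
  set ε' : ℝ := 1 / (2 * r' * (r' + 1)) with hε'
  have hε'0 : 0 < ε' := by positivity
  have hεε' : 1 - 1 / (r' : ℝ) + ε' =
      1 - 1 / ((r' + 1 : ℕ) : ℝ) -
        1 / (2 * ((r' + 1 : ℕ) : ℝ) * (((r' + 1 : ℕ) : ℝ) - 1)) := by
    rw [hcast, hε', add_sub_cancel_right]
    field_simp
    ring
  obtain ⟨N₁, hN₁⟩ := eventually_atTop.mp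
    (eventually_completeEquipartiteGraph_isContained_of_minDegree hε'0 r' (t + d))
  refine ⟨max N₁ 1, fun n hn G D hD hdeg => ?_⟩
  have hnN₁ : N₁ ≤ n := (le_max_left _ _).trans hn
  have hnpos : 0 < n := (le_max_right N₁ 1).trans hn
  have hdg : ∀ x, dg G univ x = G.degree x := by
    intro x
    unfold dg
    rw [← G.card_neighborFinset_eq_degree x, G.neighborFinset_eq_filter]
  have hmin : (G.minDegree : ℝ) ≥ (1 - 1 / (r' : ℝ) + ε') * n := by
    have : Nonempty (Fin n) := ⟨⟨0, hnpos⟩⟩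
    obtain ⟨x, hx⟩ := G.exists_minimal_degree_vertex
    rw [hx, ← hdg x, hεε']
    exact hdeg x
  have hcont := hN₁ n hnN₁ hmin
  obtain ⟨T, hT, -⟩ := isTile_of_copy G (r' + 1) (t + d) univ (by
    obtain ⟨f⟩ := hcont
    refine ⟨⟨⟨fun a => ⟨f a, by simp⟩, ?_⟩, ?_⟩⟩
    · intro a b hab
      exact f.toHom.map_rel' hab
    · intro a b hab
      exact f.injective (congrArg Subtype.val hab))
  have hsub : ∀ i, ∃ S ⊆ T i \ D, #S = t := by
    intro i
    apply Finset.exists_subset_card_eq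
    have h1 := Finset.le_card_sdiff D (T i)
    rw [hT.1 i] at h1
    omega
  choose S hS hcard using hsub
  refine ⟨S, ⟨hcard, fun i j hij a ha b hb => ?_⟩, fun i => ?_⟩
  · exact hT.2 i j hij a (Finset.mem_sdiff.mp (hS i ha)).1 b (Finset.mem_sdiff.mp (hS j hb)).1
  · rw [Finset.disjoint_left]
    intro a ha
    exact (Finset.mem_sdiff.mp (hS i ha)).2

end Pool.Agent.Exo
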