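import Pool.Agent.Exo.Rich

/-!
# Good vertices from a tile
-/

open Finset Fintype Filter

namespace Pool.Agent.Exo

open SimpleGraph Pool.Agent.Helper49.Copies

theorem good_of_tile {V W : Type} [Fintype V] [Fintype W] [DecidableEq V] (L : SimpleGraph W)
    (G : SimpleGraph V) (r : ℕ) (hr : 2 ≤ r) (hnc : ¬ L.Colorable r) (hS : StarType L r)
    (D : Finset V) (hD : IsCore L G D) (t : ℕ)
    (ht : 2 * card W * card W + 4 * card W + 2 ≤ t) (T : Fin r → Finset V)
    (hT : IsTile G r t T) (hTD : ∀ i, Disjoint (T i) D) :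
    ∃ (Gd : Finset V) (j : V → Fin r),
      (∀ w ∈ Gd, dg G {x ∈ Gd | j x = j w} w ≤ card W) ∧
      #(univ \ Gd) * t + 2 * (card W + 1) * ∑ x ∈ tileSet T, dg G univ x ≤
        2 * (card W + 1) * (card V * ((r - 1) * t + card W)) := by
  classical
  set m := card W with hm
  set q : ℕ := 2 * (m + 1) with hq
  have hnoCopy : ∀ (A : Fin r → Finset V), (∀ i, A i ⊆ T i) →
      ¬ ∃ (f : Copy L G) (x : W) (i : Fin r), f x ∈ A i := by
    rintro A hA ⟨f, x, i, hx⟩
    exact Finset.disjoint_left.1 (hTD i) (hA i hx) (hD f x)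
  have hfew : ∀ w, ∃ i, #{v ∈ T i | G.Adj w v} < m := by
    intro w
    by_contra hcon
    push Not at hcon
    refine hnoCopy (fun i => {v ∈ T i | G.Adj w v}) (fun i => filter_subset _ _) ?_
    refine rich_copy L G r hr hnc hS (fun i => {v ∈ T i | G.Adj w v}) ?_ hcon w ?_
    · intro i l hil a ha b hb
      exact hT.2 i l hil a (mem_filter.1 ha).1 b (mem_filter.1 hb).1
    · intro i a ha
      exact (mem_filter.1 ha).2
  choose j hj using hfew
  set x : V → ℕ := fun w => #{v ∈ tileSet T | G.Adj w v} with hx
  have hxsum : ∀ w, x w = ∑ i, #{v ∈ T i | G.Adj w v} := fun w => hT.card_filter _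
  have hxle : ∀ w, x w ≤ (r - 1) * t + m := by
    intro w
    have h1 := hj w
    rw [hxsum, ← Finset.add_sum_erase _ _ (mem_univ (j w))]
    have h4 : ∑ i ∈ univ.erase (j w), #{v ∈ T i | G.Adj w v} ≤ (r - 1) * t := by
      have h5 : #(univ.erase (j w)) = r - 1 := by
        rw [card_erase_of_mem (mem_univ _), Finset.card_univ, Fintype.card_fin]
      rw [← h5, ← smul_eq_mul]
      apply Finset.sum_le_card_nsmul
      intro i _
      refine (card_filter_le _ _).trans ?_
      rw [hT.1 i]
    omega
  set Gd : Finset V := {w | q * ((r - 1) * t) ≤ q * x w + t} with hGd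
  have hgood : ∀ w ∈ Gd, ∀ i, i ≠ j w → q * #{v ∈ T i | ¬ G.Adj w v} ≤ t + q * m := by
    intro w hw i hi
    rw [hGd, mem_filter] at hw
    obtain ⟨-, hwx⟩ := hw
    have h1 := hj w
    have h3 : #{v ∈ T i | G.Adj w v} + #{v ∈ T i | ¬ G.Adj w v} = t := by
      rw [Finset.card_filter_add_card_filter_not, hT.1]
    have h5 : #((univ.erase (j w)).erase i) + 2 = r := by
      rw [card_erase_of_mem (mem_erase.mpr ⟨hi, mem_univ _⟩), card_erase_of_mem (mem_univ _),
        Finset.card_univ, Fintype.card_fin]
      omega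
    have h4 : ∑ l ∈ (univ.erase (j w)).erase i, #{v ∈ T l | G.Adj w v} ≤
        #((univ.erase (j w)).erase i) * t := by
      rw [← smul_eq_mul]
      apply Finset.sum_le_card_nsmul
      intro l _
      refine (card_filter_le _ _).trans ?_
      rw [hT.1 l]
    have h6 : (r - 1) * t = #((univ.erase (j w)).erase i) * t + t := by
      have : r - 1 = #((univ.erase (j w)).erase i) + 1 := by omega
      rw [this]; ring
    have h7 : x w + #{v ∈ T i | ¬ G.Adj w v} ≤ (r - 1) * t + m := by
      rw [hxsum, ← Finset.add_sum_erase _ _ (mem_univ (j w)), ← Finset.add_sum_erase _ _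
        (mem_erase.mpr ⟨hi, mem_univ _⟩)]
      omega
    have h8 := Nat.mul_le_mul_left q h7
    rw [Nat.mul_add, Nat.mul_add] at h8
    omega
  refine ⟨Gd, j, ?_, ?_⟩
  · intro w hw
    by_contra hcon
    push Not at hcon
    unfold dg at hcon
    obtain ⟨S, hSsub, hScard⟩ := Finset.exists_subset_card_eq hcon.le
    have hSmem : ∀ y ∈ S, y ∈ Gd ∧ j y = j w ∧ G.Adj w y := by
      intro y hy
      have := hSsub hy
      rw [mem_filter, mem_filter] at this
      exact ⟨this.1.1, this.1.2, this.2⟩
    set A : Fin r → Finset V := fun l => if l = j w then T l \ insert w S else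
      {v ∈ T l | ∀ y ∈ insert w S, G.Adj y v} with hA
    have hA1 : A (j w) = T (j w) \ insert w S := by simp [hA]
    have hA2 : ∀ l, l ≠ j w → A l = {v ∈ T l | ∀ y ∈ insert w S, G.Adj y v} := by
      intro l hl; simp only [hA, if_neg hl]
    have hAT : ∀ i, A i ⊆ T i := by
      intro i
      by_cases hi : i = j w
      · subst hi; rw [hA1]; exact sdiff_subset
      · rw [hA2 i hi]; exact filter_subset _ _
    have hins : #(insert w S) ≤ m + 1 := by
      refine (card_insert_le _ _).trans ?_
      rw [hScard]
    refine hnoCopy A hAT (star_copy_in L G r hr hnc hS A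
      (fun i l hil a ha b hb => hT.2 i l hil a (hAT i ha) b (hAT l hb)) ?_ (j w) w S hScard.ge
      (fun y hy => (hSmem y hy).2.2) ?_ ?_ ?_)
    · intro i
      by_cases hi : i = j w
      · subst hi
        rw [hA1]
        have h1 := le_card_sdiff (insert w S) (T (j w))
        rw [hT.1] at h1
        have h2 : m ≤ m * m + 1 := by nlinarith [sq_nonneg ((m : ℤ) - 1), Nat.zero_le m]
        have h3 : 2 * m * m = m * m + m * m := by ring
        rw [← hm]
        omega
      · rw [hA2 i hi]
        have h1 : T i ⊆ {v ∈ T i | ∀ y ∈ insert w S, G.Adj y v} ∪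
            (insert w S).biUnion (fun y => {v ∈ T i | ¬ G.Adj y v}) := by
          intro v hv
          rw [mem_union, mem_filter, mem_biUnion]
          by_cases h : ∀ y ∈ insert w S, G.Adj y v
          · exact Or.inl ⟨hv, h⟩
          · push Not at h
            obtain ⟨y, hy, hyv⟩ := h
            exact Or.inr ⟨y, hy, mem_filter.2 ⟨hv, hyv⟩⟩
        have h2 : t ≤ #{v ∈ T i | ∀ y ∈ insert w S, G.Adj y v} +
            ∑ y ∈ insert w S, #{v ∈ T i | ¬ G.Adj y v} := by
          have := (card_le_card h1).trans ((card_union_le _ _).trans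
            (Nat.add_le_add_left card_biUnion_le _))
          rwa [hT.1] at this
        have h3 : ∑ y ∈ insert w S, q * #{v ∈ T i | ¬ G.Adj y v} ≤ (m + 1) * (t + q * m) := by
          refine (Finset.sum_le_card_nsmul _ _ (t + q * m) ?_).trans ?_
          · intro y hy
            rw [mem_insert] at hy
            rcases hy with hy | hy
            · subst hy
              exact hgood y hw i hi
            · exact hgood y (hSmem y hy).1 i (by rw [(hSmem y hy).2.1]; exact hi)
          · rw [smul_eq_mul]
            exact Nat.mul_le_mul_right _ hins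
        rw [← Finset.mul_sum] at h3
        have h4 : 2 * ∑ y ∈ insert w S, #{v ∈ T i | ¬ G.Adj y v} ≤ t + q * m := by
          have h5 : (m + 1) * (2 * ∑ y ∈ insert w S, #{v ∈ T i | ¬ G.Adj y v}) ≤
              (m + 1) * (t + q * m) := by
            refine le_trans (le_of_eq ?_) h3
            rw [hq]; ring
          exact Nat.le_of_mul_le_mul_left h5 (Nat.succ_pos m)
        have h5 : q * m = 2 * m * m + 2 * m := by rw [hq]; ring
        rw [← hm]
        omega
    · intro l hl a ha
      rw [hA2 l hl, mem_filter] at ha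
      exact ⟨ha.2 w (mem_insert_self _ _), fun y hy => ha.2 y (mem_insert_of_mem hy)⟩
    · intro h
      rw [hA1, Finset.mem_sdiff] at h
      exact h.2 (mem_insert_self _ _)
    · intro y hy h
      rw [hA1, Finset.mem_sdiff] at h
      exact h.2 (mem_insert_of_mem hy)
  · -- count
    have h2 : ∑ y ∈ tileSet T, dg G univ y = ∑ w, x w := by
      have h3 : ∑ y ∈ tileSet T, dg G univ y = dsum G (tileSet T) univ := by
        unfold dsum dg
        apply Finset.sum_congr rfl
        intro y _
        congr
      rw [h3, dsum_comm]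
      rfl
    have h5 : ∑ w, (q * x w + if w ∈ univ \ Gd then t else 0) ≤
        #(univ : Finset V) * (q * ((r - 1) * t + m)) := by
      rw [← smul_eq_mul]
      apply Finset.sum_le_card_nsmul
      intro w _
      have hle := Nat.mul_le_mul_left q (hxle w)
      split_ifs with h
      · rw [Finset.mem_sdiff, hGd, mem_filter, not_and] at h
        have h6 := h.2 (mem_univ _)
        push Not at h6
        have h7 : q * ((r - 1) * t) ≤ q * ((r - 1) * t + m) :=
          Nat.mul_le_mul_left _ (Nat.le_add_right _ _)
        omega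
      · omega
    rw [Finset.sum_add_distrib, ← Finset.mul_sum, ← Finset.sum_filter, Finset.sum_const,
      smul_eq_mul] at h5
    have h6 : {w ∈ (univ : Finset V) | w ∈ univ \ Gd} = univ \ Gd := by
      ext w
      rw [mem_filter]
      exact ⟨fun h => h.2, fun h => ⟨mem_univ _, h⟩⟩
    rw [h6, Finset.card_univ] at h5
    rw [h2]
    have h7 : card V * (q * ((r - 1) * t + m)) = q * (card V * ((r - 1) * t + m)) := by ring
    rw [h7] at h5
    rw [add_comm]
    exact h5

end Pool.Agent.Exo
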