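import Pool.Agent.Exo.Inner
import Pool.Agent.Exo.Tile
import Pool.Agent.Exo.Tile2
import Pool.Agent.Exo.Cls

/-!
# Structure of graphs of large minimum degree with few copies of `L`
-/

open Finset Fintype Filter

namespace Pool.Agent.Exo

open SimpleGraph Pool.Agent.Helper49.Copies

private theorem part_bad {b q t m n θ r ε S : ℝ} (ht : 0 < t) (hq : 0 ≤ q) (hn : 0 ≤ n)
    (hr : 0 < r) (hcount : b * t + q * S ≤ q * (n * ((r - 1) * t + m)))
    (hS : r * t * ((1 - 1 / r - ε) * n) ≤ S) (h1 : q * m ≤ θ / 2 * t) (h2 : q * r * ε ≤ θ / 2) :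
    b ≤ θ * n := by
  have e : r * t * ((1 - 1 / r - ε) * n) = (r - 1) * t * n - r * t * ε * n := by
    field_simp
  rw [e] at hS
  have h3 : q * ((r - 1) * t * n - r * t * ε * n) ≤ q * S := mul_le_mul_of_nonneg_left hS hq
  have h4 : b * t ≤ (q * m) * n + (q * r * ε) * (t * n) := by nlinarith
  have h5 : (q * m) * n ≤ (θ / 2 * t) * n := mul_le_mul_of_nonneg_right h1 hn
  have h6 : (q * r * ε) * (t * n) ≤ (θ / 2) * (t * n) :=
    mul_le_mul_of_nonneg_right h2 (mul_nonneg ht.le hn)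
  have h7 : b * t ≤ (θ * n) * t := by nlinarith
  exact le_of_mul_le_mul_right h7 ht

theorem structure_thm {W : Type} [Fintype W] (L : SimpleGraph W) (r : ℕ) (hr : 2 ≤ r)
    (hnc : ¬ L.Colorable r) (hS : StarType L r) (hM : MatchType L r) :
    ∃ ε : ℝ, 0 < ε ∧ ∀ d : ℕ, ∃ N : ℕ, ∀ n ≥ N, ∀ (G : SimpleGraph (Fin n))
      (D : Finset (Fin n)), #D ≤ d → IsCore L G D →
      (∀ x, (1 - 1 / (r : ℝ) - ε) * n ≤ dg G univ x) →
      ∃ j : Fin n → Fin r, inn G j ≤ 4 * r * card W * card W ∧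
        ∀ i, n ≤ 2 * r * #(cls j i) := by
  classical
  set m : ℕ := card W with hm
  have hrR : (2 : ℝ) ≤ r := by exact_mod_cast hr
  have hr0 : (0 : ℝ) < r := by linarith
  have hr1 : (0 : ℝ) < r - 1 := by linarith
  have hm0 : (0 : ℝ) ≤ m := Nat.cast_nonneg _
  set C : ℝ := r * m * (2 * r + 2) + 4 * r + 4 with hC
  have hC0 : 0 < C := by positivity
  set A : ℝ := 2 * m + 2 + r * m with hA
  have hA0 : 0 < A := by positivity
  have hA1 : 1 ≤ A := by
    have : 0 ≤ (r : ℝ) * m := by positivity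
    rw [hA]; linarith
  set θ : ℝ := 1 / (4 * r * C * A) with hθ
  have hθ0 : 0 < θ := by positivity
  have hCAθ : C * A * θ = 1 / (4 * r) := by
    rw [hθ]
    field_simp
  set q : ℝ := 2 * (m + 1) with hq
  have hq0 : 0 < q := by positivity
  have hq1 : 1 ≤ q := by rw [hq]; linarith
  obtain ⟨t, ht⟩ := exists_nat_ge (2 * m * m + 4 * m + 2 + 2 * q * m / θ)
  have htp : (0 : ℝ) ≤ 2 * q * m / θ := by positivity
  have hmm : (0 : ℝ) ≤ 2 * m * m := by positivity
  have ht1 : 2 * m * m + 4 * m + 2 ≤ t := by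
    have h : ((2 * m * m + 4 * m + 2 : ℕ) : ℝ) ≤ t := by push_cast; linarith
    exact_mod_cast h
  have ht0 : (0 : ℝ) < t := by linarith
  have ht2 : q * m ≤ θ / 2 * t := by
    have h1 : 2 * q * m / θ ≤ t := by linarith
    rw [div_le_iff₀ hθ0] at h1
    linarith
  set ε : ℝ := min (θ / (2 * q * r)) (1 / (2 * r * (r - 1))) with hε
  have hε0 : 0 < ε := lt_min (by positivity) (by positivity)
  have hε1 : q * r * ε ≤ θ / 2 := by
    have h1 : ε ≤ θ / (2 * q * r) := min_le_left _ _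
    rw [le_div_iff₀ (by positivity)] at h1
    linarith
  have hε2 : ε ≤ θ := by
    have h1 : 1 * ε ≤ (q * r) * ε := by
      apply mul_le_mul_of_nonneg_right _ hε0.le
      nlinarith
    linarith
  refine ⟨ε, hε0, fun d => ?_⟩
  obtain ⟨N₁, hN₁⟩ := tile_exists r hr t d
  obtain ⟨N₂, hN₂⟩ := exists_nat_ge (((m : ℝ) + d + 1) / θ + 2 * r * (3 * m + 1 + d))
  refine ⟨max N₁ N₂, fun n hn G D hD hcore hdeg => ?_⟩
  have hn1 : N₁ ≤ n := le_trans (le_max_left _ _) hn
  have hn2 : (N₂ : ℝ) ≤ n := by exact_mod_cast le_trans (le_max_right _ _) hn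
  have hd0 : (0 : ℝ) ≤ d := Nat.cast_nonneg _
  have hp1 : (0 : ℝ) ≤ ((m : ℝ) + d + 1) / θ := by positivity
  have hp2 : (0 : ℝ) ≤ 2 * r * (3 * m + 1 + d) := by positivity
  have hnA : (m : ℝ) + d + 1 ≤ θ * n := by
    have h1 : ((m : ℝ) + d + 1) / θ ≤ n := by linarith
    rw [div_le_iff₀ hθ0] at h1
    linarith
  have hnB : (3 * m + 1 + d : ℝ) ≤ n / (2 * r) := by
    rw [le_div_iff₀ (by positivity)]
    linarith
  have hn0 : (0 : ℝ) ≤ n := Nat.cast_nonneg _
  obtain ⟨T, hT, hTD⟩ := hN₁ n hn1 G D hD (fun x => le_trans (by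
    apply mul_le_mul_of_nonneg_right _ hn0
    have h1 : ε ≤ 1 / (2 * r * (r - 1)) := min_le_right _ _
    linarith) (hdeg x))
  obtain ⟨Gd, j, hin, hcount⟩ := good_of_tile L G r hr hnc hS D hcore t ht1 T hT hTD
  have hbad : (#(univ \ Gd) : ℝ) ≤ θ * n := by
    refine part_bad (q := q) (t := t) (m := m) (r := r) (ε := ε)
      (S := ((∑ x ∈ tileSet T, dg G univ x : ℕ) : ℝ)) ht0 hq0.le hn0 hr0 ?_ ?_ ht2 hε1
    · have h1 : ((#(univ \ Gd) * t + 2 * (m + 1) * ∑ x ∈ tileSet T, dg G univ x : ℕ) : ℝ) ≤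
          ((2 * (m + 1) * (card (Fin n) * ((r - 1) * t + m)) : ℕ) : ℝ) := by
        exact_mod_cast hcount
      rw [Fintype.card_fin] at h1
      push_cast [Nat.cast_sub (show 1 ≤ r by omega)] at h1
      rw [hq]
      push_cast
      exact h1
    · have h1 : #(tileSet T) • ((1 - 1 / (r : ℝ) - ε) * n) ≤
          ∑ x ∈ tileSet T, (dg G univ x : ℝ) := Finset.card_nsmul_le_sum _ _ _ (fun x _ => hdeg x)
      rw [hT.card, nsmul_eq_mul] at h1
      push_cast at h1 ⊢
      exact h1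
  have hDr : (#D : ℝ) ≤ d := by exact_mod_cast hD
  have hCs0 : C * (θ * n) ≤ n / (4 * r) := by
    have h1 : C * (θ * n) * 1 ≤ C * (θ * n) * A :=
      mul_le_mul_of_nonneg_left hA1 (by positivity)
    have h2 : C * (θ * n) * A = (C * A * θ) * n := by ring
    rw [h2, hCAθ] at h1
    have h3 : 1 / (4 * (r : ℝ)) * n = n / (4 * r) := by ring
    linarith
  have hACs : A * (C * (θ * n)) = n / (4 * r) := by
    have h2 : A * (C * (θ * n)) = (C * A * θ) * n := by ring
    rw [h2, hCAθ]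
    ring
  have e1 : (n : ℝ) / r = 4 * (n / (4 * r)) := by
    field_simp
  have e2 : (n : ℝ) / (2 * r) = 2 * (n / (4 * r)) := by
    field_simp
    norm_num
  have hpos : 0 < (n : ℝ) / (4 * r) := by
    have : 0 < (n : ℝ) / (2 * r) := by linarith
    linarith
  obtain ⟨j', hmg, hcl⟩ := good_of_classes L G r hr hnc hS D hcore Gd j hin (θ * n)
    (by linarith) (by linarith) hbad (by
      intro x
      refine le_trans ?_ (hdeg x)
      rw [Fintype.card_fin]
      have : ε * n ≤ θ * n := mul_le_mul_of_nonneg_right hε2 hn0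
      linarith) C hC (by
      rw [Fintype.card_fin]
      linarith)
  rw [Fintype.card_fin] at hcl
  refine ⟨j', ?_, ?_⟩
  · refine inner_of_good L G r hr hnc hS hM D hcore j' ⌊C * (θ * n)⌋₊
      (fun x l hl => Nat.le_floor (hmg x l hl)) ?_
    intro l
    have hσ : (⌊C * (θ * n)⌋₊ : ℝ) ≤ C * (θ * n) := Nat.floor_le (by positivity)
    have h1 : (((2 * m + 1) * ⌊C * (θ * n)⌋₊ + r * m * ⌊C * (θ * n)⌋₊ + 3 * m + 1 + #D : ℕ) : ℝ) ≤
        #(cls j' l) := by
      refine le_trans ?_ (hcl l)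
      push_cast
      have h2 : (2 * m + 1 + r * m : ℝ) * ⌊C * (θ * n)⌋₊ ≤ (2 * m + 1 + r * m) * (C * (θ * n)) :=
        mul_le_mul_of_nonneg_left hσ (by positivity)
      have h3 : (2 * m + 1 + r * m : ℝ) * (C * (θ * n)) = A * (C * (θ * n)) - C * (θ * n) := by
        rw [hA]; ring
      rw [h3, hACs] at h2
      linarith
    exact_mod_cast h1
  · intro i
    have h1 := hcl i
    have h2 : (n : ℝ) / (2 * r) ≤ #(cls j' i) := by linarith
    rw [div_le_iff₀ (by positivity)] at h2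
    have h3 : ((n : ℕ) : ℝ) ≤ ((2 * r * #(cls j' i) : ℕ) : ℝ) := by
      push_cast
      linarith
    exact_mod_cast h3

end Pool.Agent.Exo
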