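import Pool.Agent.Exo.Emb

/-!
# Copies from a rich vertex, from a star inside a class and from a matching inside a class
-/

open Finset Fintype Filter

namespace Pool.Agent.Exo

open SimpleGraph Pool.Agent.Helper49.Copies

/-- A vertex joined to all vertices of a complete `r`-partite configuration. -/
theorem rich_copy {V W : Type} [Fintype W] [DecidableEq V] (L : SimpleGraph W)
    (G : SimpleGraph V) (r : ℕ) (hr : 2 ≤ r) (hnc : ¬ L.Colorable r) (hS : StarType L r)
    (A : Fin r → Finset V) (hAA : ∀ i l, i ≠ l → ∀ a ∈ A i, ∀ b ∈ A l, G.Adj a b)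
    (hcard : ∀ i, card W ≤ #(A i)) (w : V) (hw : ∀ i, ∀ a ∈ A i, G.Adj w a) :
    ∃ (f : Copy L G) (x : W) (i : Fin r), f x ∈ A i := by
  classical
  obtain ⟨v, g, hg⟩ := hS
  obtain ⟨f, -, hf⟩ := emb L G r g {v} (fun _ => w) A
    (fun x hx y hy _ => by rw [Set.mem_singleton_iff] at hx hy; rw [hx, hy])
    (fun x _ i h => (hw i w h).ne rfl)
    (fun x hx y hy h => by
      rw [Set.mem_singleton_iff] at hx hy
      subst hx hy
      exact absurd rfl h.ne)
    (fun x _ y _ _ a ha => hw _ a ha) hAA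
    (fun x hx y hy h => hg x y h hx hy) hcard
  obtain ⟨x, hx⟩ : ∃ x : W, x ≠ v := by
    by_contra hcon
    push Not at hcon
    apply hnc
    have h0 : 0 < r := by omega
    exact ⟨SimpleGraph.Coloring.mk (fun _ => ⟨0, h0⟩) fun {a b} hab => by
      rw [hcon a, hcon b] at hab
      exact absurd rfl hab.ne⟩
  exact ⟨f, x, g x, hf x hx⟩

/-- A large star inside the class `i₀`. -/
theorem star_copy_in {V W : Type} [Fintype W] [DecidableEq V] (L : SimpleGraph W)
    (G : SimpleGraph V) (r : ℕ) (hr : 2 ≤ r) (hnc : ¬ L.Colorable r) (hS : StarType L r)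
    (A : Fin r → Finset V) (hAA : ∀ i l, i ≠ l → ∀ a ∈ A i, ∀ b ∈ A l, G.Adj a b)
    (hcard : ∀ i, card W ≤ #(A i)) (i₀ : Fin r) (w : V) (S : Finset V) (hSc : card W ≤ #S)
    (hwS : ∀ y ∈ S, G.Adj w y)
    (hwA : ∀ l, l ≠ i₀ → ∀ a ∈ A l, G.Adj w a ∧ ∀ y ∈ S, G.Adj y a)
    (hw0 : w ∉ A i₀) (hS0 : ∀ y ∈ S, y ∉ A i₀) :
    ∃ (f : Copy L G) (x : W) (i : Fin r), f x ∈ A i := by
  classical
  obtain ⟨v, g₀, hg₀⟩ := hS
  obtain ⟨g, hgv, hg⟩ : ∃ g : W → Fin r, g v = i₀ ∧
      ∀ a b, L.Adj a b → a ≠ v → b ≠ v → g a ≠ g b := by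
    refine ⟨fun x => Equiv.swap (g₀ v) i₀ (g₀ x), Equiv.swap_apply_left _ _, ?_⟩
    intro a b hab ha hb h
    exact hg₀ a b hab ha hb ((Equiv.swap (g₀ v) i₀).injective h)
  obtain ⟨e⟩ : Nonempty (W ↪ S) := Function.Embedding.nonempty_of_card_le (by simpa using hSc)
  set X : Set W := {x | x = v ∨ (L.Adj v x ∧ g x = i₀)} with hX
  set φ : W → V := fun x => if x = v then w else (e x : V) with hφd
  have hφv : φ v = w := by simp [hφd]
  have hφn : ∀ x, x ≠ v → φ x = (e x : V) := fun x hx => by simp [hφd, hx]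
  have heS : ∀ x, (e x : V) ∈ S := fun x => (e x).2
  have hwn : w ∉ S := fun h => (hwS w h).ne rfl
  suffices key : ∃ f : Copy L G, (∀ x ∈ X, f x = φ x) ∧ ∀ y, y ∉ X → f y ∈ A (g y) by
    obtain ⟨f, -, hf⟩ := key
    obtain ⟨y, hy⟩ : ∃ y, y ∉ X := by
      by_contra hcon
      push Not at hcon
      apply hnc
      have h2 : L.Colorable 2 := by
        refine ⟨SimpleGraph.Coloring.mk (fun x => if x = v then 0 else 1) fun {a b} hab => ?_⟩
        by_cases ha : a = v
        · have hb : b ≠ v := fun hb => hab.ne (ha.trans hb.symm)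
          simp [ha, hb]
        · by_cases hb : b = v
          · simp [ha, hb]
          · exfalso
            have h1 : g a = i₀ := (hcon a).resolve_left ha |>.2
            have h3 : g b = i₀ := (hcon b).resolve_left hb |>.2
            exact hg a b hab ha hb (h1.trans h3.symm)
      exact h2.mono hr
    exact ⟨f, y, g y, hf y hy⟩
  refine emb L G r g X φ A ?_ ?_ ?_ ?_ hAA ?_ hcard
  · intro x hx y hy hxy
    by_cases h1 : x = v
    · by_cases h2 : y = v
      · rw [h1, h2]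
      · rw [h1, hφv, hφn y h2] at hxy
        exact absurd (hxy ▸ heS y) hwn
    · by_cases h2 : y = v
      · rw [h2, hφv, hφn x h1] at hxy
        exact absurd (hxy ▸ heS x) hwn
      · rw [hφn x h1, hφn y h2] at hxy
        exact e.injective (Subtype.ext hxy)
  · intro x hx i hi
    by_cases h1 : x = v
    · rw [h1, hφv] at hi
      by_cases h2 : i = i₀
      · exact hw0 (h2 ▸ hi)
      · exact (hwA i h2 w hi).1.ne rfl
    · rw [hφn x h1] at hi
      by_cases h2 : i = i₀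
      · exact hS0 _ (heS x) (h2 ▸ hi)
      · exact ((hwA i h2 _ hi).2 _ (heS x)).ne rfl
  · intro x hx y hy hxy
    by_cases h1 : x = v
    · have h2 : y ≠ v := fun h2 => hxy.ne (h1.trans h2.symm)
      rw [h1, hφv, hφn y h2]
      exact hwS _ (heS y)
    · by_cases h2 : y = v
      · rw [h2, hφv, hφn x h1]
        exact (hwS _ (heS x)).symm
      · exact absurd ((hx.resolve_left h1).2.trans (hy.resolve_left h2).2.symm)
          (hg x y hxy h1 h2)
  · intro x hx y hy hxy a ha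
    have hyv : y ≠ v := fun h => hy (Or.inl h)
    by_cases h1 : x = v
    · have h2 : g y ≠ i₀ := fun h => hy (Or.inr ⟨h1 ▸ hxy, h⟩)
      rw [h1, hφv]
      exact (hwA _ h2 a ha).1
    · have h2 : g y ≠ i₀ := fun h => hg x y hxy h1 hyv ((hx.resolve_left h1).2.trans h.symm)
      rw [hφn x h1]
      exact (hwA _ h2 a ha).2 _ (heS x)
  · intro x hx y hy hxy
    exact hg x y hxy (fun h => hx (Or.inl h)) (fun h => hy (Or.inl h))

/-- A large matching inside the class `i₀`. -/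
theorem match_copy_in {V W : Type} [Fintype W] [DecidableEq V] (L : SimpleGraph W)
    (G : SimpleGraph V) (r : ℕ) (hr : 2 ≤ r) (hnc : ¬ L.Colorable r) (hM : MatchType L r)
    (A : Fin r → Finset V) (hAA : ∀ i l, i ≠ l → ∀ a ∈ A i, ∀ b ∈ A l, G.Adj a b)
    (hcard : ∀ i, card W ≤ #(A i)) (i₀ : Fin r) (p q : Fin (card W) → V)
    (hpq : ∀ k, G.Adj (p k) (q k)) (hp : Function.Injective p) (hq : Function.Injective q)
    (hne : ∀ k l, p k ≠ q l)
    (hpA : ∀ l, l ≠ i₀ → ∀ a ∈ A l, ∀ k, G.Adj (p k) a ∧ G.Adj (q k) a)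
    (h0 : ∀ k, p k ∉ A i₀ ∧ q k ∉ A i₀) :
    ∃ (f : Copy L G) (x : W) (i : Fin r), f x ∈ A i := by
  classical
  obtain ⟨i₁, g₀, hg₀⟩ := hM
  obtain ⟨g, hg⟩ : ∃ g : W → Fin r, ∀ a b, L.Adj a b → g a = g b →
      g a = i₀ ∧ ∀ b', L.Adj a b' → g a = g b' → b' = b := by
    refine ⟨fun x => Equiv.swap i₁ i₀ (g₀ x), ?_⟩
    intro a b hab h
    obtain ⟨h1, h2⟩ := hg₀ a b hab ((Equiv.swap i₁ i₀).injective h)
    refine ⟨by simp [h1], fun b' hb' h' => h2 b' hb' ((Equiv.swap i₁ i₀).injective h')⟩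
  set X : Set W := {a | ∃ b, L.Adj a b ∧ g a = g b} with hX
  have hτ : ∀ a, ∃ b, a ∈ X → L.Adj a b ∧ g a = g b := by
    intro a
    by_cases ha : a ∈ X
    · obtain ⟨b, hb⟩ := ha
      exact ⟨b, fun _ => hb⟩
    · exact ⟨a, fun h => absurd h ha⟩
  choose τ hτ using hτ
  have hX0 : ∀ a ∈ X, g a = i₀ := fun a ha => (hg a _ (hτ a ha).1 (hτ a ha).2).1
  have huniq : ∀ a ∈ X, ∀ b, L.Adj a b → g a = g b → b = τ a := fun a ha b hb h =>
    (hg a _ (hτ a ha).1 (hτ a ha).2).2 b hb h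
  have hτX : ∀ a ∈ X, τ a ∈ X := fun a ha => ⟨a, (hτ a ha).1.symm, (hτ a ha).2.symm⟩
  have hττ : ∀ a ∈ X, τ (τ a) = a := fun a ha =>
    (huniq (τ a) (hτX a ha) a (hτ a ha).1.symm (hτ a ha).2.symm).symm
  have hτne : ∀ a ∈ X, τ a ≠ a := fun a ha h => (hτ a ha).1.ne h.symm
  set e : W ≃ Fin (card W) := Fintype.equivFin W with he
  set φ : W → V := fun a => if e a < e (τ a) then p (e a) else q (e (τ a)) with hφd
  have hφp : ∀ a, e a < e (τ a) → φ a = p (e a) := fun a h => by simp [hφd, h]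
  have hφq : ∀ a, ¬ e a < e (τ a) → φ a = q (e (τ a)) := fun a h => by simp [hφd, h]
  have hφc : ∀ a, (∃ k, φ a = p k) ∨ ∃ k, φ a = q k := by
    intro a
    by_cases h : e a < e (τ a)
    · exact Or.inl ⟨_, hφp a h⟩
    · exact Or.inr ⟨_, hφq a h⟩
  suffices key : ∃ f : Copy L G, (∀ x ∈ X, f x = φ x) ∧ ∀ y, y ∉ X → f y ∈ A (g y) by
    obtain ⟨f, -, hf⟩ := key
    obtain ⟨y, hy⟩ : ∃ y, y ∉ X := by
      by_contra hcon
      push Not at hcon
      apply hnc
      have h2 : L.Colorable 2 := by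
        refine ⟨SimpleGraph.Coloring.mk (fun x => if e x < e (τ x) then 0 else 1)
          fun {a b} hab => ?_⟩
        have h1 : g a = g b := (hX0 a (hcon a)).trans (hX0 b (hcon b)).symm
        have hb : b = τ a := huniq a (hcon a) b hab h1
        have hb' : τ b = a := by rw [hb]; exact hττ a (hcon a)
        rw [hb', ← hb]
        have hne' : e a ≠ e b := fun h => hab.ne (e.injective h)
        by_cases h3 : e a < e b
        · have h4 : ¬ e b < e a := not_lt.2 h3.le
          simp [h3, h4]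
        · have h4 : e b < e a := lt_of_le_of_ne (not_lt.1 h3) (Ne.symm hne')
          simp [h3, h4]
      exact h2.mono hr
    exact ⟨f, y, g y, hf y hy⟩
  refine emb L G r g X φ A ?_ ?_ ?_ ?_ hAA ?_ hcard
  · intro x hx y hy hxy
    by_cases h1 : e x < e (τ x)
    · by_cases h2 : e y < e (τ y)
      · rw [hφp x h1, hφp y h2] at hxy
        exact e.injective (hp hxy)
      · rw [hφp x h1, hφq y h2] at hxy
        exact absurd hxy (hne _ _)
    · by_cases h2 : e y < e (τ y)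
      · rw [hφq x h1, hφp y h2] at hxy
        exact absurd hxy.symm (hne _ _)
      · rw [hφq x h1, hφq y h2] at hxy
        have h3 := e.injective (hq hxy)
        rw [← hττ x hx, h3, hττ y hy]
  · intro x hx i hi
    rcases hφc x with ⟨k, hk⟩ | ⟨k, hk⟩
    · rw [hk] at hi
      by_cases h2 : i = i₀
      · exact (h0 k).1 (h2 ▸ hi)
      · exact (hpA i h2 _ hi k).1.ne rfl
    · rw [hk] at hi
      by_cases h2 : i = i₀
      · exact (h0 k).2 (h2 ▸ hi)
      · exact (hpA i h2 _ hi k).2.ne rfl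
  · intro x hx y hy hxy
    have h1 : g x = g y := (hX0 x hx).trans (hX0 y hy).symm
    have hb : y = τ x := huniq x hx y hxy h1
    have hb' : τ y = x := by rw [hb]; exact hττ x hx
    have hne' : e x ≠ e y := fun h => hxy.ne (e.injective h)
    by_cases h3 : e x < e y
    · have h4 : ¬ e y < e (τ y) := by rw [hb']; exact not_lt.2 h3.le
      rw [hφp x (hb ▸ h3), hφq y h4, hb']
      exact hpq _
    · have h4 : e y < e x := lt_of_le_of_ne (not_lt.1 h3) (Ne.symm hne')
      have h5 : e y < e (τ y) := by rw [hb']; exact h4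
      have h6 : ¬ e x < e (τ x) := by rw [← hb]; exact h3
      rw [hφp y h5, hφq x h6, ← hb]
      exact (hpq _).symm
  · intro x hx y hy hxy a ha
    have h2 : g y ≠ i₀ := fun h => hy ⟨x, hxy.symm, h.trans (hX0 x hx).symm⟩
    rcases hφc x with ⟨k, hk⟩ | ⟨k, hk⟩
    · rw [hk]; exact (hpA _ h2 a ha k).1
    · rw [hk]; exact (hpA _ h2 a ha k).2
  · intro x hx y hy hxy h
    exact hx ⟨y, hxy, h⟩

end Pool.Agent.Exo
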