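import Pool.Agent.Exo.Defs

/-!
# Counting pairs
-/

open Finset Fintype Filter

namespace Pool.Agent.Exo

open SimpleGraph Pool.Agent.Helper49.Copies

theorem pr_eq {V : Type} [Fintype V] (G : SimpleGraph V) [Fintype G.edgeSet] :
    pr G = 2 * #G.edgeFinset := by
  classical
  have h3 : pr G = #(univ.filter fun (x, y) ↦ G.Adj x y) := by
    unfold pr
    apply congrArg Finset.card
    ext p
    simp only [mem_filter, Finset.mem_univ, true_and]
  have h4 : ∀ i₁ i₂ : Fintype G.edgeSet, #(@edgeFinset V G i₁) = #(@edgeFinset V G i₂) := by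
    intro i₁ i₂
    rw [Subsingleton.elim i₁ i₂]
  rw [h3, ← G.two_mul_card_edgeFinset]
  exact congrArg (fun m => 2 * m) (h4 _ _)

private theorem tur_pr (r n : ℕ) : pr (turanGraph n r) = 2 * tur r n := by
  unfold tur
  exact pr_eq _

private theorem tur_count (r n : ℕ) (hr : 1 ≤ r) :
    (∑ w ∈ range n, if n % r ≠ w % r then 1 else 0) = n - n / r := by
  have h1 : (∑ w ∈ range n, if n % r ≠ w % r then 1 else 0) + #{w ∈ range n | w ≡ n [MOD r]} = n := by
    rw [← Finset.card_filter, ← Finset.card_range n]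
    conv_rhs => rw [← Finset.card_filter_add_card_filter_not (s := range n) (fun w => n % r ≠ w % r)]
    congr 2
    · rw [Finset.card_range]
    · ext w
      simp only [mem_filter, mem_range, not_not, Nat.ModEq, Finset.card_range]
      constructor
      · rintro ⟨h, h'⟩; exact ⟨h, h'.symm⟩
      · rintro ⟨h, h'⟩; exact ⟨h, h'.symm⟩
  have h2 : #{w ∈ range n | w ≡ n [MOD r]} = n / r := by
    have := Nat.count_modEq_card n (r := r) hr n
    rw [Nat.count_eq_card_filter_range] at this
    rw [this]
    simp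
  omega

private theorem tur_pr_sum (r n : ℕ) : pr (turanGraph n r) =
    ∑ v ∈ range n, ∑ w ∈ range n, if v % r ≠ w % r then 1 else 0 := by
  classical
  unfold pr
  rw [Finset.card_filter, ← Finset.univ_product_univ, Finset.sum_product]
  rw [← Fin.sum_univ_eq_sum_range (fun v => ∑ w ∈ range n, if v % r ≠ w % r then 1 else 0) n]
  refine Finset.sum_congr rfl fun v _ => ?_
  rw [← Fin.sum_univ_eq_sum_range (fun w => if (v : ℕ) % r ≠ w % r then 1 else 0) n]
  refine Finset.sum_congr rfl fun w _ => ?_
  simp only [turanGraph_adj]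

theorem tur_succ (r n : ℕ) (hr : 1 ≤ r) : tur r (n + 1) = tur r n + (n - n / r) := by
  have h1 := tur_pr r n
  have h2 := tur_pr r (n + 1)
  rw [tur_pr_sum] at h1 h2
  have h3 : (∑ v ∈ range n, if v % r ≠ n % r then 1 else 0) = n - n / r := by
    rw [← tur_count r n hr]
    refine Finset.sum_congr rfl fun v _ => ?_
    simp only [ne_comm]
  have h4 := tur_count r n hr
  rw [Finset.sum_range_succ] at h2
  simp only [Finset.sum_range_succ, Finset.sum_add_distrib] at h2
  rw [h3, h4, h1] at h2
  simp at h2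
  omega

private theorem tur_split {V : Type} [Fintype V] {r : ℕ} (G T : SimpleGraph V) (j : V → Fin r)
    (hT : ∀ x y, T.Adj x y ↔ j x ≠ j y) : pr G + mis G j = pr T + inn G j := by
  classical
  unfold pr mis inn
  have e1 : #{p : V × V | G.Adj p.1 p.2} = #{p : V × V | G.Adj p.1 p.2 ∧ j p.1 = j p.2} +
      #{p : V × V | G.Adj p.1 p.2 ∧ j p.1 ≠ j p.2} := by
    rw [← Finset.card_filter_add_card_filter_not (s := {p : V × V | G.Adj p.1 p.2})
      (fun p => j p.1 = j p.2)]
    rw [Finset.filter_filter, Finset.filter_filter]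
  have e2 : #{p : V × V | T.Adj p.1 p.2} = #{p : V × V | G.Adj p.1 p.2 ∧ j p.1 ≠ j p.2} +
      #{p : V × V | ¬ G.Adj p.1 p.2 ∧ j p.1 ≠ j p.2} := by
    rw [← Finset.card_filter_add_card_filter_not (s := {p : V × V | T.Adj p.1 p.2})
      (fun p => G.Adj p.1 p.2)]
    rw [Finset.filter_filter, Finset.filter_filter]
    simp only [hT]
    congr 2
    · ext p; simp only [mem_filter, mem_univ, true_and]; tauto
    · ext p; simp only [mem_filter, mem_univ, true_and]; tauto
  omega

/-- For every partition the number of pairs in different classes is at most `2 * tur r n`. -/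
theorem pr_add_mis_le {n r : ℕ} (hr : 1 ≤ r) (G : SimpleGraph (Fin n)) (j : Fin n → Fin r) :
    pr G + mis G j ≤ 2 * tur r n + inn G j := by
  classical
  let T : SimpleGraph (Fin n) :=
    { Adj := fun x y => j x ≠ j y
      symm := ⟨fun _ _ h => Ne.symm h⟩
      loopless := ⟨fun _ h => h rfl⟩ }
  rw [tur_split G T j (fun x y => Iff.rfl)]
  have hc : T.Colorable r := ⟨Coloring.mk j (fun {a b} h => h)⟩
  have h1 := (hc.cliqueFree (Nat.lt_succ_self r)).card_edgeFinset_le
  rw [Fintype.card_fin] at h1
  have h2 : #T.edgeFinset ≤ tur r n := by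
    unfold tur
    rw [card_edgeFinset_turanGraph]; exact h1
  rw [pr_eq T]
  omega

/-- Equality for the partition by residues. -/
theorem pr_add_mis_eq {n r : ℕ} (hr : 1 ≤ r) (G : SimpleGraph (Fin n)) (j : Fin n → Fin r)
    (hj : ∀ x, (j x : ℕ) = (x : ℕ) % r) :
    pr G + mis G j = 2 * tur r n + inn G j := by
  rw [← tur_pr, tur_split G (turanGraph n r) j]
  intro x y
  rw [turanGraph_adj, ← hj, ← hj, ne_eq, ne_eq, Fin.ext_iff]

end Pool.Agent.Exo
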